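import Pool.Agent.Mg.F755159.G4a62f1

section

/-! The second moment computation for a fixed 2-factor. -/

set_option linter.unusedSectionVars false

namespace Pool.Agent.MP_755159_pr

open Finset

variable {V : Type} [Fintype V] [DecidableEq V] {R T k : ℕ}

theorem touched_total {pos : V → Fin 4} {n : ℕ} (hn : ∀ q, cnt pos univ q = n) {s : Equiv.Perm V}
    (hs : ∀ v, pos (s v) = pos v + 1) {sp : Fin R → V} {K : ℕ} (hK : K = R + 2 * R * (T + 1) + k)
    (hnK : 10 * K < n) {b b' : Bits R T} {τ τ' : Cut R T k → Fin 4} {t₁ : Cut R T k → V}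
    {p₁ p : End R T k → End R T k} (h₁ : Val pos s sp b τ t₁ p₁)
    (hd : ∀ i, b i ≠ b' i) {ι : Type}
    (S : Finset ι) (t : ι → Cut R T k → V) (hinj : Set.InjOn t S)
    (h : ∀ i ∈ S, Val pos s sp b' τ' (t i) p)
    (hx : ∀ i ∈ S, ∃ x ∈ XX b', loc s (t i) x ∈ univ.image (loc s t₁)) :
    (∑ i ∈ S, (Ext pos (fun m => Rl s t₁ (PP b p₁) m ∧ Rl s (t i) (PP b' p) m)).card) *
      (n - 10 * K) ^ (R + 1) ≤ 2 * K * (2 * K * (Ext pos (Rl s t₁ (PP b p₁))).card) := by
  classical
  have hex : ∀ i, ∃ d, b i d ≠ b' i d ∧ ∀ l < d, b i l = b' i l := by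
    intro i
    obtain ⟨d, hd, hmin⟩ := exists_min_image (univ.filter (fun l => b i l ≠ b' i l)) id
      (by obtain ⟨l, hl⟩ := Function.ne_iff.mp (hd i); exact ⟨l, by simpa using hl⟩)
    refine ⟨d, by simpa using hd, fun l hl => ?_⟩
    by_contra hc
    exact absurd (hmin l (by simpa using hc)) (not_le.mpr hl)
  choose d hd1 hd2 using hex
  obtain ⟨A, hA⟩ : ∃ A, A = univ.image (loc s t₁) := ⟨_, rfl⟩
  have hAc : A.card ≤ 2 * K := by
    rw [hA, ← card_End hK]; exact card_image_le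
  obtain ⟨C, hC⟩ : ∃ C : End R T k → ι → Prop, C = fun u i => u ∈ ZZ b' d ∧ fl u ∈ ZZ b' d ∧
    (∀ x, loc s (t i) (xo b' x (d x)) ∉ A) ∧ loc s (t i) u ∈ A ∧ loc s (t i) (fl u) ∉ A := ⟨_, rfl⟩
  have h1 : ∑ i ∈ S, (Ext pos (fun m => Rl s t₁ (PP b p₁) m ∧ Rl s (t i) (PP b' p) m)).card ≤
      ∑ u, ∑ i ∈ S.filter (C u),
        (Ext pos (fun m => Rl s t₁ (PP b p₁) m ∧ Rl s (t i) (PP b' p) m)).card := by
    simp only [sum_filter]
    rw [sum_comm]
    apply sum_le_sum
    intro i hi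
    rcases (Ext pos (fun m => Rl s t₁ (PP b p₁) m ∧ Rl s (t i) (PP b' p) m)).eq_empty_or_nonempty
      with h0 | ⟨m, hm⟩
    · simp [h0]
    · obtain ⟨-, a, c⟩ := mem_Ext.mp hm
      obtain ⟨z, u, u1, u2, u3, u4⟩ := touched_exists hs h₁ (h i hi) hd1 hd2 a c (hx i hi)
      refine le_trans ?_ (single_le_sum (f := fun u => if C u i then _ else 0)
        (fun _ _ => Nat.zero_le _) (mem_univ u))
      rw [if_pos]
      rw [hC, hA]
      exact ⟨u1, u2, z, u3, u4⟩
  refine (Nat.mul_le_mul_right _ h1).trans ?_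
  rw [sum_mul]
  refine (sum_le_sum (g := fun _ => 2 * K * (Ext pos (Rl s t₁ (PP b p₁))).card) ?_).trans ?_
  · intro u _
    rcases (S.filter (C u)).eq_empty_or_nonempty with h0 | ⟨i₀, hi₀⟩
    · simp [h0]
    · have hC' : ∀ i ∈ S.filter (C u), u ∈ ZZ b' d ∧ fl u ∈ ZZ b' d ∧
          (∀ x, loc s (t i) (xo b' x (d x)) ∉ A) ∧ loc s (t i) u ∈ A ∧ loc s (t i) (fl u) ∉ A := by
        intro i hi
        have := (mem_filter.mp hi).2
        rwa [hC] at this
      exact touched_sum hn hs hK hnK (hA ▸ Rl_Loc pos s t₁ _) hAc d (hC' i₀ hi₀).1 (hC' i₀ hi₀).2.1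
        _ t (hinj.mono (filter_subset _ _)) (fun i hi => h i (mem_filter.mp hi).1)
        (fun i hi => (hC' i hi).2.2.1) (fun i hi => (hC' i hi).2.2.2.1)
        (fun i hi => (hC' i hi).2.2.2.2)
  · rw [sum_const, card_univ, card_End hK, smul_eq_mul]

/-- good completions of a placement of the chains -/
noncomputable def Good (pos : V → Fin 4) (s : Equiv.Perm V) (sp : Fin R → V) (b : Bits R T)
    (τ : Cut R T k → Fin 4) (r₀ : Fin R) (g₀ : Fin k) (γ : Chn R × Fin (T + 1) → V) :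
    Finset (Σ _ : Fin k → V, End R T k → End R T k) :=
  (GoodB pos s sp b τ r₀ g₀ γ).sigma (fun β => GoodP pos s b τ (tl sp γ β))

lemma Good_val {pos : V → Fin 4} {s : Equiv.Perm V} {sp : Fin R → V} (hsp0 : ∀ r, pos (sp r) = 0)
    {b : Bits R T} {τ : Cut R T k → Fin 4} {E : ℕ} {r₀ : Fin R} {g₀ : Fin k}
    (hτ : Typed b τ E r₀ g₀) {L : ℕ} {γ : Chn R × Fin (T + 1) → V} (hγ : γ ∈ Nice pos s sp τ L)
    {c : Σ _ : Fin k → V, End R T k → End R T k} (hc : c ∈ Good pos s sp b τ r₀ g₀ γ) :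
    Val pos s sp b τ (tl sp γ c.1) c.2 := by
  rw [Good, mem_sigma, mem_GoodB, mem_GoodP] at hc
  refine ⟨fun _ => rfl, ?_, hc.1.2.1, hc.2.1, hτ.chn, hc.2.2.1⟩
  rintro (r | x | g)
  · exact (hsp0 r).trans (hτ.sp r).symm
  · exact (mem_Nice.mp hγ).1 x
  · exact hc.1.1 g

theorem plant_bound {pos : V → Fin 4} {n : ℕ} (hn : ∀ q, cnt pos univ q = n) {s : Equiv.Perm V}
    (hs : ∀ v, pos (s v) = pos v + 1) {sp : Fin R → V} (hsp0 : ∀ r, pos (sp r) = 0)
    {K : ℕ} (hK : K = R + 2 * R * (T + 1) + k)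
    (hnK : 10 * K < n) {Q : (V → V) → Prop} {A : Finset V} (hQ : Loc pos A Q)
    (hA : A.card ≤ 2 * K) {b : Bits R T} {τ : Cut R T k → Fin 4} {E : ℕ} {r₀ : Fin R} {g₀ : Fin k}
    (hτ : Typed b τ E r₀ g₀) (L : ℕ) {β δ : ℝ} (hβ0 : 0 ≤ β) (hδ0 : 0 ≤ δ)
    (hβ : ∀ γ ∈ Nice pos s sp τ L, (n : ℝ) ^ (2 * E) * (E.factorial * E.factorial) ≤
      β * (Good pos s sp b τ r₀ g₀ γ).card)
    (hδ : ∀ p (S : Finset (Σ _ : Chn R × Fin (T + 1) → V, Σ _ : Fin k → V,
      End R T k → End R T k)), Set.InjOn (fun i : Σ _ : Chn R × Fin (T + 1) → V,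
        Σ _ : Fin k → V, End R T k → End R T k => tl sp i.1 i.2.1) S →
      (∀ i ∈ S, Val pos s sp b τ (tl sp i.1 i.2.1) p) →
      (∀ i ∈ S, ∃ x ∈ XX b, loc s (tl sp i.1 i.2.1) x ∈ A) →
      ((∑ i ∈ S, (Ext pos (fun m => Q m ∧ Rl s (tl sp i.1 i.2.1) (PP b p) m)).card : ℕ) : ℝ) ≤
        δ * (Ext pos Q).card) :
    ∑ i ∈ (Nice pos s sp τ L).sigma (Good pos s sp b τ r₀ g₀),
      (n : ℝ) ^ (2 * E) / (Good pos s sp b τ r₀ g₀ i.1).card *
        (Ext pos (fun m => Q m ∧ Rl s (tl sp i.1 i.2.1) (PP b i.2.2) m)).card ≤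
      (((n : ℝ) / (n - 10 * K)) ^ (2 * E) + β * δ) * (Ext pos Q).card := by
  classical
  have hpos : (0 : ℝ) < n - 10 * K := by
    have : ((10 * K : ℕ) : ℝ) < n := by exact_mod_cast hnK
    push_cast at this
    linarith
  have hcast : ((n - 10 * K : ℕ) : ℝ) = n - 10 * K := by
    rw [Nat.cast_sub hnK.le]; push_cast; ring
  rw [← sum_filter_add_sum_filter_not _ (fun i => ∀ x ∈ XX b, loc s (tl sp i.1 i.2.1) x ∉ A),
    add_mul]
  apply add_le_add
  · obtain ⟨F, hF⟩ : ∃ F : (Chn R × Fin (T + 1) → V) → Finset (V → V), F = fun γ =>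
      Ext pos (fun m => Q m ∧ ∃ β : Fin k → V, ∀ e, e ∉ XX b →
        m (loc s (tl sp γ β) e) = loc s (tl sp γ β) (ch b e)) := ⟨_, rfl⟩
    have h1 : ∑ γ ∈ Nice pos s sp τ L, (F γ).card ≤ 1 * (Ext pos Q).card := by
      apply sum_card_le_mul
      · intro γ _ m hm
        rw [hF, mem_Ext] at hm
        exact mem_Ext.mpr ⟨hm.1, hm.2.1⟩
      · intro m _
        rw [card_le_one]
        intro γ hγ γ' hγ'
        rw [mem_filter, hF, mem_Ext] at hγ hγ'
        obtain ⟨β, h⟩ := hγ.2.2.2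
        obtain ⟨β', h'⟩ := hγ'.2.2.2
        exact unique_gamma h h'
    calc _ ≤ ∑ i ∈ (Nice pos s sp τ L).sigma (Good pos s sp b τ r₀ g₀),
          (n : ℝ) ^ (2 * E) / (Good pos s sp b τ r₀ g₀ i.1).card *
            ((F i.1).card / (n - 10 * K) ^ (2 * E)) := by
          rw [sum_filter]
          apply sum_le_sum
          intro i hi
          split_ifs with hc
          · apply mul_le_mul_of_nonneg_left _ (by positivity)
            rw [le_div_iff₀ (by positivity), ← hcast]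
            rw [mem_sigma] at hi
            have := (untouched hn hs hK hQ hA (Good_val hsp0 hτ hi.1 hi.2) hτ.count hc).trans
              (Ext_congr (Q := fun m => Q m ∧ ∃ β : Fin k → V, ∀ e, e ∉ XX b →
                m (loc s (tl sp i.1 β) e) = loc s (tl sp i.1 β) (ch b e))
                (fun m _ h => ⟨h.1, _, h.2⟩))
            rw [hF]
            exact_mod_cast this
          · positivity
      _ ≤ ∑ γ ∈ Nice pos s sp τ L, ((n : ℝ) / (n - 10 * K)) ^ (2 * E) * (F γ).card := by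
          rw [sum_sigma]
          apply sum_le_sum
          intro γ _
          simp only [sum_const, nsmul_eq_mul]
          rcases Nat.eq_zero_or_pos (Good pos s sp b τ r₀ g₀ γ).card with h0 | h0
          · rw [h0]; simp only [Nat.cast_zero, zero_mul]; positivity
          · have : (0 : ℝ) < (Good pos s sp b τ r₀ g₀ γ).card := by exact_mod_cast h0
            rw [div_pow]
            apply le_of_eq
            field_simp
      _ ≤ _ := by
          rw [← mul_sum]
          apply mul_le_mul_of_nonneg_left _ (by positivity)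
          rw [one_mul] at h1
          exact_mod_cast h1
  · obtain ⟨S, hS⟩ : ∃ S, S = ((Nice pos s sp τ L).sigma (Good pos s sp b τ r₀ g₀)).filter
      (fun i => ¬ ∀ x ∈ XX b, loc s (tl sp i.1 i.2.1) x ∉ A) := ⟨_, rfl⟩
    rw [← hS]
    have hfac : (0 : ℝ) < E.factorial * E.factorial := by positivity
    have hval : ∀ i ∈ S, Val pos s sp b τ (tl sp i.1 i.2.1) i.2.2 := by
      intro i hi
      rw [hS, mem_filter, mem_sigma] at hi
      exact Good_val hsp0 hτ hi.1.1 hi.1.2
    calc _ ≤ ∑ i ∈ S, β / (E.factorial * E.factorial) *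
          (Ext pos (fun m => Q m ∧ Rl s (tl sp i.1 i.2.1) (PP b i.2.2) m)).card := by
          apply sum_le_sum
          intro i hi
          apply mul_le_mul_of_nonneg_right _ (by positivity)
          rw [hS, mem_filter, mem_sigma] at hi
          have : (0 : ℝ) < (Good pos s sp b τ r₀ g₀ i.1).card := by
            exact_mod_cast card_pos.mpr ⟨_, hi.1.2⟩
          rw [div_le_div_iff₀ this hfac]
          exact hβ _ hi.1.1
      _ = β / (E.factorial * E.factorial) * ∑ p ∈ TP (tyE τ) (XX b),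
          ∑ i ∈ S.filter (fun i => i.2.2 = p),
          ((Ext pos (fun m => Q m ∧ Rl s (tl sp i.1 i.2.1) (PP b i.2.2) m)).card : ℝ) := by
          rw [← mul_sum]
          congr 1
          symm
          convert sum_fiberwise_of_maps_to (s := S) (t := TP (tyE τ) (XX b)) (g := fun i => i.2.2)
            (fun i hi => mem_TP.mpr (hval i hi).tp) _
      _ ≤ β / (E.factorial * E.factorial) * ∑ _p ∈ TP (tyE τ) (XX b), δ * (Ext pos Q).card := by
          apply mul_le_mul_of_nonneg_left _ (by positivity)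
          apply sum_le_sum
          intro p _
          refine le_trans (le_of_eq ?_) (hδ p (S.filter (fun i => i.2.2 = p)) ?_ ?_ ?_)
          · push_cast
            apply sum_congr rfl
            intro i hi
            rw [(mem_filter.mp hi).2]
          · rintro ⟨γ, β, p₁⟩ hi ⟨γ', β', p₂⟩ hi' e
            simp only [coe_filter, Set.mem_ofPred_eq] at hi hi'
            have e1 : γ = γ' := funext fun x => congrFun e (Sum.inr (Sum.inl x))
            have e2 : β = β' := funext fun x => congrFun e (Sum.inr (Sum.inr x))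
            rw [e1, e2, hi.2, hi'.2]
          · intro i hi
            rw [mem_filter] at hi
            exact hi.2 ▸ hval i hi.1
          · intro i hi
            rw [mem_filter, hS, mem_filter] at hi
            have := hi.1.2
            push Not at this
            exact this
      _ ≤ _ := by
          rw [sum_const, nsmul_eq_mul]
          have := card_TP_le (tyE τ) _ (XX b) rfl
          rw [hτ.count, hτ.count] at this
          have h2 : ((TP (tyE τ) (XX b)).card : ℝ) ≤ E.factorial * E.factorial := by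
            exact_mod_cast this
          calc _ ≤ β / (E.factorial * E.factorial) *
              ((E.factorial * E.factorial) * (δ * (Ext pos Q).card)) := by gcongr
            _ = _ := by field_simp

lemma card_agree (b : Bits R T) :
    (univ.filter (fun b' : Bits R T => ¬ ∀ i, b i ≠ b' i)).card * 2 ^ (T + 1) ≤
      2 * R * Fintype.card (Bits R T) := by
  have h1 : univ.filter (fun b' : Bits R T => ¬ ∀ i, b i ≠ b' i) ⊆
      univ.biUnion (fun i => univ.filter (fun b' : Bits R T => b' i = b i)) := by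
    intro b' hb'
    simp only [mem_filter, mem_univ, true_and, not_forall, not_not] at hb'
    obtain ⟨i, hi⟩ := hb'
    simp only [mem_biUnion, mem_filter, mem_univ, true_and]
    exact ⟨i, hi.symm⟩
  refine (Nat.mul_le_mul_right _ ((card_le_card h1).trans card_biUnion_le)).trans ?_
  rw [sum_mul]
  refine (sum_le_sum (g := fun _ => Fintype.card (Bits R T)) ?_).trans ?_
  · intro i _
    have := resample_pi (fun _ : Chn R => (univ : Finset (Fin (T + 1) → Bool))) i
      (univ.filter (fun b' : Bits R T => b' i = b i)) (by simp) 1 ?_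
    · simpa using this
    · intro f _
      rw [card_le_one]
      intro x hx y hy
      simp only [mem_filter, mem_univ, true_and, Function.update_self] at hx hy
      rw [hx, hy]
  · simp [mul_comm]

theorem main_det {pos : V → Fin 4} {n : ℕ} (hn : ∀ q, cnt pos univ q = n) {s : Equiv.Perm V}
    (hs : ∀ v, pos (s v) = pos v + 1)
    {sp : Fin R → V} (hsp0 : ∀ r, pos (sp r) = 0) (hspi : Function.Injective sp)
    (hsp : ∀ W : Finset V, W.Nonempty → (∀ v ∈ W, s v ∈ W) → ∃ r, sp r ∈ W)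
    (T k E : ℕ) (hT : Even (T + 1)) (hE : R + k = 2 * E) (hR : 4 ≤ R) (hRE : R < E)
    {L n₁ n₂ I K : ℕ} (hI : I = 2 * R * (T + 1)) (hK : K = R + I + k) (hL : 2 ≤ L)
    (hN₁ : 4 * n₁ ≤ L) (hN₂ : 4 * n₂ ≤ L) (hn1 : 0 < n₁) (hnK : 10 * K < n)
    (c1 : 4 * k * (4 * n₂ + 5 * K) ≤ n) (c2 : 4 * I * n ≤ k * n₁) (c3 : 5 * K < n₂)
    {β : ℝ} (hβ : 2 * (n : ℝ) ^ (R + 1) * E ^ 3 ≤ β * (n₂ - 5 * K)) :
    (1 - (I * ((R + I) * (2 * L + 1)) : ℝ) / n) * (TP pos univ).card ≤
      (((n : ℝ) / (n - 10 * K)) ^ (2 * E) + β * (2 * K * (2 * K) / (n - 10 * K) ^ (R + 1)) +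
        β * (2 * R / 2 ^ (T + 1))) * (Ext pos (fun m => (Gr s m).IsHamiltonian)).card := by
  classical
  have hn0 : 0 < n := by omega
  have hK' : K = R + 2 * R * (T + 1) + k := by rw [hK, hI]
  obtain ⟨r₀⟩ : Nonempty (Fin R) := ⟨⟨0, by omega⟩⟩
  obtain ⟨g₀, hg₀⟩ : ∃ g₀ : Fin k, g₀.val = 0 := ⟨⟨0, by omega⟩, rfl⟩
  choose τ hτ using fun b : Bits R T => exists_typed b E hT hE hRE r₀ g₀ hg₀
  have hpos : (0 : ℝ) < n - 10 * K := by
    have : ((10 * K : ℕ) : ℝ) < n := by exact_mod_cast hnK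
    push_cast at this
    linarith
  have hcast : ((n - 10 * K : ℕ) : ℝ) = n - 10 * K := by
    rw [Nat.cast_sub hnK.le]; push_cast; ring
  have hpos2 : (0 : ℝ) < n₂ - 5 * K := by
    have : ((5 * K : ℕ) : ℝ) < n₂ := by exact_mod_cast c3
    push_cast at this
    linarith
  have hcast2 : ((n₂ - 5 * K : ℕ) : ℝ) = n₂ - 5 * K := by
    rw [Nat.cast_sub c3.le]; push_cast; ring
  have hnR : (0 : ℝ) < n := by exact_mod_cast hn0
  have hβ0 : 0 ≤ β := by
    by_contra hc
    have := mul_neg_of_neg_of_pos (not_le.mp hc) hpos2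
    have : (0 : ℝ) ≤ 2 * (n : ℝ) ^ (R + 1) * E ^ 3 := by positivity
    linarith
  obtain ⟨E', rfl⟩ : ∃ E', E = E' + 1 + 1 := ⟨E - 2, by omega⟩
  have hG : ∀ b, ∀ γ ∈ Nice pos s sp (τ b) L,
      (n₂ - 5 * K) * n ^ (k - 1) * ((E' + 1).factorial * E'.factorial) ≤
        2 * (Good pos s sp b (τ b) r₀ g₀ γ).card := by
    intro b γ hγ
    refine (Nat.mul_le_mul_right _ (card_GoodB hn hs hsp0 hspi hsp b r₀ g₀ hI hK hL hN₁ hN₂ hn0 hn1
      c1 c2 hγ)).trans ?_
    rw [mul_assoc]
    apply Nat.mul_le_mul_left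
    rw [Good, card_sigma, ← smul_eq_mul, ← sum_const]
    apply sum_le_sum
    intro β hβ
    rw [mem_GoodB] at hβ
    exact card_GoodP hs hβ.2.1 hsp (hτ b) hR hβ.2.2.1 hβ.2.2.2
  have hGpos : ∀ b, ∀ γ ∈ Nice pos s sp (τ b) L, 0 < (Good pos s sp b (τ b) r₀ g₀ γ).card := by
    intro b γ hγ
    have a := hG b γ hγ
    have c : 0 < (n₂ - 5 * K) * n ^ (k - 1) * ((E' + 1).factorial * E'.factorial) := by
      have : 0 < n₂ - 5 * K := by omega
      positivity
    omega
  have hGβ : ∀ b, ∀ γ ∈ Nice pos s sp (τ b) L, (n : ℝ) ^ (2 * (E' + 1 + 1)) *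
      ((E' + 1 + 1).factorial * (E' + 1 + 1).factorial) ≤
      β * (Good pos s sp b (τ b) r₀ g₀ γ).card := by
    intro b γ hγ
    have a : ((n₂ : ℝ) - 5 * K) * n ^ (k - 1) * ((E' + 1).factorial * E'.factorial) ≤
        2 * (Good pos s sp b (τ b) r₀ g₀ γ).card := by
      rw [← hcast2]; exact_mod_cast hG b γ hγ
    have c : (n : ℝ) ^ (2 * (E' + 1 + 1)) = n ^ (R + 1) * n ^ (k - 1) := by
      rw [← pow_add]; congr 1; omega
    have d : (((E' + 1 + 1).factorial : ℝ) * (E' + 1 + 1).factorial) ≤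
        ((E' + 1 + 1 : ℕ) : ℝ) ^ 3 * ((E' + 1).factorial * E'.factorial) := by
      rw [Nat.factorial_succ (E' + 1)]
      conv_lhs => rw [mul_comm]; enter [1]; rw [Nat.factorial_succ E']
      push_cast
      have : (0 : ℝ) ≤ ((E' : ℝ) + 1 + 1) ^ 2 * ((E' + 1).factorial * E'.factorial) := by positivity
      nlinarith
    have e := mul_le_mul_of_nonneg_right hβ
      (show (0 : ℝ) ≤ n ^ (k - 1) * ((E' + 1).factorial * E'.factorial) by positivity)
    have f := mul_le_mul_of_nonneg_left a hβ0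
    have g := mul_le_mul_of_nonneg_left d
      (show (0 : ℝ) ≤ n ^ (R + 1) * n ^ (k - 1) by positivity)
    rw [c]
    nlinarith
  obtain ⟨α, hα⟩ : ∃ α : ℝ, α = ((n : ℝ) / (n - 10 * K)) ^ (2 * (E' + 1 + 1)) := ⟨_, rfl⟩
  obtain ⟨δ, hδ⟩ : ∃ δ : ℝ, δ = 2 * K * (2 * K) / (n - 10 * K) ^ (R + 1) := ⟨_, rfl⟩
  have hα0 : 0 ≤ α := by rw [hα]; positivity
  have hδ0 : 0 ≤ δ := by rw [hδ]; positivity
  rw [← hα, ← hδ]
  obtain ⟨B, hB⟩ : ∃ B : ℝ, B = Fintype.card (Bits R T) := ⟨_, rfl⟩
  have hB0 : 0 < B := by rw [hB]; exact_mod_cast Fintype.card_pos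
  have key := second_moment
    (univ.sigma (fun b : Bits R T => (Nice pos s sp (τ b) L).sigma (Good pos s sp b (τ b) r₀ g₀)))
    (fun i => (n : ℝ) ^ (2 * (E' + 1 + 1)) / (Good pos s sp i.1 (τ i.1) r₀ g₀ i.2.1).card)
    (fun _ _ => by positivity)
    (fun i => Ext pos (Rl s (tl sp i.2.1 i.2.2.1) (PP i.1 i.2.2.2)))
    (Ext pos (fun m => (Gr s m).IsHamiltonian)) ?_
    (B * (α + β * δ + β * (2 * R / 2 ^ (T + 1)))) (by positivity) ?_
  · rw [mul_assoc] at key
    apply le_of_mul_le_mul_left _ hB0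
    refine le_trans ?_ key
    rw [sum_sigma, hB, ← card_univ, ← nsmul_eq_mul, ← sum_const]
    apply sum_le_sum
    intro b _
    rw [sum_sigma]
    have h1 : ((n : ℝ) ^ I * n) ≤ (Nice pos s sp (τ b) L).card * n +
        I * (n ^ I * ((R + I) * (2 * L + 1))) := by
      exact_mod_cast card_Nice hn s sp (τ b) L I hI
    calc _ ≤ (Nice pos s sp (τ b) L).card * ((TP pos univ).card / (n : ℝ) ^ I) := by
          rw [← mul_div_assoc, mul_div_right_comm ((Nice pos s sp (τ b) L).card : ℝ)]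
          apply mul_le_mul_of_nonneg_right _ (by positivity)
          rw [le_div_iff₀ (by positivity), one_sub_div hnR.ne', div_mul_eq_mul_div,
            div_le_iff₀ hnR]
          linarith
      _ ≤ _ := by
          rw [← nsmul_eq_mul, ← sum_const]
          apply sum_le_sum
          intro γ hγ
          have h2 : (0 : ℝ) < (Good pos s sp b (τ b) r₀ g₀ γ).card := by
            exact_mod_cast hGpos b γ hγ
          calc _ = ∑ _c ∈ Good pos s sp b (τ b) r₀ g₀ γ, (n : ℝ) ^ (2 * (E' + 1 + 1)) /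
                (Good pos s sp b (τ b) r₀ g₀ γ).card * ((TP pos univ).card / n ^ K) := by
                rw [sum_const, nsmul_eq_mul, show K = I + 2 * (E' + 1 + 1) by omega, pow_add]
                field_simp
            _ ≤ _ := by
                apply sum_le_sum
                intro c hc
                apply mul_le_mul_of_nonneg_left _ (by positivity)
                rw [div_le_iff₀ (by positivity), mul_comm]
                exact_mod_cast first_moment hn hs hK' (Good_val hsp0 (hτ b) hγ hc) hn0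
  · intro i hi m hm
    simp only [mem_sigma, mem_univ, true_and, Good, mem_GoodP] at hi
    rw [mem_Ext] at hm ⊢
    exact ⟨hm.1, hi.2.2.2.2 m hm.1 hm.2⟩
  · rintro ⟨b, γ, c⟩ hi
    simp only [mem_sigma, mem_univ, true_and] at hi
    have hv := Good_val hsp0 (hτ b) hi.1 hi.2
    have hinter : ∀ P P' : (V → V) → Prop, Ext pos P ∩ Ext pos P' =
        Ext pos (fun m => P m ∧ P' m) := by
      intro P P'; ext m; simp only [mem_inter, mem_Ext]; tauto
    have hAc : (univ.image (loc s (tl sp γ c.1))).card ≤ 2 * K := by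
      rw [← card_End hK']; exact card_image_le
    simp only [hinter]
    rw [sum_sigma]
    calc _ ≤ ∑ b' : Bits R T, (α + β * δ + if ¬ ∀ i, b i ≠ b' i then β else 0) *
          (Ext pos (Rl s (tl sp γ c.1) (PP b c.2))).card := by
          apply sum_le_sum
          intro b' _
          by_cases hd : ∀ i, b i ≠ b' i
          · rw [if_neg (not_not.mpr hd), add_zero, hα]
            refine plant_bound hn hs hsp0 hK' hnK (Rl_Loc pos s _ _) hAc (hτ b') L hβ0 hδ0
              (hGβ b') ?_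
            intro p S h1 h2 h3
            rw [hδ, div_mul_eq_mul_div, le_div_iff₀ (by positivity), ← hcast, mul_assoc]
            exact_mod_cast touched_total hn hs hK' hnK hv hd S _ h1 h2 h3
          · rw [if_pos hd, hα]
            refine le_trans (plant_bound hn hs hsp0 hK' hnK (Rl_Loc pos s _ _) hAc (hτ b') L hβ0
              zero_le_one (hGβ b') ?_) ?_
            · intro p S h1 h2 _
              rw [one_mul]
              exact_mod_cast crude _ S _ h1 h2
            · apply mul_le_mul_of_nonneg_right _ (by positivity)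
              have := mul_nonneg hβ0 hδ0
              linarith
      _ ≤ _ := by
          rw [← sum_mul]
          apply mul_le_mul_of_nonneg_right _ (by positivity)
          rw [sum_add_distrib, sum_const, ← sum_filter, sum_const, nsmul_eq_mul, nsmul_eq_mul,
            card_univ, ← hB, mul_add B (α + β * δ)]
          apply add_le_add_right
          rw [mul_left_comm, mul_comm β]
          apply mul_le_mul_of_nonneg_right _ hβ0
          rw [← mul_div_assoc, le_div_iff₀ (by positivity), mul_comm B, hB]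
          exact_mod_cast card_agree b

end Pool.Agent.MP_755159_pr

end

section

/-! Choice of the parameters. -/

set_option linter.unusedSectionVars false

namespace Pool.Agent.MP_755159_pr

open Finset

lemma pow_bd (a : ℕ) (ha : 200 ≤ a) (c i j : ℕ) (hc : c ≤ 200) (h : i < j) : c * a ^ i ≤ a ^ j :=
  calc c * a ^ i ≤ a * a ^ i := Nat.mul_le_mul_right _ (hc.trans ha)
    _ = a ^ (i + 1) := by ring
    _ ≤ a ^ j := Nat.pow_le_pow_right (by omega) h

lemma alpha_bd {n x : ℝ} (N : ℕ) (hx : 0 ≤ x) (hn : 0 < n) {a : ℝ} (ha : 2 ≤ a) (hN : 1 ≤ N)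
    (h : 2 * a * N * x ≤ n) : (n / (n - x)) ^ N ≤ 1 + 1 / a := by
  have hN' : (1 : ℝ) ≤ N := by exact_mod_cast hN
  have h0 : x ≤ N * x := le_mul_of_one_le_left hx hN'
  have h1 : 4 * (N * x) ≤ n := by nlinarith [mul_nonneg (zero_le_one.trans hN') hx]
  have h2 : 0 < n - x := by nlinarith [mul_nonneg (zero_le_one.trans hN') hx]
  have h3 := one_add_mul_le_pow (a := -(x / n)) (by
    have : x / n ≤ 1 := by rw [div_le_one hn]; linarith
    linarith) N
  have h4 : 1 + -(x / n) = (n - x) / n := by field_simp; ring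
  rw [h4] at h3
  have h5 : 0 < 1 + N * -(x / n) := by
    have : N * (x / n) ≤ 1 / 4 := by rw [← mul_div_assoc, div_le_iff₀ hn]; linarith
    linarith
  rw [← inv_div, inv_pow]
  refine (inv_anti₀ h5 h3).trans ?_
  rw [inv_le_iff_one_le_mul₀ h5]
  have h6 : N * (x / n) ≤ 1 / (2 * a) := by
    rw [← mul_div_assoc, div_le_div_iff₀ hn (by positivity)]; linarith
  have h7 : (1 + 1 / a) * (1 - 1 / (2 * a)) ≥ 1 := by
    have : (1 + 1 / a) * (1 - 1 / (2 * a)) - 1 = (a - 1) / (2 * a ^ 2) := by field_simp; ring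
    have : 0 ≤ (a - 1) / (2 * a ^ 2) := div_nonneg (by linarith) (by positivity)
    linarith
  have h8 : (0 : ℝ) ≤ 1 + 1 / a := by positivity
  have := mul_le_mul_of_nonneg_left (show 1 - 1 / (2 * a) ≤ 1 + N * -(x / n) by linarith) h8
  linarith

lemma beta_bd {a n n₂ K : ℕ} (p1 : a ≤ a ^ 15) (q6 : n ≤ 2 * n₂ * a ^ 17) (h : 10 * K ≤ n₂) :
    2 * (n : ℝ) ^ (a + 1) * ((a ^ 15 + a : ℕ) : ℝ) ^ 3 ≤
      (64 * a ^ 62 * n ^ a) * (n₂ - 5 * K) := by
  have e1 : ((a ^ 15 + a : ℕ) : ℝ) ≤ 2 * a ^ 15 := by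
    exact_mod_cast (show a ^ 15 + a ≤ 2 * a ^ 15 by omega)
  have e2 : (n : ℝ) ≤ 2 * n₂ * a ^ 17 := by exact_mod_cast q6
  have e3 : (n₂ : ℝ) ≤ 2 * (n₂ - 5 * K) := by
    have : ((10 * K : ℕ) : ℝ) ≤ n₂ := by exact_mod_cast h
    push_cast at this
    linarith
  calc _ ≤ 2 * (n : ℝ) ^ (a + 1) * (2 * a ^ 15) ^ 3 := by gcongr
    _ = 16 * a ^ 45 * n ^ a * n := by ring
    _ ≤ 16 * a ^ 45 * n ^ a * (2 * (2 * (n₂ - 5 * K)) * a ^ 17) := by
      apply mul_le_mul_of_nonneg_left _ (by positivity)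
      refine e2.trans (mul_le_mul_of_nonneg_right (by linarith) (by positivity))
    _ = _ := by ring

lemma eps1_bd {a n n₁ : ℕ} (ha : 200 ≤ a) (hn : 0 < n) (hn1 : 0 < n₁) (q1 : n₁ * a ^ 10 ≤ n) :
    (((4 * a ^ 4 : ℕ) : ℝ) * ((a + (4 * a ^ 4 : ℕ)) * (2 * (4 * n₁ : ℕ) + 1))) / n ≤ 1 / a := by
  have nR : (0 : ℝ) < n := by exact_mod_cast hn
  have aR0 : (0 : ℝ) < a := by exact_mod_cast (show 0 < a by omega)
  have p3 := pow_bd a ha 1 1 4 (by omega) (by omega)
  rw [pow_one] at p3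
  rw [div_le_div_iff₀ nR aR0, one_mul]
  have : 4 * a ^ 4 * ((a + 4 * a ^ 4) * (2 * (4 * n₁) + 1)) * a ≤ n := by
    calc _ ≤ 4 * a ^ 4 * ((5 * a ^ 4) * (9 * n₁)) * a :=
        Nat.mul_le_mul_right _ (Nat.mul_le_mul_left _ (Nat.mul_le_mul (by omega) (by omega)))
      _ = n₁ * (180 * a ^ 9) := by ring
      _ ≤ n₁ * a ^ 10 := Nat.mul_le_mul_left _ (pow_bd a ha 180 9 10 (by omega) (by omega))
      _ ≤ n := q1
  exact_mod_cast this

lemma alpha_bd' {a n K : ℕ} (ha : 200 ≤ a) (h1 : a ^ 100 ≤ n) (hK5 : K ≤ 5 * a ^ 15) (N : ℕ)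
    (hN : 1 ≤ N) (hN' : N ≤ 4 * a ^ 15) : ((n : ℝ) / (n - 10 * K)) ^ N ≤ 1 + 1 / a := by
  have nR : (0 : ℝ) < n := by
    exact_mod_cast lt_of_lt_of_le (pow_pos (show 0 < a by omega) 100) h1
  have aR : (200 : ℝ) ≤ a := by exact_mod_cast ha
  apply alpha_bd N (by positivity) nR (by linarith) hN
  have : 2 * a * N * (10 * K) ≤ n := by
    calc _ ≤ 2 * a * (4 * a ^ 15) * (10 * (5 * a ^ 15)) :=
        Nat.mul_le_mul (Nat.mul_le_mul_left _ hN') (Nat.mul_le_mul_left _ hK5)
      _ = 20 * (20 * a ^ 31) := by ring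
      _ ≤ 20 * a ^ 32 := Nat.mul_le_mul_left _ (pow_bd a ha 20 31 32 (by omega) (by omega))
      _ ≤ a ^ 100 := pow_bd a ha 20 32 100 (by omega) (by omega)
      _ ≤ n := h1
  exact_mod_cast this

lemma eps3_bd {a n K : ℕ} (ha : 200 ≤ a) (h1 : a ^ 100 ≤ n) (hK5 : K ≤ 5 * a ^ 15)
    (hnK : 10 * K < n) :
    (64 * a ^ 62 * n ^ a : ℝ) * (2 * K * (2 * K) / (n - 10 * K) ^ (a + 1)) ≤ 1 / a := by
  have nR : (0 : ℝ) < n := by exact_mod_cast (show 0 < n by omega)
  have aR : (200 : ℝ) ≤ a := by exact_mod_cast ha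
  have aR0 : (0 : ℝ) < a := by linarith
  have KR : (K : ℝ) ≤ 5 * a ^ 15 := by exact_mod_cast hK5
  have hpos : (0 : ℝ) < n - 10 * K := by
    have : ((10 * K : ℕ) : ℝ) < n := by exact_mod_cast hnK
    push_cast at this
    linarith
  have p1 := pow_bd a ha 2 1 15 (by omega) (by omega)
  rw [pow_one] at p1
  have f1 := alpha_bd' ha h1 hK5 (a + 1) (by omega) (by omega)
  have f2 : (1 : ℝ) / a ≤ 1 := by rw [div_le_one aR0]; linarith
  have f3 : (12800 * a ^ 93 : ℝ) ≤ n := by
    have : 12800 * a ^ 93 ≤ n := by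
      calc _ = 128 * (100 * a ^ 93) := by ring
        _ ≤ 128 * a ^ 94 := Nat.mul_le_mul_left _ (pow_bd a ha 100 93 94 (by omega) (by omega))
        _ ≤ a ^ 100 := pow_bd a ha 128 94 100 (by omega) (by omega)
        _ ≤ n := h1
    exact_mod_cast this
  calc _ = (256 * a ^ 62 * (K * K) / n) * ((n : ℝ) / (n - 10 * K)) ^ (a + 1) := by
        rw [div_pow]; field_simp; ring
    _ ≤ (256 * a ^ 62 * ((5 * a ^ 15) * (5 * a ^ 15)) / n) * 2 := by
        apply mul_le_mul _ (by linarith) (by positivity) (by positivity)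
        apply div_le_div_of_nonneg_right _ nR.le
        apply mul_le_mul_of_nonneg_left _ (by positivity)
        exact mul_le_mul KR KR (by positivity) (by positivity)
    _ = 12800 * a ^ 93 / n * (1 / a) := by field_simp; ring
    _ ≤ 1 * (1 / a) := by
        apply mul_le_mul_of_nonneg_right _ (by positivity)
        rwa [div_le_one nR]
    _ = _ := one_mul _

lemma eps4_bd {a n : ℕ} (ha : 200 ≤ a) (h1 : a ^ 100 ≤ n) (h2 : n < (a + 1) ^ 100) :
    (64 * a ^ 62 * n ^ a : ℝ) * (2 * a / 2 ^ (2 * a ^ 3)) ≤ 1 / a := by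
  have aR0 : (0 : ℝ) < a := by exact_mod_cast (show 0 < a by omega)
  rw [← mul_div_assoc, div_le_div_iff₀ (by positivity) aR0, one_mul]
  have : 64 * a ^ 62 * n ^ a * (2 * a) * a ≤ 2 ^ (2 * a ^ 3) := by
    have f1 : n ≤ 2 ^ (a * 100) := by
      rw [pow_mul]
      exact h2.le.trans (Nat.pow_le_pow_left Nat.lt_two_pow_self _)
    calc _ = (128 * a ^ 64) * n ^ a := by ring
      _ ≤ n * n ^ a := Nat.mul_le_mul_right _
        ((pow_bd a ha 128 64 100 (by omega) (by omega)).trans h1)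
      _ = n ^ (a + 1) := by ring
      _ ≤ (2 ^ (a * 100)) ^ (a + 1) := Nat.pow_le_pow_left f1 _
      _ = 2 ^ (a * 100 * (a + 1)) := by rw [← pow_mul]
      _ ≤ _ := Nat.pow_le_pow_right (by omega) (by
        have := pow_bd a ha 200 2 3 (by omega) (by omega)
        calc a * 100 * (a + 1) ≤ a * 100 * (2 * a) := Nat.mul_le_mul_left _ (by omega)
          _ = 200 * a ^ 2 := by ring
          _ ≤ _ := by omega)
  exact_mod_cast this

lemma final_bd {H H' P F u e1 e2 e3 e4 : ℝ} (hH : 0 ≤ H) (hH' : 0 ≤ H') (hu : 0 ≤ u)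
    (h : H + H' = P) (hF : P ≤ F) (h1 : e1 ≤ u) (h2 : e2 ≤ 1 + u) (h3 : e3 ≤ u) (h4 : e4 ≤ u)
    (key : (1 - e1) * P ≤ (e2 + e3 + e4) * H) : H' ≤ 4 * u * F := by
  have hP : 0 ≤ P := by linarith
  have k1 := mul_le_mul_of_nonneg_right (show 1 - u ≤ 1 - e1 by linarith) hP
  have k2 := mul_le_mul_of_nonneg_right (show e2 + e3 + e4 ≤ 1 + 3 * u by linarith) hH
  have k3 := mul_le_mul_of_nonneg_left (show H ≤ P by linarith) hu
  have k4 := mul_le_mul_of_nonneg_left hF hu
  nlinarith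

lemma nat_facts {n a : ℕ} (ha : 200 ≤ a) (h1 : a ^ 100 ≤ n) : ∃ K n₁ n₂ : ℕ,
    K = a + 4 * a ^ 4 + (2 * a ^ 15 + a) ∧ K ≤ 5 * a ^ 15 ∧ n₁ * a ^ 10 ≤ n ∧ 0 < n₁ ∧ n₂ ≤ n₁ ∧
    10 * K ≤ n₂ ∧ 10 * K < n ∧ n ≤ 2 * n₂ * a ^ 17 ∧
    4 * (2 * a ^ 15 + a) * (4 * n₂ + 5 * K) ≤ n ∧
    4 * (4 * a ^ 4) * n ≤ (2 * a ^ 15 + a) * n₁ := by
  obtain ⟨K, hK⟩ : ∃ K, K = a + 4 * a ^ 4 + (2 * a ^ 15 + a) := ⟨_, rfl⟩
  obtain ⟨n₁, hn₁⟩ : ∃ n₁, n₁ = n / a ^ 10 := ⟨_, rfl⟩
  obtain ⟨n₂, hn₂⟩ : ∃ n₂, n₂ = n / a ^ 17 := ⟨_, rfl⟩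
  have p1 := pow_bd a ha 1 1 15 (by omega) (by omega)
  have p2 := pow_bd a ha 4 4 15 (by omega) (by omega)
  rw [pow_one] at p1
  have hK5 : K ≤ 5 * a ^ 15 := by omega
  have q1 : n₁ * a ^ 10 ≤ n := hn₁ ▸ Nat.div_mul_le_self _ _
  have q2 : n₂ * a ^ 17 ≤ n := hn₂ ▸ Nat.div_mul_le_self _ _
  have ha0 : 0 < a := by omega
  have q3 : a ^ 90 ≤ n₁ := by
    rw [hn₁, Nat.le_div_iff_mul_le (by positivity), ← pow_add]; exact h1
  have q4 : a ^ 83 ≤ n₂ := by
    rw [hn₂, Nat.le_div_iff_mul_le (by positivity), ← pow_add]; exact h1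
  have p5 := pow_bd a ha 1 0 90 (by omega) (by omega)
  have p6 := pow_bd a ha 50 15 83 (by omega) (by omega)
  have p7 := pow_bd a ha 51 15 100 (by omega) (by omega)
  rw [pow_zero] at p5
  have q5 : n ≤ 2 * n₁ * a ^ 10 := by
    have := Nat.lt_div_mul_add (a := n) (b := a ^ 10) (by positivity)
    rw [← hn₁] at this
    have : 1 * a ^ 10 ≤ n₁ * a ^ 10 := Nat.mul_le_mul_right _ (by omega)
    rw [mul_assoc]
    omega
  have q6 : n ≤ 2 * n₂ * a ^ 17 := by
    have := Nat.lt_div_mul_add (a := n) (b := a ^ 17) (by positivity)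
    rw [← hn₂] at this
    have : 1 * a ^ 17 ≤ n₂ * a ^ 17 := Nat.mul_le_mul_right _ (by omega)
    rw [mul_assoc]
    omega
  have q7 : n₂ ≤ n₁ := by
    rw [hn₁, hn₂]
    exact Nat.div_le_div_left (Nat.pow_le_pow_right ha0 (by omega)) (by positivity)
  refine ⟨K, n₁, n₂, hK, hK5, q1, by omega, q7, by omega, by omega, q6, ?_, ?_⟩
  · calc _ ≤ 4 * (3 * a ^ 15) * (5 * n₂) := Nat.mul_le_mul (by omega) (by omega)
      _ = n₂ * (60 * a ^ 15) := by ring
      _ ≤ n₂ * a ^ 17 := Nat.mul_le_mul_left _ (pow_bd a ha 60 15 17 (by omega) (by omega))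
      _ ≤ n := q2
  · calc _ ≤ 4 * (4 * a ^ 4) * (2 * n₁ * a ^ 10) := Nat.mul_le_mul_left _ q5
      _ = (32 * a ^ 14) * n₁ := by ring
      _ ≤ _ := Nat.mul_le_mul_right _ (by
        have := pow_bd a ha 32 14 15 (by omega) (by omega); omega)

theorem few_bad {V : Type} [Fintype V] [DecidableEq V] {pos : V → Fin 4} {n a : ℕ}
    (hn : ∀ q, cnt pos univ q = n) {s : Equiv.Perm V} (hs : ∀ v, pos (s v) = pos v + 1)
    {sp : Fin a → V} (hsp0 : ∀ r, pos (sp r) = 0) (hspi : Function.Injective sp)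
    (hsp : ∀ W : Finset V, W.Nonempty → (∀ v ∈ W, s v ∈ W) → ∃ r, sp r ∈ W)
    (ha : 200 ≤ a) (h1 : a ^ 100 ≤ n) (h2 : n < (a + 1) ^ 100) :
    ((Ext pos (fun m => ¬ (Gr s m).IsHamiltonian)).card : ℝ) ≤
      4 * (1 / a) * (n.factorial * n.factorial) := by
  obtain ⟨K, n₁, n₂, hK, hK5, q1, q2, q3, q4, q5, q6, c1, c2⟩ := nat_facts ha h1
  have p1 := pow_bd a ha 1 1 15 (by omega) (by omega)
  have p4 := pow_bd a ha 1 0 3 (by omega) (by omega)
  rw [pow_one] at p1
  rw [pow_zero] at p4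
  have hT : 2 * a ^ 3 - 1 + 1 = 2 * a ^ 3 := Nat.sub_add_cancel (by omega)
  have key := main_det hn hs hsp0 hspi hsp (2 * a ^ 3 - 1) (2 * a ^ 15 + a) (a ^ 15 + a)
    (by rw [hT]; exact even_two_mul _) (by ring) (by omega) (by omega)
    (L := 4 * n₁) (n₁ := n₁) (n₂ := n₂) (I := 4 * a ^ 4) (K := K)
    (by rw [hT]; ring) hK (by omega) le_rfl (by omega) q2
    q5 c1 c2 (by omega) (beta_bd (by omega) q6 q4)
  rw [hT] at key
  have hsplit : (Ext pos (fun m => (Gr s m).IsHamiltonian)).card +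
      (Ext pos (fun m => ¬ (Gr s m).IsHamiltonian)).card = (TP pos univ).card := by
    classical
    rw [← card_filter_add_card_filter_not (s := TP pos univ) (fun m => (Gr s m).IsHamiltonian)]
    congr 2
    ext m
    simp only [mem_Ext, mem_filter, mem_TP]
  have hTP := card_TP_le pos _ univ rfl
  rw [hn, hn] at hTP
  exact final_bd (Nat.cast_nonneg _) (Nat.cast_nonneg _) (by positivity)
    (by exact_mod_cast hsplit) (by exact_mod_cast hTP) (eps1_bd ha (by omega) q2 q1)
    (alpha_bd' ha h1 hK5 _ (by omega) (by omega)) (eps3_bd ha h1 hK5 q5) (eps4_bd ha h1 h2) key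

end Pool.Agent.MP_755159_pr

end

section

/-! Permutations with many cycles are rare; transfer to random lifts of the complete graph on four
vertices. -/

set_option linter.unusedSectionVars false

namespace Pool.Agent.MP_755159_pr

open Finset Filter Topology

/-- a small set meets every cycle -/
def HasHit {n : ℕ} (a : ℕ) (φ : Equiv.Perm (Fin n)) : Prop :=
  ∃ S : Finset (Fin n), S.card ≤ a ∧
    ∀ W : Finset (Fin n), W.Nonempty → (∀ x ∈ W, φ x ∈ W) → ∃ x ∈ S, x ∈ W

lemma sum_inv (n : ℕ) : ∑ φ : Equiv.Perm (Fin n),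
    (univ.filter (fun f : Fin n → Bool => f ∘ φ = f)).card = (n + 1) * n.factorial := by
  have h1 : ∑ φ : Equiv.Perm (Fin n), (univ.filter (fun f : Fin n → Bool => f ∘ φ = f)).card =
      ∑ f : Fin n → Bool, (univ.filter (fun φ : Equiv.Perm (Fin n) => f ∘ φ = f)).card := by
    simp only [card_filter]
    exact sum_comm
  have h2 : ∀ f : Fin n → Bool, (univ.filter (fun φ : Equiv.Perm (Fin n) => f ∘ φ = f)).card =
      (univ.filter (fun x => f x = true)).card.factorial *
        (n - (univ.filter (fun x => f x = true)).card).factorial := by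
    intro f
    rw [← Fintype.card_subtype, DomMulAct.stabilizer_card f, Fintype.prod_bool,
      Fintype.card_subtype, Fintype.card_subtype]
    congr 2
    have := card_filter_add_card_filter_not (s := (univ : Finset (Fin n))) (fun x => f x = true)
    simp only [Bool.not_eq_true, card_univ, Fintype.card_fin] at this
    omega
  rw [h1, sum_congr rfl (fun f _ => h2 f)]
  have h3 : ∑ f : Fin n → Bool, (univ.filter (fun x => f x = true)).card.factorial *
        (n - (univ.filter (fun x => f x = true)).card).factorial =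
      ∑ S ∈ (univ : Finset (Fin n)).powerset, S.card.factorial * (n - S.card).factorial := by
    apply sum_bij (fun f _ => univ.filter (fun x => f x = true))
    · intro f _; simp
    · intro f _ g _ h
      funext x
      have := congrArg (fun S => x ∈ S) h
      simpa using this
    · intro S _
      exact ⟨fun x => decide (x ∈ S), mem_univ _, by ext x; simp⟩
    · intro f _; rfl
  rw [h3, sum_powerset_apply_card (fun j => j.factorial * (n - j).factorial), card_univ,
    Fintype.card_fin, sum_congr rfl (g := fun _ => n.factorial)]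
  · simp
  · intro j hj
    rw [smul_eq_mul, ← mul_assoc]
    exact Nat.choose_mul_factorial_mul_factorial (Nat.lt_succ_iff.mp (mem_range.mp hj))

open Classical in
lemma card_noHit (n a : ℕ) :
    (univ.filter (fun φ : Equiv.Perm (Fin n) => ¬ HasHit a φ)).card * 2 ^ a ≤
      (n + 1) * n.factorial := by
  rw [← sum_inv, ← smul_eq_mul, ← sum_const]
  refine le_trans (sum_le_sum ?_) (sum_le_sum_of_subset (subset_univ _))
  intro φ hφ
  have hφ := (mem_filter.mp hφ).2
  have hq : a ≤ Fintype.card (Quotient (Equiv.Perm.SameCycle.setoid φ)) := by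
    by_contra hc
    apply hφ
    refine ⟨univ.image (fun q : Quotient (Equiv.Perm.SameCycle.setoid φ) => q.out),
      card_image_le.trans (not_le.mp hc).le, ?_⟩
    rintro W ⟨x, hx⟩ hW
    refine ⟨(Quotient.mk (Equiv.Perm.SameCycle.setoid φ) x).out, mem_image_of_mem _ (mem_univ _),
      ?_⟩
    have h : φ.SameCycle x (Quotient.mk (Equiv.Perm.SameCycle.setoid φ) x).out :=
      (Quotient.mk_out (s := Equiv.Perm.SameCycle.setoid φ) x).symm
    obtain ⟨i, -, hi⟩ := h.exists_pow_eq'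
    rw [← hi]
    clear hi
    induction i with
    | zero => exact hx
    | succ i ih => rw [pow_succ', Equiv.Perm.mul_apply]; exact hW _ ih
  refine (Nat.pow_le_pow_right (by omega) hq).trans ?_
  rw [← Fintype.card_bool, ← Fintype.card_fun, ← card_univ]
  apply card_le_card_of_injOn (fun h x => h (Quotient.mk (Equiv.Perm.SameCycle.setoid φ) x))
  · intro h _
    simp only [coe_filter, mem_univ, true_and, Set.mem_ofPred_eq]
    funext x
    simp only [Function.comp]
    congr 1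
    exact Quotient.sound (Equiv.Perm.sameCycle_apply_left.mpr (Equiv.Perm.SameCycle.refl φ x))
  · intro h _ h' _ e
    funext q
    induction q using Quotient.inductionOn with
    | h x => exact congrFun e x

/-- edges of the base graph -/
abbrev Ed := {p : Fin 4 × Fin 4 // p.1 < p.2}

/-- the edge 01 -/
def e01 : Ed := ⟨(0, 1), by decide⟩
/-- the edge 02 -/
def e02 : Ed := ⟨(0, 2), by decide⟩
/-- the edge 03 -/
def e03 : Ed := ⟨(0, 3), by decide⟩
/-- the edge 12 -/
def e12 : Ed := ⟨(1, 2), by decide⟩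
/-- the edge 13 -/
def e13 : Ed := ⟨(1, 3), by decide⟩
/-- the edge 23 -/
def e23 : Ed := ⟨(2, 3), by decide⟩

variable {n : ℕ}

/-- the lift of the 4-cycle -/
def sOf (σ : Ed → Equiv.Perm (Fin n)) : Equiv.Perm (Fin 4 × Fin n) :=
  (Equiv.prodCongrRight ![σ e01, σ e12, σ e23, (σ e03)⁻¹]).trans
    (Equiv.prodCongr (Equiv.addRight 1) (Equiv.refl _))

lemma sOf_apply (σ : Ed → Equiv.Perm (Fin n)) (q : Fin 4) (x : Fin n) :
    sOf σ (q, x) = (q + 1, ![σ e01, σ e12, σ e23, (σ e03)⁻¹] q x) := rfl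

/-- the lift of the perfect matching -/
def mOf (u : Equiv.Perm (Fin n) × Equiv.Perm (Fin n)) (v : Fin 4 × Fin n) : Fin 4 × Fin n :=
  (v.1 + 2, ![u.1, u.2, u.1⁻¹, u.2⁻¹] v.1 v.2)

/-- the lift -/
def Lf (σ : Ed → Equiv.Perm (Fin n)) : SimpleGraph (Fin 4 × Fin n) :=
  SimpleGraph.fromRel (fun u v => ∃ h : u.1 < v.1, σ ⟨(u.1, v.1), h⟩ u.2 = v.2)

lemma Gr_le (σ : Ed → Equiv.Perm (Fin n)) : Gr (sOf σ) (mOf (σ e02, σ e13)) ≤ Lf σ := by
  have key : ∀ u v : Fin 4 × Fin n, v = sOf σ u ∨ v = mOf (σ e02, σ e13) u →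
      (∃ h : u.1 < v.1, σ ⟨(u.1, v.1), h⟩ u.2 = v.2) ∨
      (∃ h : v.1 < u.1, σ ⟨(v.1, u.1), h⟩ v.2 = u.2) := by
    rintro ⟨q, x⟩ v (rfl | rfl) <;> fin_cases q
    · exact Or.inl ⟨e01.2, rfl⟩
    · exact Or.inl ⟨e12.2, rfl⟩
    · exact Or.inl ⟨e23.2, rfl⟩
    · exact Or.inr ⟨e03.2, (σ e03).apply_symm_apply x⟩
    · exact Or.inl ⟨e02.2, rfl⟩
    · exact Or.inl ⟨e13.2, rfl⟩
    · exact Or.inr ⟨e02.2, (σ e02).apply_symm_apply x⟩
    · exact Or.inr ⟨e13.2, (σ e13).apply_symm_apply x⟩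
  intro u v h
  rw [Gr, SimpleGraph.fromRel_adj] at h
  rw [Lf, SimpleGraph.fromRel_adj]
  refine ⟨h.1, ?_⟩
  rcases h.2 with h | h
  · exact key u v h
  · exact (key v u h).symm

lemma mOf_isTP (u : Equiv.Perm (Fin n) × Equiv.Perm (Fin n)) : IsTP Prod.fst univ (mOf u) := by
  refine ⟨by simp, ?_⟩
  rintro ⟨q, x⟩ _
  refine ⟨mem_univ _, ?_, rfl⟩
  fin_cases q <;> simp [mOf]

lemma mOf_inj : Function.Injective (mOf (n := n)) := by
  intro u v h
  refine Prod.ext (Equiv.ext fun x => ?_) (Equiv.ext fun x => ?_)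
  · exact congrArg Prod.snd (congrFun h (0, x))
  · exact congrArg Prod.snd (congrFun h (1, x))

/-- the monodromy of the 4-cycle -/
def phi (σ : Ed → Equiv.Perm (Fin n)) : Equiv.Perm (Fin n) := (σ e03)⁻¹ * σ e23 * σ e12 * σ e01

lemma exists_sp {a : ℕ} (ha : a ≤ n) {σ : Ed → Equiv.Perm (Fin n)} (h : HasHit a (phi σ)) :
    ∃ sp : Fin a → Fin 4 × Fin n, (∀ r, (sp r).1 = 0) ∧ Function.Injective sp ∧
      ∀ W : Finset (Fin 4 × Fin n), W.Nonempty → (∀ v ∈ W, sOf σ v ∈ W) → ∃ r, sp r ∈ W := by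
  obtain ⟨S, hS, hW⟩ := h
  obtain ⟨S', hsub, hc⟩ := exists_superset_card_eq hS (by simpa using ha)
  refine ⟨fun r => (0, S'.orderEmbOfFin hc r), fun _ => rfl, fun r r' e =>
    (S'.orderEmbOfFin hc).injective (congrArg Prod.snd e), ?_⟩
  rintro W ⟨⟨q, x⟩, hv⟩ hcl
  have s0 : ∀ x, (0, x) ∈ W → (1, σ e01 x) ∈ W := fun x h => hcl _ h
  have s1 : ∀ x, (1, x) ∈ W → (2, σ e12 x) ∈ W := fun x h => hcl _ h
  have s2 : ∀ x, (2, x) ∈ W → (3, σ e23 x) ∈ W := fun x h => hcl _ h
  have s3 : ∀ x, (3, x) ∈ W → (0, (σ e03)⁻¹ x) ∈ W := fun x h => by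
    have := hcl _ h
    rwa [sOf_apply, show (3 : Fin 4) + 1 = 0 from rfl] at this
  obtain ⟨y, hy, hy'⟩ := hW (univ.filter (fun y => (0, y) ∈ W)) (by
      fin_cases q
      · exact ⟨_, mem_filter.mpr ⟨mem_univ _, hv⟩⟩
      · exact ⟨_, mem_filter.mpr ⟨mem_univ _, s3 _ (s2 _ (s1 _ hv))⟩⟩
      · exact ⟨_, mem_filter.mpr ⟨mem_univ _, s3 _ (s2 _ hv)⟩⟩
      · exact ⟨_, mem_filter.mpr ⟨mem_univ _, s3 _ hv⟩⟩) (by
      intro y hy
      rw [mem_filter] at hy ⊢
      exact ⟨mem_univ _, s3 _ (s2 _ (s1 _ (s0 _ hy.2)))⟩)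
  have : y ∈ Set.range (S'.orderEmbOfFin hc) := by
    rw [range_orderEmbOfFin]; exact hsub hy
  obtain ⟨r, rfl⟩ := this
  exact ⟨r, (mem_filter.mp hy').2⟩

open Classical in
lemma bad1_le (a : ℕ) :
    (univ.filter (fun σ : Ed → Equiv.Perm (Fin n) => ¬ HasHit a (phi σ))).card * n.factorial ≤
      Fintype.card (Ed → Equiv.Perm (Fin n)) *
        (univ.filter (fun φ : Equiv.Perm (Fin n) => ¬ HasHit a φ)).card := by
  have b1 := resample_pi (fun _ : Ed => (univ : Finset (Equiv.Perm (Fin n)))) e01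
    (univ.filter (fun σ => ¬ HasHit a (phi σ))) (by simp)
    (univ.filter (fun φ : Equiv.Perm (Fin n) => ¬ HasHit a φ)).card (by
      intro σ _
      apply card_le_card_of_injOn (fun x => (σ e03)⁻¹ * σ e23 * σ e12 * x)
      · intro x hx
        simp only [coe_filter, mem_filter, mem_univ, true_and, Set.mem_ofPred_eq, phi] at hx ⊢
        rwa [Function.update_self, Function.update_of_ne (by decide),
          Function.update_of_ne (by decide), Function.update_of_ne (by decide)] at hx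
      · intro x _ y _ e
        exact mul_left_cancel e)
  simpa only [Fintype.piFinset_univ, card_univ, Fintype.card_perm, Fintype.card_fin] using b1

open Classical in
lemma bad2_le {a : ℕ} (ha : 200 ≤ a) (h1 : a ^ 100 ≤ n) (h2 : n < (a + 1) ^ 100) :
    (univ.filter (fun σ : Ed → Equiv.Perm (Fin n) =>
        HasHit a (phi σ) ∧ ¬ (Lf σ).IsHamiltonian)).card * (n.factorial * n.factorial) ≤
      Fintype.card (Ed → Equiv.Perm (Fin n)) *
        ⌊4 * (1 / a : ℝ) * (n.factorial * n.factorial)⌋₊ := by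
  have b2 := resample (univ : Finset (Ed → Equiv.Perm (Fin n))) univ (fun σ => (σ e02, σ e13))
    (fun σ u => Function.update (Function.update σ e02 u.1) e13 u.2) (by simp) (by simp)
    (by
      intro σ u
      funext e
      by_cases c1 : e = e13
      · rw [c1, Function.update_self]
      · by_cases c2 : e = e02
        · rw [Function.update_of_ne c1, c2, Function.update_self]
        · simp only [Function.update_of_ne c1, Function.update_of_ne c2])
    (by
      intro σ u
      simp only [Function.update_self]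
      rw [Function.update_of_ne (by decide), Function.update_self])
    (univ.filter (fun σ => HasHit a (phi σ) ∧ ¬ (Lf σ).IsHamiltonian)) (subset_univ _)
    ⌊4 * (1 / a : ℝ) * (n.factorial * n.factorial)⌋₊ (by
      intro σ _
      by_cases hh : HasHit a (phi σ)
      · obtain ⟨sp, s1, s2, s3⟩ := exists_sp
          ((Nat.le_self_pow (by omega) a).trans h1) hh
        apply Nat.le_floor
        refine le_trans ?_ (few_bad (pos := Prod.fst) (n := n) (s := sOf σ) ?_ (fun _ => rfl)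
          s1 s2 s3 ha h1 h2)
        · rw [Nat.cast_le]
          apply card_le_card_of_injOn mOf _ mOf_inj.injOn
          intro u hu
          simp only [coe_filter, mem_filter, mem_univ, true_and, Set.mem_ofPred_eq] at hu
          refine mem_coe.mpr (mem_Ext.mpr ⟨mOf_isTP u, fun hH => hu.2 ?_⟩)
          refine SimpleGraph.IsHamiltonian.mono ?_ hH
          convert Gr_le (Function.update (Function.update σ e02 u.1) e13 u.2) using 2
          · simp only [sOf]
            simp only [Function.update_of_ne (show e01 ≠ e13 by decide),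
              Function.update_of_ne (show e01 ≠ e02 by decide),
              Function.update_of_ne (show e12 ≠ e13 by decide),
              Function.update_of_ne (show e12 ≠ e02 by decide),
              Function.update_of_ne (show e23 ≠ e13 by decide),
              Function.update_of_ne (show e23 ≠ e02 by decide),
              Function.update_of_ne (show e03 ≠ e13 by decide),
              Function.update_of_ne (show e03 ≠ e02 by decide)]
          · rw [Function.update_self, Function.update_of_ne (by decide), Function.update_self]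
        · intro q
          rw [cnt, card_filter, Fintype.sum_prod_type]
          simp [apply_ite Finset.card]
      · rw [filter_eq_empty_iff.mpr, card_empty]
        · exact Nat.zero_le _
        · intro u _ hu
          apply hh
          have := (mem_filter.mp hu).2.1
          simp only [phi, Function.update_of_ne (show e01 ≠ e13 by decide),
              Function.update_of_ne (show e01 ≠ e02 by decide),
              Function.update_of_ne (show e12 ≠ e13 by decide),
              Function.update_of_ne (show e12 ≠ e02 by decide),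
              Function.update_of_ne (show e23 ≠ e13 by decide),
              Function.update_of_ne (show e23 ≠ e02 by decide),
              Function.update_of_ne (show e03 ≠ e13 by decide),
              Function.update_of_ne (show e03 ≠ e02 by decide)] at this
          exact this)
  simpa only [card_univ, Fintype.card_perm, Fintype.card_fin, Fintype.card_prod] using b2

lemma nonham_aux {x x1 x2 N F y : ℕ} {a u w : ℝ} (hF : 0 < F) (hu : 0 ≤ u) (hw : 0 < w)
    (b4 : x ≤ x2 + x1) (b1 : x1 * F ≤ N * y) (b2 : x2 * (F * F) ≤ N * ⌊u * (F * F)⌋₊)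
    (b3 : (y : ℝ) * w ≤ a * F) : (x : ℝ) ≤ (u + a / w) * N := by
  have hF : (0 : ℝ) < F := by exact_mod_cast hF
  rw [add_mul]
  have b4' : (x : ℝ) ≤ x2 + x1 := by exact_mod_cast b4
  refine le_trans b4' (add_le_add ?_ ?_)
  · apply le_of_mul_le_mul_right _ (mul_pos hF hF)
    have b2' : (x2 : ℝ) * (F * F) ≤ N * ⌊u * (F * F)⌋₊ := by exact_mod_cast b2
    refine le_trans b2' ?_
    rw [mul_right_comm, mul_comm]
    apply mul_le_mul_of_nonneg_right _ (by positivity)
    exact Nat.floor_le (by positivity)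
  · apply le_of_mul_le_mul_right _ hF
    have b1' : (x1 : ℝ) * F ≤ N * y := by exact_mod_cast b1
    refine le_trans b1' ?_
    rw [mul_right_comm, mul_comm]
    apply mul_le_mul_of_nonneg_right _ (by positivity)
    rwa [div_mul_eq_mul_div, le_div_iff₀ hw]

lemma filter_split {α : Type} [Fintype α] (p q : α → Prop) [DecidablePred p]
    [DecidablePred (fun x => q x ∧ p x)] [DecidablePred (fun x => ¬ q x)] :
    (univ.filter p).card ≤ (univ.filter (fun x => q x ∧ p x)).card +
      (univ.filter (fun x => ¬ q x)).card := by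
  classical
  refine le_trans (card_le_card ?_) (card_union_le _ _)
  intro σ hσ
  simp only [mem_union, mem_filter, mem_univ, true_and] at hσ ⊢
  tauto

open Classical in
theorem nonham_le {a : ℕ} (ha : 200 ≤ a) (h1 : a ^ 100 ≤ n) (h2 : n < (a + 1) ^ 100) :
    ((univ.filter (fun σ : Ed → Equiv.Perm (Fin n) => ¬ (Lf σ).IsHamiltonian)).card : ℝ) ≤
      (4 * (1 / a) + (a + 1) ^ 100 / 2 ^ a) * Fintype.card (Ed → Equiv.Perm (Fin n)) := by
  refine nonham_aux (Nat.factorial_pos n) (by positivity) (by positivity) ?_ (bad1_le a)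
    (bad2_le ha h1 h2) ?_
  · exact filter_split (fun σ => ¬ (Lf σ).IsHamiltonian) (fun σ => HasHit a (phi σ))
  · exact_mod_cast (card_noHit n a).trans (Nat.mul_le_mul_right _ h2)

theorem lift_ham : Tendsto (fun n : ℕ =>
    (({σ : Ed → Equiv.Perm (Fin n) | (Lf σ).IsHamiltonian}.ncard : ℕ) : ℝ) /
      Fintype.card (Ed → Equiv.Perm (Fin n))) atTop (𝓝 1) := by
  classical
  have hroot : Tendsto (fun n : ℕ => Nat.nthRoot 100 n) atTop atTop := by
    rw [tendsto_atTop_atTop]
    intro b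
    exact ⟨b ^ 100, fun n hn => (Nat.le_nthRoot_iff (by omega)).mpr hn⟩
  have hf : Tendsto (fun a : ℕ => 1 - (4 * (1 / (a : ℝ)) + (a + 1) ^ 100 / 2 ^ a)) atTop
      (𝓝 1) := by
    have t1 := tendsto_one_div_atTop_nhds_zero_nat (𝕜 := ℝ)
    have t2 := (tendsto_pow_const_div_const_pow_of_one_lt 100 (r := 2) (by norm_num)).comp
      (tendsto_add_atTop_nat 1)
    have t3 := (((t1.const_mul 4).add (t2.const_mul 2)).const_sub 1)
    simp only [mul_zero, add_zero, sub_zero] at t3
    refine t3.congr (fun a => ?_)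
    simp only [Function.comp]
    push_cast
    ring
  refine tendsto_of_tendsto_of_tendsto_of_le_of_le' (hf.comp hroot) tendsto_const_nhds ?_ ?_
  · filter_upwards [hroot.eventually_ge_atTop 200] with n hn
    have hc : (0 : ℝ) < Fintype.card (Ed → Equiv.Perm (Fin n)) := by
      exact_mod_cast Fintype.card_pos
    have := nonham_le hn (Nat.pow_nthRoot_le_iff.mpr (Or.inl (by omega)))
      (Nat.lt_pow_nthRoot_add_one (by omega) n)
    have h := card_filter_add_card_filter_not (s := univ)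
      (fun σ : Ed → Equiv.Perm (Fin n) => (Lf σ).IsHamiltonian)
    rw [card_univ] at h
    have h' : (((univ.filter (fun σ : Ed → Equiv.Perm (Fin n) => (Lf σ).IsHamiltonian)).card : ℝ) +
        (univ.filter (fun σ : Ed → Equiv.Perm (Fin n) => ¬ (Lf σ).IsHamiltonian)).card) =
        Fintype.card (Ed → Equiv.Perm (Fin n)) := by exact_mod_cast h
    rw [Function.comp, le_div_iff₀ hc, Set.ncard_eq_toFinset_card', Set.toFinset_ofPred, sub_mul]
    linarith
  · filter_upwards with n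
    have hc : (0 : ℝ) < Fintype.card (Ed → Equiv.Perm (Fin n)) := by
      exact_mod_cast Fintype.card_pos
    rw [div_le_one hc, Set.ncard_eq_toFinset_card', Nat.cast_le]
    exact card_le_univ _

end Pool.Agent.MP_755159_pr

end
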