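import Pool.Agent.Mg.F755159.Ge4aa6c

section

/-! Placing the cuts on the cycles of a permutation. -/

set_option linter.unusedSectionVars false

namespace Pool.Agent.MP_755159_pr

open Finset

variable {V : Type} [Fintype V] [DecidableEq V] {R T k : ℕ}

/-- location of an end -/
def loc (s : Equiv.Perm V) (t : Cut R T k → V) (e : End R T k) : V :=
  if e.2 then s (t e.1) else t e.1

/-- a step in a direction -/
def aw (s : Equiv.Perm V) (c : Bool) : Equiv.Perm V := if c then s else s⁻¹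

/-- separated cuts -/
def Sep (s : Equiv.Perm V) (t : Cut R T k → V) : Prop :=
  ∀ j j', j ≠ j' → ∀ z : ℤ, |z| ≤ 2 → (s ^ z) (t j) ≠ t j'

/-- the matching realises the pairing -/
def Rl (s : Equiv.Perm V) (t : Cut R T k → V) (P : End R T k → End R T k) (m : V → V) : Prop :=
  ∀ e, m (loc s t e) = loc s t (P e)

/-- the cubic graph -/
def Gr (s : Equiv.Perm V) (m : V → V) : SimpleGraph V :=
  SimpleGraph.fromRel (fun u v => v = s u ∨ v = m u)

lemma loc_zpow (s : Equiv.Perm V) (t : Cut R T k → V) (e : End R T k) :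
    loc s t e = (s ^ (if e.2 then 1 else 0 : ℤ)) (t e.1) := by
  unfold loc; split_ifs <;> simp

lemma aw_zpow (s : Equiv.Perm V) (c : Bool) : aw s c = s ^ (if c then 1 else -1 : ℤ) := by
  unfold aw; split_ifs <;> simp

lemma zpow_app (s : Equiv.Perm V) (a b : ℤ) (v : V) : (s ^ a) ((s ^ b) v) = (s ^ (a + b)) v := by
  rw [zpow_add, Equiv.Perm.mul_apply]

lemma zpow_eq_iff (s : Equiv.Perm V) (a b : ℤ) (v w : V) :
    (s ^ a) v = (s ^ b) w ↔ (s ^ (a - b)) v = w := by
  constructor
  · intro h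
    have := congrArg (s ^ (-b)) h
    rw [zpow_app, zpow_app, neg_add_cancel, zpow_zero, Equiv.Perm.one_apply] at this
    rwa [sub_eq_neg_add]
  · rintro rfl
    rw [zpow_app, add_sub_cancel]

section
variable {pos : V → Fin 4} {s : Equiv.Perm V} (hs : ∀ v, pos (s v) = pos v + 1)
include hs

lemma pos_inv (v : V) : pos (s⁻¹ v) = pos v + 3 := by
  have := hs (s⁻¹ v)
  rw [show s (s⁻¹ v) = v by simp] at this
  rw [this]
  generalize pos (s⁻¹ v) = q
  revert q; decide

lemma pos_aw (c : Bool) (v : V) : pos (aw s c v) = pos v + if c then 1 else 3 := by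
  cases c
  · exact pos_inv hs v
  · exact hs v

lemma pos_loc {t : Cut R T k → V} {τ : Cut R T k → Fin 4} (ht : ∀ j, pos (t j) = τ j)
    (e : End R T k) : pos (loc s t e) = tyE τ e := by
  obtain ⟨j, c⟩ := e
  cases c <;> simp [loc, tyE, dl4, hs, ht]

lemma loc_inj {t : Cut R T k → V} (h : Sep s t) : Function.Injective (loc s t) := by
  rintro ⟨j, c⟩ ⟨j', c'⟩ e
  by_cases hj : j = j'
  · subst hj
    have := congrArg pos e
    have q : ∀ q : Fin 4, q ≠ q + 1 := by decide
    cases c <;> cases c' <;> simp only [loc, Bool.false_eq_true, if_true, if_false, hs] at this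
    · rfl
    · exact absurd this (q _)
    · exact absurd this.symm (q _)
    · rfl
  · rw [loc_zpow, loc_zpow, zpow_eq_iff] at e
    refine absurd e (h j j' hj _ ?_)
    cases c <;> cases c' <;> simp

lemma away_ne {t : Cut R T k → V} (h : Sep s t) (e e' : End R T k) :
    aw s e.2 (loc s t e) ≠ loc s t e' := by
  obtain ⟨j, c⟩ := e
  obtain ⟨j', c'⟩ := e'
  intro e
  by_cases hj : j = j'
  · subst hj
    have := congrArg pos e
    rw [pos_aw hs, pos_loc hs (τ := fun j => pos (t j)) (fun _ => rfl),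
      pos_loc hs (τ := fun j => pos (t j)) (fun _ => rfl)] at this
    simp only [tyE] at this
    have key : ∀ (q : Fin 4) (c c' : Bool), (q + dl4 c + if c then 1 else 3) ≠ q + dl4 c' := by
      decide
    exact key _ _ _ this
  · rw [loc_zpow, loc_zpow, aw_zpow, zpow_app, zpow_eq_iff] at e
    refine absurd e (h j j' hj _ ?_)
    cases c <;> cases c' <;> simp

end

lemma loc_fl (s : Equiv.Perm V) (t : Cut R T k → V) (e : End R T k) :
    loc s t (fl e) = aw s (!e.2) (loc s t e) := by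
  obtain ⟨j, c⟩ := e
  cases c <;> simp [loc, fl, aw]

/-- the dart of an end -/
def dl (s : Equiv.Perm V) (t : Cut R T k → V) (e : End R T k) : V × Bool := (loc s t e, e.2)

/-- edges of the original 2-factor -/
def etaF (s : Equiv.Perm V) (d : V × Bool) : V × Bool := (aw s (!d.2) d.1, !d.2)

/-- edges after rewiring -/
noncomputable def eta (s : Equiv.Perm V) (t : Cut R T k → V) (P : End R T k → End R T k) :
    V × Bool → V × Bool := Function.extend (dl s t) (fun e => dl s t (P e)) (etaF s)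

lemma etaF_etaF (s : Equiv.Perm V) (d : V × Bool) : etaF s (etaF s d) = d := by
  obtain ⟨v, c⟩ := d
  cases c <;> simp [etaF, aw]

lemma etaF_dl (s : Equiv.Perm V) (t : Cut R T k → V) (e : End R T k) :
    etaF s (dl s t e) = dl s t (fl e) := by
  simp only [etaF, dl, loc_fl]; rfl

lemma etaF_ne (s : Equiv.Perm V) (d : V × Bool) : etaF s d ≠ d := by
  intro h
  have := congrArg Prod.snd h
  simp [etaF] at this

lemma dl_inj {s : Equiv.Perm V} {t : Cut R T k → V} (h : Function.Injective (loc s t)) :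
    Function.Injective (dl s t) := fun _ _ e => h (congrArg Prod.fst e)

lemma eta_dl {s : Equiv.Perm V} {t : Cut R T k → V} (h : Function.Injective (loc s t))
    (P : End R T k → End R T k) (e : End R T k) : eta s t P (dl s t e) = dl s t (P e) :=
  (dl_inj h).extend_apply _ _ _

lemma eta_uncut {s : Equiv.Perm V} {t : Cut R T k → V} (P : End R T k → End R T k) {d : V × Bool}
    (h : ¬ ∃ e, dl s t e = d) : eta s t P d = etaF s d := Function.extend_apply' _ _ _ h

lemma eta_eta {s : Equiv.Perm V} {t : Cut R T k → V} (h : Function.Injective (loc s t))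
    {P : End R T k → End R T k} (hP : ∀ e, P (P e) = e) (d : V × Bool) :
    eta s t P (eta s t P d) = d := by
  by_cases hd : ∃ e, dl s t e = d
  · obtain ⟨e, rfl⟩ := hd
    rw [eta_dl h, eta_dl h, hP]
  · rw [eta_uncut P hd, eta_uncut, etaF_etaF]
    rintro ⟨e, he⟩
    apply hd
    exact ⟨fl e, by rw [← etaF_dl, he, etaF_etaF]⟩

/-- the first cut met when walking away from an end -/
def First (s : Equiv.Perm V) (t : Cut R T k → V) (e e' : End R T k) : Prop :=
  ∃ i : ℕ, (aw s e.2 ^ i) (loc s t e) = loc s t e' ∧ e'.2 = !e.2 ∧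
    ∀ l < i, ∀ e'' : End R T k, e''.2 = !e.2 → (aw s e.2 ^ l) (loc s t e) ≠ loc s t e''

lemma First.mem {s : Equiv.Perm V} {t : Cut R T k → V} {e e' : End R T k} (h : First s t e e')
    (P : End R T k → End R T k) (U : Finset (V × Bool)) (h1 : ∀ d ∈ U, (d.1, !d.2) ∈ U)
    (h2 : ∀ d ∈ U, eta s t P d ∈ U) (he : dl s t e ∈ U) : dl s t e' ∈ U := by
  obtain ⟨i, a, b, c⟩ := h
  have key : ∀ l ≤ i, ((aw s e.2 ^ l) (loc s t e), !e.2) ∈ U := by
    intro l hl
    induction l with
    | zero => simpa [dl] using h1 _ he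
    | succ l ih =>
      have := h1 _ (h2 _ (ih (by omega)))
      rw [eta_uncut] at this
      · simpa [etaF, pow_succ'] using this
      · rintro ⟨e'', h⟩
        simp only [dl, Prod.mk.injEq] at h
        exact c l (by omega) e'' h.2 h.1.symm
  have := key i le_rfl
  rwa [a, ← b] at this

theorem exists_sX {pos : V → Fin 4} {s : Equiv.Perm V} (hs : ∀ v, pos (s v) = pos v + 1)
    {t : Cut R T k → V} (hsep : Sep s t)
    (hsp : ∀ W : Finset V, W.Nonempty → (∀ v ∈ W, s v ∈ W) → ∃ r, t (Sum.inl r) ∈ W)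
    (b : Bits R T) (ty : End R T k → Fin 4)
    (h1 : ∀ i t', ∃ g c, First s t (ye b i t') (gn g c))
    {x y : End R T k} (hx : x ∈ XX b) (hy : y ∈ XX b) (hxy : First s t x y) (hx' : ¬ Ev (ty x))
    (hy' : Ev (ty y)) :
    ∃ sX : End R T k → End R T k, Inv (XX b) sX ∧ (∀ e ∈ XX b, sX e ≠ e) ∧
      (∃ e ∈ XX b, Ev (ty e) ∧ ¬ Ev (ty (sX e))) ∧
      ∀ p, IsTP ty (XX b) p → Conn (XX b) sX p → ∀ U : Finset (V × Bool), U.Nonempty →
        (∀ d ∈ U, (d.1, !d.2) ∈ U) → (∀ d ∈ U, eta s t (PP b p) d ∈ U) → ∀ d, d ∈ U := by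
  have hinj := loc_inj hs hsep
  have hinv := eta_eta hinj (ch_ch b)
  obtain ⟨σ, s1, s2, s3⟩ := exists_sigma (eta s t (ch b)) _ univ (fun d : V × Bool => (d.1, !d.2))
    rfl (by intro d _; simp) (by intro d _ h; simpa using congrArg Prod.snd h)
    (fun d _ => ⟨mem_univ _, hinv d⟩)
  have hfix : ∀ d, eta s t (ch b) d = d → ∃ e ∈ XX b, dl s t e = d := by
    intro d h
    by_cases hd : ∃ e, dl s t e = d
    · obtain ⟨e, rfl⟩ := hd
      rw [eta_dl hinj] at h
      exact ⟨e, mem_XX.mpr (dl_inj hinj h), rfl⟩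
    · rw [eta_uncut _ hd] at h
      exact absurd h (etaF_ne s d)
  have hfix' : ∀ e ∈ XX b, eta s t (ch b) (dl s t e) = dl s t e := by
    intro e he
    rw [eta_dl hinj, mem_XX.mp he]
  have hex : ∀ e : End R T k, ∃ e', e ∈ XX b → e' ∈ XX b ∧ dl s t e' = σ (dl s t e) := by
    intro e
    by_cases he : e ∈ XX b
    · obtain ⟨e', a, b⟩ := hfix _ (s1 _ (mem_univ _) (hfix' e he)).2.1
      exact ⟨e', fun _ => ⟨a, b⟩⟩
    · exact ⟨e, fun h => absurd h he⟩
  choose sX hsX using hex
  have hacyc : ∀ U : Finset (V × Bool), U.Nonempty → (∀ d ∈ U, (d.1, !d.2) ∈ U) →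
      (∀ d ∈ U, eta s t (ch b) d ∈ U) → ∃ e ∈ XX b, dl s t e ∈ U := by
    intro U hne a c
    have hboth : ∀ v q q', (v, q) ∈ U → (v, q') ∈ U := by
      intro v q q' h
      by_cases hq : q' = q
      · rwa [hq]
      · rw [Bool.eq_not_iff.mpr hq]; exact a _ h
    have hcut : ∃ e, dl s t e ∈ U := by
      by_contra hcon
      push Not at hcon
      obtain ⟨r, hr⟩ := hsp (U.image Prod.fst) (hne.image _) (by
        intro v hv
        obtain ⟨d, hd, rfl⟩ := mem_image.mp hv
        have := c _ (hboth d.1 d.2 false hd)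
        rw [eta_uncut _ (by rintro ⟨e, he⟩; exact hcon e (he ▸ hboth d.1 d.2 false hd))] at this
        exact mem_image.mpr ⟨_, this, rfl⟩)
      obtain ⟨d, hd, h⟩ := mem_image.mp hr
      apply hcon (se (r, false))
      have := hboth d.1 d.2 false hd
      rwa [h] at this
    have hye : ∀ i t', dl s t (ye b i t') ∈ U → ∃ e ∈ XX b, dl s t e ∈ U := by
      intro i t' h
      obtain ⟨g, q, hf⟩ := h1 i t'
      exact ⟨_, gn_mem b g q, hf.mem _ U a c h⟩
    obtain ⟨e, he⟩ := hcut
    induction e using End.cases6 b with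
    | h1 i => exact hye i 0 (by simpa [eta_dl hinj] using c _ he)
    | h2 i => exact hye i _ he
    | h2' i t' => exact hye i _ he
    | h3 i t' => exact hye i t'.succ (by simpa [eta_dl hinj] using c _ he)
    | h3' i => exact ⟨_, xo_last_mem b i, he⟩
    | h4 g q => exact ⟨_, gn_mem b g q, he⟩
  have hsXinv : Inv (XX b) sX := by
    intro e he
    obtain ⟨a, c⟩ := hsX e he
    refine ⟨a, dl_inj hinj ?_⟩
    rw [(hsX _ a).2, c, (s1 _ (mem_univ _) (hfix' e he)).2.2.1]
  refine ⟨sX, hsXinv, ?_, ⟨y, hy, hy', ?_⟩, ?_⟩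
  · intro e he h
    apply (s1 _ (mem_univ _) (hfix' e he)).2.2.2
    rw [← (hsX e he).2, h]
  · obtain ⟨U, -, a, c, d, f⟩ := s3 _ (mem_univ _) (hfix' x hx)
    rcases f _ (hxy.mem _ U a c d) (hfix' y hy) with h | h
    · rw [dl_inj hinj h] at hy'
      exact absurd hy' hx'
    · rw [← (hsX x hx).2] at h
      rw [dl_inj hinj h, (hsXinv x hx).2]
      exact hx'
  · intro p hp hconn U hne a c
    have c' : ∀ d ∈ U, eta s t (ch b) d ∈ U := by
      intro d hd
      by_cases hd' : ∃ e, dl s t e = d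
      · obtain ⟨e, rfl⟩ := hd'
        by_cases he : e ∈ XX b
        · rwa [hfix' e he]
        · have := c _ hd
          rw [eta_dl hinj, PP_of_notMem hp he] at this
          rwa [eta_dl hinj]
      · have := c _ hd
        rw [eta_uncut _ hd'] at this ⊢
        exact this
    have hall := hconn ((XX b).filter (fun e => dl s t e ∈ U)) (filter_subset _ _)
      (by obtain ⟨e, h1, h2⟩ := hacyc U hne a c'; exact ⟨e, mem_filter.mpr ⟨h1, h2⟩⟩)
      (by
        intro e he
        rw [mem_filter] at he ⊢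
        refine ⟨(hsX e he.1).1, ?_⟩
        rw [(hsX e he.1).2]
        exact s2 U (subset_univ _) a c' _ he.2 (hfix' e he.1))
      (by
        intro e he
        rw [mem_filter] at he ⊢
        refine ⟨(hp.2 e he.1).1, ?_⟩
        have := c _ he.2
        rwa [eta_dl hinj, PP_of_mem p he.1] at this)
    by_contra hcon
    push Not at hcon
    obtain ⟨d, hd⟩ := hcon
    obtain ⟨e, h1, h2⟩ := hacyc Uᶜ ⟨d, mem_compl.mpr hd⟩
      (by
        intro d hd
        rw [mem_compl] at hd ⊢
        intro h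
        exact hd (by simpa using a _ h))
      (by
        intro d hd
        rw [mem_compl] at hd ⊢
        intro h
        exact hd (by simpa [hinv] using c' _ h))
    exact mem_compl.mp h2 (mem_filter.mp (hall h1)).2

theorem ham_of_conn {pos : V → Fin 4} {s : Equiv.Perm V} (hs : ∀ v, pos (s v) = pos v + 1)
    [Nonempty V] {t : Cut R T k → V} (hsep : Sep s t) {P : End R T k → End R T k}
    (hP : ∀ e, P (P e) = e) {m : V → V} (hm : IsTP pos univ m) (hr : Rl s t P m)
    (hconn : ∀ U : Finset (V × Bool), U.Nonempty →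
        (∀ d ∈ U, (d.1, !d.2) ∈ U) → (∀ d ∈ U, eta s t P d ∈ U) → ∀ d, d ∈ U) :
    (Gr s m).IsHamiltonian := by
  have hinj := loc_inj hs hsep
  have hcase : ∀ d : V × Bool, ((∃ e, dl s t e = d) ∧ (eta s t P d).1 = m d.1) ∨
      (eta s t P d).1 = aw s (!d.2) d.1 := by
    intro d
    by_cases hd : ∃ e, dl s t e = d
    · left
      refine ⟨hd, ?_⟩
      obtain ⟨e, rfl⟩ := hd
      rw [eta_dl hinj]
      exact (hr e).symm
    · right
      rw [eta_uncut _ hd]; rfl
  apply ham_of_darts (Gr s m) (eta s t P) (eta_eta hinj hP) _ _ hconn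
  · intro d
    rw [Gr, SimpleGraph.fromRel_adj]
    rcases hcase d with ⟨-, h⟩ | h <;> rw [h]
    · exact ⟨ne_of_ty (hm.pos_eq _), Or.inl (Or.inr rfl)⟩
    · constructor
      · intro e
        have := congrArg pos e
        rw [pos_aw hs] at this
        revert this
        generalize pos d.1 = q
        generalize (!d.2) = c
        revert q c; decide
      · cases d.2
        · exact Or.inl (Or.inl rfl)
        · exact Or.inr (Or.inl (by simp [aw]))
  · intro v e
    have hp := congrArg pos e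
    rcases hcase (v, true) with ⟨⟨e1, a⟩, h⟩ | h <;> rcases hcase (v, false) with ⟨⟨e2, c⟩, h'⟩ | h'
    · simp only [dl, Prod.mk.injEq] at a c
      have := hinj (a.1.trans c.1.symm)
      rw [this, c.2] at a
      simp at a
    all_goals
      rw [h, h'] at hp
      simp only [pos_aw hs, hm.pos_eq] at hp
      revert hp
      generalize pos v = q
      revert q; decide

open Classical in
/-- good pairings for a placement -/
noncomputable def GoodP (pos : V → Fin 4) (s : Equiv.Perm V) (b : Bits R T)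
    (τ : Cut R T k → Fin 4) (t : Cut R T k → V) : Finset (End R T k → End R T k) :=
  (TP (tyE τ) (XX b)).filter (fun p => Acyc (XX b) kap p ∧
    ∀ m, IsTP pos univ m → Rl s t (PP b p) m → (Gr s m).IsHamiltonian)

lemma mem_GoodP {pos : V → Fin 4} {s : Equiv.Perm V} {b : Bits R T}
    {τ : Cut R T k → Fin 4} {t : Cut R T k → V} {p : End R T k → End R T k} :
    p ∈ GoodP pos s b τ t ↔ IsTP (tyE τ) (XX b) p ∧ Acyc (XX b) kap p ∧
      ∀ m, IsTP pos univ m → Rl s t (PP b p) m → (Gr s m).IsHamiltonian := by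
  simp only [GoodP, mem_filter, mem_TP]

theorem card_GoodP {pos : V → Fin 4} {s : Equiv.Perm V} (hs : ∀ v, pos (s v) = pos v + 1)
    {t : Cut R T k → V} (hsep : Sep s t)
    (hsp : ∀ W : Finset V, W.Nonempty → (∀ v ∈ W, s v ∈ W) → ∃ r, t (Sum.inl r) ∈ W)
    {b : Bits R T} {τ : Cut R T k → Fin 4} {E : ℕ} {r₀ : Fin R} {g₀ : Fin k}
    (hτ : Typed b τ (E + 1) r₀ g₀) (hR : 4 ≤ R)
    (h1 : ∀ i t', ∃ g c, First s t (ye b i t') (gn g c))
    (h2 : First s t (xo b (r₀, true) (Fin.last T)) (gn g₀ (b (r₀, true) (Fin.last T)))) :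
    E.factorial * (E - 1).factorial ≤ (GoodP pos s b τ t).card := by
  obtain ⟨sX, a1, a2, a3, a4⟩ := exists_sX hs hsep hsp b (tyE τ) h1 (xo_last_mem b _)
    (gn_mem b _ _) h2 (hτ.odd r₀) hτ.face
  have : Nonempty V := ⟨t (Sum.inl r₀)⟩
  refine le_trans (even_phase (tyE τ) E (E + 1) (XX b) sX kap a1 a2 (kap_inv b) (hτ.count 0)
    (hτ.count 2) (hτ.count 1) (hτ.count 3) (Or.inr a3) ?_ ?_) (card_le_card ?_)
  · intro x hx hev
    rcases mem_XX_cases hx with ⟨i, rfl⟩ | ⟨g, c, rfl⟩
    · exact Or.inl rfl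
    · right
      have key : ∀ (q : Fin 4) (c : Bool), Ev (q + dl4 c) → ¬ Ev (q + dl4 (!c)) := by decide
      exact key _ _ hev
  · refine hR.trans ?_
    conv_lhs => rw [← Fintype.card_fin R, ← card_univ]
    apply card_le_card_of_injOn (fun r => xo b (r, true) (Fin.last T))
    · intro r _
      simp only [coe_filter, Set.mem_ofPred_eq]
      exact ⟨xo_last_mem b _, rfl, hτ.odd r⟩
    · intro r _ r' _ h
      simp only [xo, Prod.mk.injEq, Sum.inr.injEq, Sum.inl.injEq] at h
      exact h.1.1.1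
  · intro p hp
    rw [mem_GP] at hp
    rw [mem_GoodP]
    refine ⟨hp.1, hp.2.2, fun m hm hr => ?_⟩
    exact ham_of_conn hs hsep (fun e => ((PP_isTP hp.1 hτ.chn).2 e (mem_univ _)).2.1) hm hr
      (a4 p hp.1 hp.2.1)

end Pool.Agent.MP_755159_pr

end

section

/-! Counting good placements of the cuts. -/

set_option linter.unusedSectionVars false

namespace Pool.Agent.MP_755159_pr

open Finset

variable {V : Type} [Fintype V] [DecidableEq V] {R T k : ℕ}

/-- a fibre -/
def fib (pos : V → Fin 4) (q : Fin 4) : Finset V := univ.filter (fun d => pos d = q)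

lemma mem_fib {pos : V → Fin 4} {q : Fin 4} {v : V} : v ∈ fib pos q ↔ pos v = q := by simp [fib]

/-- tails of the cuts -/
def tl (sp : Fin R → V) (γ : Chn R × Fin (T + 1) → V) (β : Fin k → V) : Cut R T k → V :=
  Sum.elim sp (Sum.elim γ β)

/-- nearby points -/
noncomputable def Near (s : Equiv.Perm V) (L : ℕ) (w : V) : Finset V :=
  (Icc (-(L : ℤ)) L).image (fun z => (s ^ z) w)

lemma mem_Near {s : Equiv.Perm V} {L : ℕ} {w v : V} :
    v ∈ Near s L w ↔ ∃ z : ℤ, |z| ≤ L ∧ (s ^ z) w = v := by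
  simp only [Near, mem_image, mem_Icc, abs_le]

lemma Near_symm {s : Equiv.Perm V} {L : ℕ} {w v : V} (h : v ∈ Near s L w) : w ∈ Near s L v := by
  rw [mem_Near] at h ⊢
  obtain ⟨z, a, rfl⟩ := h
  exact ⟨-z, by rwa [abs_neg], by rw [zpow_app]; simp⟩

lemma Near_mono {s : Equiv.Perm V} {L L' : ℕ} (hL : L ≤ L') {w v : V} (h : v ∈ Near s L w) :
    v ∈ Near s L' w := by
  rw [mem_Near] at h ⊢
  obtain ⟨z, a, b⟩ := h
  exact ⟨z, a.trans (by exact_mod_cast hL), b⟩

lemma card_Near (s : Equiv.Perm V) (L : ℕ) (w : V) : (Near s L w).card ≤ 2 * L + 1 := by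
  refine card_image_le.trans ?_
  rw [Int.card_Icc]
  omega

lemma aw_pow_mem_Near (s : Equiv.Perm V) (c : Bool) {L i : ℕ} (h : i ≤ L) (w : V) :
    (aw s c ^ i) w ∈ Near s L w := by
  rw [mem_Near, aw_zpow, ← zpow_natCast, ← zpow_mul]
  refine ⟨_, ?_, rfl⟩
  cases c <;> simpa using h

/-- a window -/
def Win (s : Equiv.Perm V) (c : Bool) (N : ℕ) (u : V) : Finset V :=
  (range N).image (fun l => (aw s c ^ (l + 1)) u)

lemma card_Win (s : Equiv.Perm V) (c : Bool) (N : ℕ) (u : V) : (Win s c N u).card ≤ N :=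
  card_image_le.trans (card_range N).le

lemma no_short {s : Equiv.Perm V} {sp : Fin R → V}
    (hsp : ∀ W : Finset V, W.Nonempty → (∀ v ∈ W, s v ∈ W) → ∃ r, sp r ∈ W) {L : ℕ} {u : V}
    (hu : ∀ r, u ∉ Near s L (sp r)) (c : Bool) {i : ℕ} (hi : i < L) :
    (aw s c ^ (i + 1)) u ≠ u := by
  intro h
  have h' : (s ^ (i + 1)) u = u := by
    cases c
    · simp only [aw, Bool.false_eq_true, if_false, inv_pow] at h
      conv_lhs => rw [← h]
      simp
    · exact h
  obtain ⟨r, hr⟩ := hsp ((range (i + 1)).image (fun l => (s ^ l) u))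
    ⟨u, mem_image.mpr ⟨0, by simp, by simp⟩⟩ (by
      intro v hv
      obtain ⟨l, hl, rfl⟩ := mem_image.mp hv
      rw [mem_range] at hl
      rw [← Equiv.Perm.mul_apply, ← pow_succ']
      by_cases hl' : l = i
      · rw [hl', h']
        exact mem_image.mpr ⟨0, by simp, by simp⟩
      · exact mem_image.mpr ⟨l + 1, mem_range.mpr (by omega), rfl⟩)
  obtain ⟨l, hl, e⟩ := mem_image.mp hr
  rw [mem_range] at hl
  apply hu r
  apply Near_symm
  rw [← e]
  exact aw_pow_mem_Near s true (by omega) u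

lemma card_Win_fib {pos : V → Fin 4} {s : Equiv.Perm V} (hs : ∀ v, pos (s v) = pos v + 1)
    (c : Bool) (N : ℕ) {u : V} (hu : ∀ i < 4 * N, (aw s c ^ (i + 1)) u ≠ u) (q : Fin 4) :
    N ≤ (Win s c (4 * N) u ∩ fib pos q).card := by
  have h1 : ∀ i, pos ((aw s c ^ (i + 1)) u) = pos ((aw s c ^ i) u) + if c then 1 else 3 := by
    intro i
    rw [pow_succ', Equiv.Perm.mul_apply, pos_aw hs]
  have h4 : ∀ i l, pos ((aw s c ^ (i + 4 * l)) u) = pos ((aw s c ^ i) u) := by
    intro i l
    induction l with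
    | zero => rfl
    | succ l ih =>
      rw [show i + 4 * (l + 1) = i + 4 * l + 1 + 1 + 1 + 1 by ring, h1, h1, h1, h1, ih]
      have : ∀ (q : Fin 4) (c : Bool), (((q + if c then 1 else 3) + if c then 1 else 3) +
        if c then 1 else 3) + (if c then 1 else 3) = q := by decide
      exact this _ _
  obtain ⟨i, hi, hq⟩ : ∃ i < 4, pos ((aw s c ^ (i + 1)) u) = q := by
    have : ∀ (p q : Fin 4) (c : Bool), (p + if c then 1 else 3) = q ∨
      ((p + if c then 1 else 3) + if c then 1 else 3) = q ∨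
      (((p + if c then 1 else 3) + if c then 1 else 3) + if c then 1 else 3) = q ∨
      (((p + if c then 1 else 3) + if c then 1 else 3) + if c then 1 else 3) +
        (if c then 1 else 3) = q := by decide
    rcases this (pos ((aw s c ^ 0) u)) q c with h | h | h | h
    · exact ⟨0, by omega, by rw [h1, h]⟩
    · exact ⟨1, by omega, by rw [h1, h1, h]⟩
    · exact ⟨2, by omega, by rw [h1, h1, h1, h]⟩
    · exact ⟨3, by omega, by rw [h1, h1, h1, h1, h]⟩
  conv_lhs => rw [← card_range N]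
  apply card_le_card_of_injOn (fun l => (aw s c ^ (i + 1 + 4 * l)) u)
  · intro l hl
    simp only [coe_range, Set.mem_Iio] at hl
    simp only [coe_inter, Set.mem_inter_iff, mem_coe, mem_fib, h4, hq, and_true]
    exact mem_image.mpr ⟨i + 4 * l, mem_range.mpr (by omega), by congr 2; ring⟩
  · have key : ∀ l l', l < l' → l' < N →
        (aw s c ^ (i + 1 + 4 * l)) u ≠ (aw s c ^ (i + 1 + 4 * l')) u := by
      intro l l' a b e
      apply hu (4 * (l' - l) - 1) (by omega)
      rw [show i + 1 + 4 * l' = (i + 1 + 4 * l) + (4 * (l' - l) - 1 + 1) by omega,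
        pow_add _ (i + 1 + 4 * l), Equiv.Perm.mul_apply] at e
      exact ((aw s c ^ (i + 1 + 4 * l)).injective e).symm
    intro l hl l' hl' e
    simp only [coe_range, Set.mem_Iio] at hl hl'
    rcases lt_trichotomy l l' with h | h | h
    · exact absurd e (key l l' h hl')
    · exact h
    · exact absurd e.symm (key l' l h hl)

lemma walk_iff (s : Equiv.Perm V) (t : Cut R T k → V) (j j' : Cut R T k) (c : Bool) (i : ℕ) :
    (aw s c ^ i) (loc s t (j, c)) = loc s t (j', !c) ↔ (aw s c ^ (i + 1)) (t j) = t j' := by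
  cases c
  · simp only [aw, loc, Bool.false_eq_true, if_false, Bool.not_false, if_true]
    rw [pow_succ', Equiv.Perm.mul_apply, Equiv.Perm.inv_eq_iff_eq]
  · simp only [aw, loc, if_true, Bool.not_true, Bool.false_eq_true, if_false]
    rw [pow_succ, Equiv.Perm.mul_apply]

lemma first_of_win {s : Equiv.Perm V} {t : Cut R T k → V} {j : Cut R T k} {c : Bool} {N : ℕ}
    (Q : Cut R T k → Prop) (h1 : ∃ j', t j' ∈ Win s c N (t j))
    (h2 : ∀ j', t j' ∈ Win s c N (t j) → Q j') : ∃ j', Q j' ∧ First s t (j, c) (j', !c) := by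
  classical
  have hex : ∃ i, ∃ j', (aw s c ^ (i + 1)) (t j) = t j' := by
    obtain ⟨j', h⟩ := h1
    obtain ⟨i, -, e⟩ := mem_image.mp h
    exact ⟨i, j', e⟩
  obtain ⟨j', hj'⟩ := Nat.find_spec hex
  refine ⟨j', h2 j' ?_, Nat.find hex, (walk_iff s t j j' c _).mpr hj', rfl, ?_⟩
  · obtain ⟨j'', h⟩ := h1
    obtain ⟨i, hi, e⟩ := mem_image.mp h
    have := Nat.find_min' hex ⟨j'', e⟩
    exact mem_image.mpr ⟨_, mem_range.mpr (lt_of_le_of_lt this (mem_range.mp hi)), hj'⟩
  · rintro l hl ⟨j'', c''⟩ hc e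
    simp only at hc
    subst hc
    exact Nat.find_min hex hl ⟨j'', (walk_iff s t j j'' c l).mp e⟩

open Classical in
/-- good placements of the chain cuts -/
noncomputable def Nice (pos : V → Fin 4) (s : Equiv.Perm V) (sp : Fin R → V)
    (τ : Cut R T k → Fin 4) (L : ℕ) : Finset (Chn R × Fin (T + 1) → V) :=
  (Fintype.piFinset (fun x => fib pos (τ (Sum.inr (Sum.inl x))))).filter
    (fun γ => ∀ x, (∀ r, γ x ∉ Near s L (sp r)) ∧ ∀ x', x' ≠ x → γ x ∉ Near s L (γ x'))

lemma mem_Nice {pos : V → Fin 4} {s : Equiv.Perm V} {sp : Fin R → V}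
    {τ : Cut R T k → Fin 4} {L : ℕ} {γ : Chn R × Fin (T + 1) → V} :
    γ ∈ Nice pos s sp τ L ↔ (∀ x, pos (γ x) = τ (Sum.inr (Sum.inl x))) ∧
      ∀ x, (∀ r, γ x ∉ Near s L (sp r)) ∧ ∀ x', x' ≠ x → γ x ∉ Near s L (γ x') := by
  simp only [Nice, mem_filter, Fintype.mem_piFinset, mem_fib]

theorem card_Nice {pos : V → Fin 4} {n : ℕ} (hn : ∀ q, cnt pos univ q = n) (s : Equiv.Perm V)
    (sp : Fin R → V) (τ : Cut R T k → Fin 4) (L I : ℕ) (hI : I = 2 * R * (T + 1)) :
    n ^ I * n ≤ (Nice pos s sp τ L).card * n + I * (n ^ I * ((R + I) * (2 * L + 1))) := by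
  classical
  have hI' : Fintype.card (Chn R × Fin (T + 1)) = I := by simp [hI]; ring
  have hfib : ∀ q, (fib pos q).card = n := hn
  obtain ⟨A, hA⟩ : ∃ A : Chn R × Fin (T + 1) → Finset V,
    A = fun x => fib pos (τ (Sum.inr (Sum.inl x))) := ⟨_, rfl⟩
  have hpi : (Fintype.piFinset A).card = n ^ I := by
    rw [Fintype.card_piFinset, hA]
    simp only [hfib, prod_const, card_univ, hI']
  obtain ⟨B, hB⟩ : ∃ B : Chn R × Fin (T + 1) → (Chn R × Fin (T + 1) → V) → Finset V,
    B = fun x γ => univ.biUnion (fun r => Near s L (sp r)) ∪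
      (univ.erase x).biUnion (fun x' => Near s L (γ x')) := ⟨_, rfl⟩
  have hcov : Fintype.piFinset A ⊆ Nice pos s sp τ L ∪
      univ.biUnion (fun x => (Fintype.piFinset A).filter (fun γ => γ x ∈ B x γ)) := by
    intro γ hγ
    rw [mem_union]
    by_contra hcon
    push Not at hcon
    apply hcon.1
    rw [mem_Nice]
    refine ⟨fun x => by simpa [hA, mem_fib] using Fintype.mem_piFinset.mp hγ x, fun x => ?_⟩
    have : γ x ∉ B x γ := fun h => hcon.2 (mem_biUnion.mpr ⟨x, mem_univ _, mem_filter.mpr ⟨hγ, h⟩⟩)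
    simpa [hB] using this
  have hbad : ∀ x, ((Fintype.piFinset A).filter (fun γ => γ x ∈ B x γ)).card * n ≤
      n ^ I * ((R + I) * (2 * L + 1)) := by
    intro x
    have := resample_pi A x _ (filter_subset (fun γ => γ x ∈ B x γ) _) ((R + I) * (2 * L + 1)) ?_
    · rwa [hpi, show (A x).card = n by rw [hA]; exact hfib _] at this
    · intro γ _
      refine le_trans (card_le_card (t := B x γ) ?_) ?_
      · intro v hv
        have := (mem_filter.mp (mem_filter.mp hv).2).2
        simp only [Function.update_self, hB, mem_union, mem_biUnion, mem_erase] at this ⊢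
        rcases this with h | ⟨x', h, h'⟩
        · exact Or.inl h
        · exact Or.inr ⟨x', h, by rwa [Function.update_of_ne h.1] at h'⟩
      · rw [hB]
        refine (card_union_le _ _).trans ?_
        rw [add_mul]
        apply Nat.add_le_add
        · refine (card_biUnion_le_card_mul _ _ _ (fun r _ => card_Near s L _)).trans ?_
          simp
        · refine (card_biUnion_le_card_mul _ _ _ (fun r _ => card_Near s L _)).trans ?_
          apply Nat.mul_le_mul_right
          rw [← hI']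
          exact card_le_univ _
  have h1 := (card_le_card hcov).trans ((card_union_le _ _).trans
    (Nat.add_le_add_left card_biUnion_le _))
  rw [hpi] at h1
  refine (Nat.mul_le_mul_right n h1).trans ?_
  rw [add_mul, sum_mul]
  apply Nat.add_le_add_left
  refine (sum_le_sum (fun x _ => hbad x)).trans ?_
  rw [sum_const, card_univ, hI', smul_eq_mul]

open Classical in
/-- good placements of the generic cuts -/
noncomputable def GoodB (pos : V → Fin 4) (s : Equiv.Perm V) (sp : Fin R → V) (b : Bits R T)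
    (τ : Cut R T k → Fin 4) (r₀ : Fin R) (g₀ : Fin k) (γ : Chn R × Fin (T + 1) → V) :
    Finset (Fin k → V) :=
  univ.filter (fun β => (∀ g, pos (β g) = τ (Sum.inr (Sum.inr g))) ∧ Sep s (tl sp γ β) ∧
    (∀ i t', ∃ g c, First s (tl sp γ β) (ye b i t') (gn g c)) ∧
    First s (tl sp γ β) (xo b (r₀, true) (Fin.last T)) (gn g₀ (b (r₀, true) (Fin.last T))))

lemma mem_GoodB {pos : V → Fin 4} {s : Equiv.Perm V} {sp : Fin R → V} {b : Bits R T}
    {τ : Cut R T k → Fin 4} {r₀ : Fin R} {g₀ : Fin k} {γ : Chn R × Fin (T + 1) → V}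
    {β : Fin k → V} : β ∈ GoodB pos s sp b τ r₀ g₀ γ ↔
    (∀ g, pos (β g) = τ (Sum.inr (Sum.inr g))) ∧ Sep s (tl sp γ β) ∧
    (∀ i t', ∃ g c, First s (tl sp γ β) (ye b i t') (gn g c)) ∧
    First s (tl sp γ β) (xo b (r₀, true) (Fin.last T)) (gn g₀ (b (r₀, true) (Fin.last T))) := by
  simp only [GoodB, mem_filter, mem_univ, true_and]

lemma good_of_avoid {pos : V → Fin 4} {s : Equiv.Perm V} (hs : ∀ v, pos (s v) = pos v + 1)
    {sp : Fin R → V} (hsp0 : ∀ r, pos (sp r) = 0) (hspi : Function.Injective sp)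
    (hsp : ∀ W : Finset V, W.Nonempty → (∀ v ∈ W, s v ∈ W) → ∃ r, sp r ∈ W)
    {b : Bits R T} {τ : Cut R T k → Fin 4} {r₀ : Fin R} {g₀ : Fin k} {L N₁ N₂ : ℕ} (hL : 2 ≤ L)
    (hN₁ : N₁ ≤ L) (hN₂ : N₂ ≤ L)
    {γ : Chn R × Fin (T + 1) → V} (hγ : γ ∈ Nice pos s sp τ L) {β : Fin k → V}
    (h0 : ∀ g, pos (β g) = τ (Sum.inr (Sum.inr g)))
    (h1 : β g₀ ∈ Win s (!b (r₀, true) (Fin.last T)) N₂ (γ ((r₀, true), Fin.last T)))
    (h2 : ∀ r, β g₀ ∉ Near s 2 (sp r)) (h3 : ∀ x, β g₀ ∉ Near s 2 (γ x))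
    (h4 : ∀ g, g ≠ g₀ →
      β g ∉ Win s (!b (r₀, true) (Fin.last T)) N₂ (γ ((r₀, true), Fin.last T)))
    (h5 : ∀ g, g ≠ g₀ → ∀ j : Cut R T k, j ≠ Sum.inr (Sum.inr g) → β g ∉ Near s 2 (tl sp γ β j))
    (h6 : ∀ x : Chn R × Fin (T + 1), ∃ g, β g ∈ Win s (b x.1 x.2) N₁ (γ x)) :
    β ∈ GoodB pos s sp b τ r₀ g₀ γ := by
  rw [mem_Nice] at hγ
  have hwin : ∀ x c N, N ≤ L → ∀ j : Cut R T k, tl sp γ β j ∈ Win s c N (γ x) →
      ∃ g, j = Sum.inr (Sum.inr g) := by
    intro x c N hN j hj
    obtain ⟨l, hl, e⟩ := mem_image.mp hj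
    rw [mem_range] at hl
    have hnear : γ x ∈ Near s L (tl sp γ β j) :=
      Near_symm (e ▸ aw_pow_mem_Near s c (by omega) _)
    rcases j with r | x' | g
    · exact absurd hnear ((hγ.2 x).1 r)
    · by_cases h : x' = x
      · subst h
        exact absurd e (no_short hsp (hγ.2 x').1 c (by omega))
      · exact absurd hnear ((hγ.2 x).2 x' h)
    · exact ⟨g, rfl⟩
  rw [mem_GoodB]
  refine ⟨h0, ?_, ?_, ?_⟩
  · have key : ∀ j j' : Cut R T k, j ≠ j' → (∃ g, j = Sum.inr (Sum.inr g)) ∨
        ((∃ x, j = Sum.inr (Sum.inl x)) ∧ ∀ g, j' ≠ Sum.inr (Sum.inr g)) →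
        tl sp γ β j ∉ Near s 2 (tl sp γ β j') := by
      rintro j j' hne (⟨g, rfl⟩ | ⟨⟨x, rfl⟩, h⟩)
      · by_cases hg : g = g₀
        · subst hg
          rcases j' with r | x | g'
          · exact h2 r
          · exact h3 x
          · exact fun h => h5 g' (by rintro rfl; exact hne rfl) _ hne (Near_symm h)
        · exact h5 g hg j' hne.symm
      · rcases j' with r | x' | g'
        · exact fun h => (hγ.2 x).1 r (Near_mono hL h)
        · exact fun h => (hγ.2 x).2 x' (by rintro rfl; exact hne rfl) (Near_mono hL h)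
        · exact absurd rfl (h g')
    intro j j' hne z hz e
    have hnear : tl sp γ β j' ∈ Near s 2 (tl sp γ β j) := mem_Near.mpr ⟨z, hz, e⟩
    rcases j with r | x | g <;> rcases j' with r' | x' | g'
    · simp only [tl, Sum.elim_inl] at e
      have hp := congrArg pos e
      rw [abs_le] at hz
      obtain ⟨z1, z2⟩ := hz
      interval_cases z
      · rw [show s ^ (-2 : ℤ) = s⁻¹ * s⁻¹ by group, Equiv.Perm.mul_apply, pos_inv hs, pos_inv hs,
          hsp0, hsp0] at hp
        exact absurd hp (by decide)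
      · rw [zpow_neg_one, pos_inv hs, hsp0, hsp0] at hp
        exact absurd hp (by decide)
      · exact hne (by rw [hspi e])
      · rw [zpow_one, hs, hsp0, hsp0] at hp
        exact absurd hp (by decide)
      · rw [zpow_two, Equiv.Perm.mul_apply, hs, hs, hsp0, hsp0] at hp
        exact absurd hp (by decide)
    · exact key _ _ hne.symm (Or.inr ⟨⟨_, rfl⟩, by simp⟩) hnear
    · exact key _ _ hne.symm (Or.inl ⟨_, rfl⟩) hnear
    · exact key _ _ hne (Or.inr ⟨⟨_, rfl⟩, by simp⟩) (Near_symm hnear)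
    · exact key _ _ hne (Or.inr ⟨⟨_, rfl⟩, by simp⟩) (Near_symm hnear)
    · exact key _ _ hne.symm (Or.inl ⟨_, rfl⟩) hnear
    · exact key _ _ hne (Or.inl ⟨_, rfl⟩) (Near_symm hnear)
    · exact key _ _ hne (Or.inl ⟨_, rfl⟩) (Near_symm hnear)
    · exact key _ _ hne (Or.inl ⟨_, rfl⟩) (Near_symm hnear)
  · intro i t'
    obtain ⟨g, hg⟩ := h6 (i, t')
    obtain ⟨j', ⟨g', rfl⟩, hf⟩ := first_of_win (s := s) (t := tl sp γ β)
      (j := Sum.inr (Sum.inl (i, t'))) (c := b i t') (N := N₁)
      (fun j => ∃ g, j = Sum.inr (Sum.inr g)) ⟨Sum.inr (Sum.inr g), hg⟩ (hwin _ _ _ hN₁)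
    exact ⟨g', _, hf⟩
  · obtain ⟨j', rfl, hf⟩ := first_of_win (s := s) (t := tl sp γ β)
      (j := Sum.inr (Sum.inl ((r₀, true), Fin.last T))) (c := !b (r₀, true) (Fin.last T)) (N := N₂)
      (fun j => j = Sum.inr (Sum.inr g₀)) ⟨Sum.inr (Sum.inr g₀), h1⟩ (by
        intro j hj
        obtain ⟨g, rfl⟩ := hwin _ _ _ hN₂ j hj
        by_contra hcon
        exact h4 g (by rintro rfl; exact hcon rfl) hj)
    rw [Bool.not_not] at hf
    exact hf

theorem card_GoodB {pos : V → Fin 4} {n : ℕ} (hn : ∀ q, cnt pos univ q = n) {s : Equiv.Perm V}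
    (hs : ∀ v, pos (s v) = pos v + 1)
    {sp : Fin R → V} (hsp0 : ∀ r, pos (sp r) = 0) (hspi : Function.Injective sp)
    (hsp : ∀ W : Finset V, W.Nonempty → (∀ v ∈ W, s v ∈ W) → ∃ r, sp r ∈ W)
    (b : Bits R T) {τ : Cut R T k → Fin 4} (r₀ : Fin R) (g₀ : Fin k) {L n₁ n₂ I K : ℕ}
    (hI : I = 2 * R * (T + 1)) (hK : K = R + I + k) (hL : 2 ≤ L)
    (hN₁ : 4 * n₁ ≤ L) (hN₂ : 4 * n₂ ≤ L) (hn0 : 0 < n) (hn1 : 0 < n₁)
    (c1 : 4 * k * (4 * n₂ + 5 * K) ≤ n) (c2 : 4 * I * n ≤ k * n₁)
    {γ : Chn R × Fin (T + 1) → V} (hγ : γ ∈ Nice pos s sp τ L) :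
    (n₂ - 5 * K) * n ^ (k - 1) ≤ 2 * (GoodB pos s sp b τ r₀ g₀ γ).card := by
  classical
  have hI' : Fintype.card (Chn R × Fin (T + 1)) = I := by simp [hI]; ring
  have hK' : Fintype.card (Cut R T k) = K := by simp [hK, hI]; ring
  have hfib : ∀ q, (fib pos q).card = n := hn
  have hk : 0 < k := g₀.pos
  have hγ' := mem_Nice.mp hγ
  obtain ⟨W, hW⟩ : ∃ W, W = Win s (!b (r₀, true) (Fin.last T)) (4 * n₂)
    (γ ((r₀, true), Fin.last T)) := ⟨_, rfl⟩
  obtain ⟨A₀, hA₀⟩ : ∃ A₀, A₀ = (W ∩ fib pos (τ (Sum.inr (Sum.inr g₀)))) \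
    (univ.biUnion (fun r => Near s 2 (sp r)) ∪ univ.biUnion (fun x => Near s 2 (γ x))) := ⟨_, rfl⟩
  have hA₀c : n₂ - 5 * K ≤ A₀.card := by
    rw [hA₀]
    refine le_trans ?_ (le_card_sdiff _ _)
    have a := card_Win_fib hs (!b (r₀, true) (Fin.last T)) n₂
      (fun i hi => no_short hsp (hγ'.2 ((r₀, true), Fin.last T)).1 _ (by omega))
      (τ (Sum.inr (Sum.inr g₀)))
    rw [← hW] at a
    have c := card_union_le (univ.biUnion (fun r => Near s 2 (sp r)))
      (univ.biUnion (fun x => Near s 2 (γ x)))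
    have d := card_biUnion_le_card_mul univ (fun r => Near s 2 (sp r)) _
      (fun r _ => card_Near s 2 _)
    have e := card_biUnion_le_card_mul univ (fun x => Near s 2 (γ x)) _
      (fun r _ => card_Near s 2 _)
    rw [card_univ, hI'] at e
    rw [card_univ, Fintype.card_fin] at d
    omega
  obtain ⟨A, hA⟩ : ∃ A : Fin k → Finset V,
    A = fun g => if g = g₀ then A₀ else fib pos (τ (Sum.inr (Sum.inr g))) := ⟨_, rfl⟩
  have hprod : ∀ (B : Fin k → Finset V), (Fintype.piFinset
      (fun g => if g = g₀ then A₀ else B g)).card =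
      A₀.card * ∏ g ∈ univ.erase g₀, (B g).card := by
    intro B
    rw [Fintype.card_piFinset, ← mul_prod_erase univ _ (mem_univ g₀), if_pos rfl]
    congr 1
    apply prod_congr rfl
    intro g hg
    rw [if_neg (mem_erase.mp hg).1]
  have hpi : (Fintype.piFinset A).card = A₀.card * n ^ (k - 1) := by
    rw [hA, hprod]
    simp [hfib]
  obtain ⟨B, hB⟩ : ∃ B : Fin k → (Fin k → V) → Finset V, B = fun g β => W ∪
      (univ.erase (Sum.inr (Sum.inr g))).biUnion
        (fun j : Cut R T k => Near s 2 (tl sp γ β j)) := ⟨_, rfl⟩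
  obtain ⟨M, hM⟩ : ∃ M : Chn R × Fin (T + 1) → Finset (Fin k → V), M = fun x =>
    Fintype.piFinset (fun g => if g = g₀ then A₀ else
      fib pos (τ (Sum.inr (Sum.inr g))) \ Win s (b x.1 x.2) (4 * n₁) (γ x)) := ⟨_, rfl⟩
  have hcov : Fintype.piFinset A ⊆ GoodB pos s sp b τ r₀ g₀ γ ∪
      ((univ.erase g₀).biUnion (fun g => (Fintype.piFinset A).filter (fun β => β g ∈ B g β)) ∪
        univ.biUnion M) := by
    intro β hβ
    rw [mem_union, mem_union]
    by_contra hcon
    push Not at hcon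
    obtain ⟨q1, q2, q3⟩ := hcon
    have hβ' := Fintype.mem_piFinset.mp hβ
    have a0 : β g₀ ∈ A₀ := by simpa [hA] using hβ' g₀
    have a1 : ∀ g, g ≠ g₀ → β g ∈ fib pos (τ (Sum.inr (Sum.inr g))) := by
      intro g hg; simpa [hA, hg] using hβ' g
    have a2 : ∀ g, g ≠ g₀ → β g ∉ B g β := fun g hg h =>
      q2 (mem_biUnion.mpr ⟨g, mem_erase.mpr ⟨hg, mem_univ _⟩, mem_filter.mpr ⟨hβ, h⟩⟩)
    have a0' := a0
    simp only [hA₀, mem_sdiff, mem_inter, mem_union, mem_biUnion, mem_univ, true_and, not_or,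
      not_exists, mem_fib] at a0'
    apply q1
    apply good_of_avoid hs hsp0 hspi hsp hL hN₁ hN₂ hγ _ (hW ▸ a0'.1.1) a0'.2.1 a0'.2.2
    · intro g hg h
      exact a2 g hg (by rw [hB]; exact mem_union_left _ (hW ▸ h))
    · intro g hg j hj h
      exact a2 g hg (by
        rw [hB]; exact mem_union_right _ (mem_biUnion.mpr ⟨j, mem_erase.mpr ⟨hj, mem_univ _⟩, h⟩))
    · intro x
      by_contra hcon
      push Not at hcon
      apply q3
      refine mem_biUnion.mpr ⟨x, mem_univ _, ?_⟩
      rw [hM, Fintype.mem_piFinset]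
      intro g
      by_cases hg : g = g₀
      · rw [if_pos hg, hg]; exact a0
      · rw [if_neg hg]; exact mem_sdiff.mpr ⟨a1 g hg, hcon g⟩
    · intro g
      by_cases hg : g = g₀
      · rw [hg]; exact a0'.1.2
      · exact mem_fib.mp (a1 g hg)
  have hbad1 : ∀ g ∈ univ.erase g₀, ((Fintype.piFinset A).filter (fun β => β g ∈ B g β)).card * n ≤
      (Fintype.piFinset A).card * (4 * n₂ + 5 * K) := by
    intro g hg
    have hg := (mem_erase.mp hg).1
    have := resample_pi A g _ (filter_subset (fun β => β g ∈ B g β) _) (4 * n₂ + 5 * K) ?_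
    · rwa [show (A g).card = n by rw [hA]; simp only [if_neg hg]; exact hfib _] at this
    · intro β _
      refine le_trans (card_le_card (t := B g β) ?_) ?_
      · intro v hv
        have := (mem_filter.mp (mem_filter.mp hv).2).2
        simp only [Function.update_self, hB, mem_union, mem_biUnion, mem_erase] at this ⊢
        rcases this with h | ⟨j, h, h'⟩
        · exact Or.inl h
        · refine Or.inr ⟨j, h, ?_⟩
          have : tl sp γ (Function.update β g v) j = tl sp γ β j := by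
            rcases j with r | x | g'
            · rfl
            · rfl
            · exact Function.update_of_ne (by rintro rfl; exact h.1 rfl) _ _
          rwa [this] at h'
      · rw [hB]
        refine (card_union_le _ _).trans (Nat.add_le_add (hW ▸ card_Win _ _ _ _) ?_)
        refine (card_biUnion_le_card_mul _ _ _ (fun r _ => card_Near s 2 _)).trans ?_
        rw [mul_comm]
        apply Nat.mul_le_mul_left
        rw [← hK']
        exact card_le_univ _
  have hbad2 : ∀ x, (M x).card * (k * n₁) ≤ (Fintype.piFinset A).card * n := by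
    intro x
    rw [hM, hpi]
    simp only
    rw [hprod, mul_assoc, mul_assoc]
    apply Nat.mul_le_mul_left
    have a : ∀ q, (fib pos q \ Win s (b x.1 x.2) (4 * n₁) (γ x)).card + n₁ ≤ n := by
      intro q
      have a := card_Win_fib hs (b x.1 x.2) n₁
        (fun i hi => no_short hsp (hγ'.2 x).1 _ (by omega)) q
      have c := card_sdiff_add_card_inter (fib pos q) (Win s (b x.1 x.2) (4 * n₁) (γ x))
      rw [inter_comm, hfib] at c
      omega
    have hle : n₁ ≤ n := le_trans (Nat.le_add_left _ _) (a 0)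
    have c := prod_le_pow_card (univ.erase g₀)
      (fun g => (fib pos (τ (Sum.inr (Sum.inr g))) \ Win s (b x.1 x.2) (4 * n₁) (γ x)).card)
      (n - n₁) (fun g _ => by have := a (τ (Sum.inr (Sum.inr g))); omega)
    rw [card_erase_of_mem (mem_univ _), card_univ, Fintype.card_fin] at c
    refine (Nat.mul_le_mul_right _ c).trans ?_
    have d := pow_add_mul_le_add_pow (a := n - n₁) (b := n₁) (Nat.zero_le _) (Nat.zero_le _) k
    rw [Nat.sub_add_cancel hle] at d
    rw [← pow_succ, Nat.sub_add_cancel hk]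
    refine le_trans ?_ d
    rw [Nat.cast_id, mul_left_comm, ← mul_assoc]
    exact Nat.le_add_left _ _
  have h1 := (card_le_card hcov).trans ((card_union_le _ _).trans
    (Nat.add_le_add_left ((card_union_le _ _).trans
      (Nat.add_le_add card_biUnion_le card_biUnion_le)) _))
  have h2 : 4 * ∑ g ∈ univ.erase g₀, ((Fintype.piFinset A).filter (fun β => β g ∈ B g β)).card ≤
      (Fintype.piFinset A).card := by
    apply Nat.le_of_mul_le_mul_right _ hn0
    rw [mul_assoc, sum_mul]
    refine (Nat.mul_le_mul_left 4 (sum_le_sum hbad1)).trans ?_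
    rw [sum_const, smul_eq_mul, card_erase_of_mem (mem_univ _), card_univ, Fintype.card_fin]
    refine le_trans ?_ (Nat.mul_le_mul_left _ c1)
    rw [mul_left_comm (Fintype.piFinset A).card, ← mul_assoc]
    apply Nat.mul_le_mul_right
    omega
  have h3 : 4 * ∑ x, (M x).card ≤ (Fintype.piFinset A).card := by
    apply Nat.le_of_mul_le_mul_right _ (Nat.mul_pos hk hn1)
    rw [mul_assoc, sum_mul]
    refine (Nat.mul_le_mul_left 4 (sum_le_sum (fun x _ => hbad2 x))).trans ?_
    rw [sum_const, smul_eq_mul, card_univ, hI']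
    refine le_trans (le_of_eq ?_) (Nat.mul_le_mul_left _ c2)
    ring
  have h4 := Nat.mul_le_mul_right (n ^ (k - 1)) hA₀c
  rw [← hpi] at h4
  omega

end Pool.Agent.MP_755159_pr

end

section

/-! Overlap estimates for two placements. -/

set_option linter.unusedSectionVars false

namespace Pool.Agent.MP_755159_pr

open Finset

variable {V : Type} [Fintype V] [DecidableEq V] {R T k : ℕ}

/-- valid configurations -/
structure Val (pos : V → Fin 4) (s : Equiv.Perm V) (sp : Fin R → V) (b : Bits R T)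
    (τ : Cut R T k → Fin 4) (t : Cut R T k → V) (p : End R T k → End R T k) : Prop where
  hsp : ∀ r, t (Sum.inl r) = sp r
  hpos : ∀ j, pos (t j) = τ j
  sep : Sep s t
  tp : IsTP (tyE τ) (XX b) p
  chn : ∀ e, e ∉ XX b → tyE τ (ch b e) = tyE τ e + 2
  ac : Acyc (XX b) kap p

lemma card_End {K : ℕ} (hK : K = R + 2 * R * (T + 1) + k) : Fintype.card (End R T k) = 2 * K := by
  simp [hK]; ring

lemma half_TP {D : Type} [Fintype D] [DecidableEq D] {ty : D → Fin 4} {X : Finset D} {P : D → D}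
    (h : IsTP ty X P) : ∃ S ⊆ X, (∀ x ∈ S, P x ∉ S) ∧ (∀ x ∈ X, x ∈ S ∨ P x ∈ S) ∧
      2 * S.card ≤ X.card ∧ S.card = cnt ty X 0 + cnt ty X 1 := by
  have h1 : ∀ x ∈ X.filter (fun d => ty d = 0 ∨ ty d = 1),
      P x ∉ X.filter (fun d => ty d = 0 ∨ ty d = 1) := by
    intro x hx hx'
    rw [mem_filter] at hx hx'
    have q : ∀ q : Fin 4, q = 0 ∨ q = 1 → ¬ (q + 2 = 0 ∨ q + 2 = 1) := by decide
    exact q _ hx.2 ((h.2 x hx.1).2.2 ▸ hx'.2)
  refine ⟨X.filter (fun d => ty d = 0 ∨ ty d = 1), filter_subset _ _, h1, ?_, ?_, ?_⟩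
  · intro x hx
    simp only [mem_filter, hx, (h.2 x hx).1, (h.2 x hx).2.2, true_and]
    generalize ty x = q
    revert q; decide
  · have a := card_sdiff_add_card_eq_card (filter_subset (fun d => ty d = 0 ∨ ty d = 1) X)
    have c : (X.filter (fun d => ty d = 0 ∨ ty d = 1)).card ≤
        (X \ X.filter (fun d => ty d = 0 ∨ ty d = 1)).card := by
      apply card_le_card_of_injOn P
      · intro x hx
        exact mem_coe.mpr (mem_sdiff.mpr ⟨(h.2 x (mem_filter.mp hx).1).1, h1 x hx⟩)
      · intro x hx y hy e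
        rw [← (h.2 x (mem_filter.mp hx).1).2.1, e, (h.2 y (mem_filter.mp hy).1).2.1]
    omega
  · rw [filter_or, card_union_of_disjoint]
    · rfl
    · rw [disjoint_filter]; intro x _ e; rw [e]; decide

lemma loc_eq_iff (s : Equiv.Perm V) (t t' : Cut R T k → V) (e : End R T k) :
    loc s t e = loc s t' e ↔ t e.1 = t' e.1 := by
  unfold loc; split_ifs <;> simp

lemma Rl_Loc (pos : V → Fin 4) (s : Equiv.Perm V) (t : Cut R T k → V)
    (P : End R T k → End R T k) : Loc pos (univ.image (loc s t)) (Rl s t P) := by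
  constructor
  · intro m _ h a ha
    obtain ⟨e, -, rfl⟩ := mem_image.mp ha
    rw [h e]
    exact mem_image_of_mem _ (mem_univ _)
  · intro m m' h h' e
    rw [h' _ (mem_image_of_mem _ (mem_univ _)), h e]

section
variable {pos : V → Fin 4} {n : ℕ} (hn : ∀ q, cnt pos univ q = n) {s : Equiv.Perm V}
  (hs : ∀ v, pos (s v) = pos v + 1) {sp : Fin R → V} {K : ℕ} (hK : K = R + 2 * R * (T + 1) + k)
include hn hs hK

theorem first_moment {b : Bits R T} {τ : Cut R T k → Fin 4} {t : Cut R T k → V}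
    {p : End R T k → End R T k} (h : Val pos s sp b τ t p) (hn0 : 0 < n) :
    (TP pos univ).card ≤ n ^ K * (Ext pos (Rl s t (PP b p))).card := by
  have hP := PP_isTP h.tp h.chn
  have hinj := loc_inj hs h.sep
  obtain ⟨S, -, a, c, d, -⟩ := half_TP hP
  rw [card_univ, card_End hK] at d
  refine (Ext_down_iter hn (loc s t) (fun e => loc s t (PP b p e)) S ?_ ?_).trans
    (Nat.mul_le_mul (Nat.pow_le_pow_right hn0 (by omega)) (Ext_congr ?_))
  · intro x _
    rw [pos_loc hs h.hpos, pos_loc hs h.hpos, hP.pos_eq]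
  · intro x hx y hy hxy
    refine ⟨fun e => hxy (hinj e), fun e => a y hy (hinj e ▸ hx), fun e => hxy (hP.inj (hinj e))⟩
  · intro m hm hS e
    rcases c e (mem_univ _) with h' | h'
    · exact hS e h'
    · have := hS _ h'
      rw [hP.invol] at this
      rw [← this, hm.invol]

theorem removal {Q : (V → V) → Prop} {A : Finset V} (hQ : Loc pos A Q) (hA : A.card ≤ 2 * K)
    {t : Cut R T k → V} (hsep : Sep s t) (P : End R T k → End R T k) (D : Finset (End R T k))
    (h1 : ∀ x ∈ D, loc s t x ∉ A) (h2 : ∀ x ∈ D, P x ∉ D) :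
    (Ext pos (fun m => Q m ∧ Rl s t P m)).card * (n - 10 * K) ^ D.card ≤
      (Ext pos (fun m => Q m ∧
        ∀ e, e ∉ D → P e ∉ D → m (loc s t e) = loc s t (P e))).card := by
  have hinj := loc_inj hs hsep
  obtain ⟨S, hS⟩ : ∃ S : Finset (End R T k), ∀ e, e ∈ S ↔ e ∉ D ∧ P e ∉ D := by
    classical
    exact ⟨univ.filter (fun e => e ∉ D ∧ P e ∉ D), by simp⟩
  have := Ext_up_iter hn (hQ.add S (loc s t) (fun e => loc s t (P e))) (loc s t)
    (fun e => loc s t (P e)) (10 * K) D ?_ ?_ ?_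
  · refine le_trans (Nat.mul_le_mul_right _ (Ext_congr ?_)) (this.trans (Ext_congr ?_))
    · intro m _ h
      exact ⟨⟨h.1, fun x _ => h.2 x⟩, fun x _ => h.2 x⟩
    · intro m _ h
      exact ⟨h.1, fun e a c => h.2 e (by simp [hS, a, c])⟩
  · intro x hx
    simp only [mem_union, mem_image, not_or, not_exists, not_and, hS]
    exact ⟨h1 x hx, fun y hy e => hy.1 (hinj e ▸ hx), fun y hy e => hy.2 (hinj e ▸ hx)⟩
  · intro x hx y hy hxy
    exact ⟨fun e => hxy (hinj e), fun e => h2 y hy (hinj e ▸ hx)⟩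
  · have a := card_union_le A (S.image (loc s t) ∪ S.image (fun e => loc s t (P e)))
    have b := card_union_le (S.image (loc s t)) (S.image (fun e => loc s t (P e)))
    have c := card_image_le (s := S) (f := loc s t)
    have d := card_image_le (s := S) (f := fun e => loc s t (P e))
    have e := card_le_univ S
    have f := card_le_univ D
    rw [card_End hK] at e f
    omega

theorem untouched {Q : (V → V) → Prop} {A : Finset V} (hQ : Loc pos A Q) (hA : A.card ≤ 2 * K)
    {b : Bits R T} {τ : Cut R T k → Fin 4} {t : Cut R T k → V}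
    {p : End R T k → End R T k} (h : Val pos s sp b τ t p) {E : ℕ}
    (hE : ∀ q, cnt (tyE τ) (XX b) q = E) (h1 : ∀ x ∈ XX b, loc s t x ∉ A) :
    (Ext pos (fun m => Q m ∧ Rl s t (PP b p) m)).card * (n - 10 * K) ^ (2 * E) ≤
      (Ext pos (fun m => Q m ∧ ∀ e, e ∉ XX b → m (loc s t e) = loc s t (ch b e))).card := by
  obtain ⟨S, hS, a, -, -, d⟩ := half_TP h.tp
  rw [hE, hE, ← two_mul] at d
  rw [← d]
  refine (removal hn hs hK hQ hA h.sep (PP b p) S (fun x hx => h1 x (hS hx)) ?_).trans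
    (Ext_congr ?_)
  · intro x hx
    rw [PP_of_mem p (hS hx)]
    exact a x hx
  · intro m _ hm
    refine ⟨hm.1, fun e he => ?_⟩
    have := hm.2 e (fun h => he (hS h))
    rw [PP_of_notMem h.tp he] at this
    exact this (fun h => ch_notMem he (hS h))

end

lemma chain_prefix {s : Equiv.Perm V} {t t' : Cut R T k → V}
    (h0 : ∀ r, t (Sum.inl r) = t' (Sum.inl r)) {b b' : Bits R T} {m : V → V} (i : Chn R)
    (d : Fin (T + 1)) (hb : ∀ l < d, b i l = b' i l)
    (h1 : ∀ l ≤ d, m (loc s t (ch b (ye b i l))) = loc s t (ye b i l))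
    (h2 : ∀ l ≤ d, m (loc s t' (ch b' (ye b' i l))) = loc s t' (ye b' i l)) :
    ∀ l ≤ d, loc s t (ye b i l) = loc s t' (ye b' i l) := by
  intro l
  induction l using Fin.induction with
  | zero =>
    intro h
    rw [← h1 _ h, ← h2 _ h, ch_ye_zero, ch_ye_zero, (loc_eq_iff s t t' _).mpr (h0 _)]
  | succ l ih =>
    intro h
    have hl : l.castSucc < d := lt_of_lt_of_le Fin.castSucc_lt_succ h
    rw [← h1 _ h, ← h2 _ h, ch_ye_succ, ch_ye_succ, ← fl_ye, ← fl_ye, loc_fl, loc_fl, ih hl.le]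
    simp only [ye, hb _ hl]

lemma chain_edge {s : Equiv.Perm V} {t : Cut R T k → V} {b : Bits R T} {m : V → V}
    {e : End R T k} (h : m (loc s t (ch b e)) = loc s t (ch b (ch b e))) :
    m (loc s t (ch b e)) = loc s t e := by rwa [ch_ch] at h

lemma unique_gamma {s : Equiv.Perm V} {sp : Fin R → V} {b : Bits R T} {m : V → V}
    {γ γ' : Chn R × Fin (T + 1) → V} {β β' : Fin k → V}
    (h : ∀ e, e ∉ XX b → m (loc s (tl sp γ β) e) = loc s (tl sp γ β) (ch b e))
    (h' : ∀ e, e ∉ XX b → m (loc s (tl sp γ' β') e) = loc s (tl sp γ' β') (ch b e)) : γ = γ' := by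
  funext ⟨i, l⟩
  have := chain_prefix (s := s) (t := tl sp γ β) (t' := tl sp γ' β') (fun _ => rfl) (b := b)
    (b' := b) (m := m) i l (fun _ _ => rfl)
    (fun l _ => chain_edge (h _ (ch_notMem (ye_notMem b i l))))
    (fun l _ => chain_edge (h' _ (ch_notMem (ye_notMem b i l)))) l le_rfl
  exact (loc_eq_iff _ _ _ _).mp this

theorem crude {pos : V → Fin 4} {s : Equiv.Perm V} {sp : Fin R → V} (Q : (V → V) → Prop)
    {b : Bits R T} {τ : Cut R T k → Fin 4} {p : End R T k → End R T k} {ι : Type}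
    (S : Finset ι) (t : ι → Cut R T k → V) (hinj : Set.InjOn t S)
    (h : ∀ i ∈ S, Val pos s sp b τ (t i) p) :
    ∑ i ∈ S, (Ext pos (fun m => Q m ∧ Rl s (t i) (PP b p) m)).card ≤ (Ext pos Q).card := by
  classical
  refine (sum_card_le_mul S _ (Ext pos Q) 1 ?_ ?_).trans (by simp)
  · intro i _ m hm
    rw [mem_Ext] at hm ⊢
    exact ⟨hm.1, hm.2.1⟩
  · intro m _
    rw [card_le_one]
    intro i hi i' hi'
    rw [mem_filter, mem_Ext] at hi hi'
    apply hinj hi.1 hi'.1
    by_contra hcon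
    obtain ⟨j, hj⟩ := Function.ne_iff.mp hcon
    obtain ⟨r, hr⟩ := full_acyc (h i hi.1).tp (h i hi.1).ac
      (univ.filter (fun e => t i e.1 ≠ t i' e.1)) ⟨(j, true), by simpa using hj⟩
      (by intro e he; simpa [fl] using he) (by
        intro e he
        simp only [mem_filter, mem_univ, true_and] at he ⊢
        intro e'
        apply he
        rw [← loc_eq_iff s] at e' ⊢
        apply hi.2.1.inj
        rw [hi.2.2.2 e, hi'.2.2.2 e, e'])
    simp only [mem_filter, mem_univ, true_and, se] at hr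
    exact hr (by rw [(h i hi.1).hsp, (h i' hi'.1).hsp])

/-- ends beyond the points of divergence -/
def inZ (b : Bits R T) (d : Chn R → Fin (T + 1)) : End R T k → Prop
  | (Sum.inl _, _) => False
  | (Sum.inr (Sum.inl (i, l)), c) => d i < l ∨ (l = d i ∧ c = !b i l)
  | (Sum.inr (Sum.inr _), _) => True

open Classical in
/-- ends beyond the points of divergence -/
noncomputable def ZZ (b : Bits R T) (d : Chn R → Fin (T + 1)) : Finset (End R T k) :=
  univ.filter (inZ b d)

lemma mem_ZZ {b : Bits R T} {d : Chn R → Fin (T + 1)} {e : End R T k} :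
    e ∈ ZZ b d ↔ inZ b d e := by simp [ZZ]

@[simp] lemma se_ZZ {b : Bits R T} {d : Chn R → Fin (T + 1)} (i : Chn R) :
    (se i : End R T k) ∉ ZZ b d := by simp [mem_ZZ, se, inZ]

@[simp] lemma ye_ZZ {b : Bits R T} {d : Chn R → Fin (T + 1)} (i : Chn R) (l : Fin (T + 1)) :
    (ye b i l : End R T k) ∈ ZZ b d ↔ d i < l := by simp [mem_ZZ, ye, inZ]

@[simp] lemma xo_ZZ {b : Bits R T} {d : Chn R → Fin (T + 1)} (i : Chn R) (l : Fin (T + 1)) :
    (xo b i l : End R T k) ∈ ZZ b d ↔ d i ≤ l := by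
  simp only [mem_ZZ, xo, inZ, and_true]
  rw [le_iff_lt_or_eq, eq_comm]

@[simp] lemma gn_ZZ {b : Bits R T} {d : Chn R → Fin (T + 1)} (g : Fin k) (c : Bool) :
    (gn g c : End R T k) ∈ ZZ b d := by simp [mem_ZZ, gn, inZ]

lemma XX_sub_ZZ (b : Bits R T) (d : Chn R → Fin (T + 1)) :
    (XX b : Finset (End R T k)) ⊆ ZZ b d := by
  intro e he
  rcases mem_XX_cases he with ⟨i, rfl⟩ | ⟨g, c, rfl⟩
  · simpa using Fin.le_last _
  · simp

lemma ch_ZZ {b : Bits R T} {d : Chn R → Fin (T + 1)} {e : End R T k} :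
    e ∈ ZZ b d → ch b e ∈ ZZ b d := by
  induction e using End.cases6 b <;> simp [Fin.le_castSucc_iff]

lemma PP_ZZ {b : Bits R T} {d : Chn R → Fin (T + 1)} {ty : End R T k → Fin 4}
    {p : End R T k → End R T k} (hp : IsTP ty (XX b) p) {e : End R T k} (he : e ∈ ZZ b d) :
    PP b p e ∈ ZZ b d := by
  by_cases h : e ∈ XX b
  · rw [PP_of_mem p h]
    exact XX_sub_ZZ b d (hp.2 e h).1
  · rw [PP_of_notMem hp h]
    exact ch_ZZ he

lemma fl_ZZ {b : Bits R T} {d : Chn R → Fin (T + 1)} {e : End R T k} :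
    e ∈ ZZ b d → fl e ∉ ZZ b d → ∃ i, e = xo b i (d i) := by
  induction e using End.cases4 b with
  | h1 i => simp
  | h2 i l => simp only [ye_ZZ, fl_ye, xo_ZZ]; intro a c; exact absurd a.le c
  | h3 i l =>
    simp only [xo_ZZ, fl_xo, ye_ZZ, not_lt]
    intro a c
    exact ⟨i, by rw [le_antisymm a c]⟩
  | h4 g c => simp

theorem touched_exists {pos : V → Fin 4} {s : Equiv.Perm V} (hs : ∀ v, pos (s v) = pos v + 1)
    {sp : Fin R → V} {b b' : Bits R T} {τ τ' : Cut R T k → Fin 4} {t t' : Cut R T k → V}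
    {p p' : End R T k → End R T k} (h : Val pos s sp b τ t p) (h' : Val pos s sp b' τ' t' p')
    {d : Chn R → Fin (T + 1)} (hd : ∀ i, b i (d i) ≠ b' i (d i))
    (hd' : ∀ i, ∀ l < d i, b i l = b' i l) {m : V → V} (hr : Rl s t (PP b p) m)
    (hr' : Rl s t' (PP b' p') m) (hx : ∃ x ∈ XX b', loc s t' x ∈ univ.image (loc s t)) :
    (∀ i, loc s t' (xo b' i (d i)) ∉ univ.image (loc s t)) ∧
    ∃ u, u ∈ ZZ b' d ∧ fl u ∈ ZZ b' d ∧ loc s t' u ∈ univ.image (loc s t) ∧
      loc s t' (fl u) ∉ univ.image (loc s t) := by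
  have hz : ∀ i, loc s t' (xo b' i (d i)) ∉ univ.image (loc s t) := by
    intro i hi
    obtain ⟨e, -, he⟩ := mem_image.mp hi
    have := chain_prefix (s := s) (t := t) (t' := t') (fun r => by rw [h.hsp, h'.hsp]) (b := b)
      (b' := b') (m := m) i (d i) (hd' i)
      (fun l _ => chain_edge (by
        rw [hr, PP_of_notMem h.tp (ch_notMem (ye_notMem b i l))]))
      (fun l _ => chain_edge (by
        rw [hr', PP_of_notMem h'.tp (ch_notMem (ye_notMem b' i l))])) (d i) le_rfl
    rw [← fl_ye, loc_fl, ← this] at he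
    have hb : (!(ye b' i (d i) : End R T k).2) = (ye b i (d i) : End R T k).2 := by
      simp only [ye]
      exact (Bool.eq_not_iff.mpr (hd i)).symm
    rw [hb] at he
    exact away_ne hs h.sep _ _ he.symm
  refine ⟨hz, ?_⟩
  by_contra hcon
  push Not at hcon
  obtain ⟨x, hx, hx'⟩ := hx
  obtain ⟨i, hi⟩ := full_acyc h'.tp h'.ac
    ((ZZ b' d).filter (fun e => loc s t' e ∈ univ.image (loc s t)))
    ⟨x, mem_filter.mpr ⟨XX_sub_ZZ b' d hx, hx'⟩⟩ (by
      intro e he
      rw [mem_filter] at he ⊢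
      have : fl e ∈ ZZ b' d := by
        by_contra hc
        obtain ⟨i, rfl⟩ := fl_ZZ he.1 hc
        exact hz i he.2
      exact ⟨this, hcon e he.1 this he.2⟩) (by
      intro e he
      rw [mem_filter] at he ⊢
      refine ⟨PP_ZZ h'.tp he.1, ?_⟩
      obtain ⟨e', -, he'⟩ := mem_image.mp he.2
      rw [← hr', ← he', hr]
      exact mem_image_of_mem _ (mem_univ _))
  exact se_ZZ i (mem_filter.mp hi).1

theorem touched_sum {pos : V → Fin 4} {n : ℕ} (hn : ∀ q, cnt pos univ q = n) {s : Equiv.Perm V}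
    (hs : ∀ v, pos (s v) = pos v + 1) {sp : Fin R → V} {K : ℕ} (hK : K = R + 2 * R * (T + 1) + k)
    (hnK : 10 * K < n)
    {Q : (V → V) → Prop} {A : Finset V} (hQ : Loc pos A Q) (hA : A.card ≤ 2 * K)
    {b : Bits R T} {τ : Cut R T k → Fin 4} {p : End R T k → End R T k}
    (d : Chn R → Fin (T + 1)) {u : End R T k} (hu : u ∈ ZZ b d) (hu' : fl u ∈ ZZ b d) {ι : Type}
    (S : Finset ι) (t : ι → Cut R T k → V) (hinj : Set.InjOn t S)
    (h : ∀ i ∈ S, Val pos s sp b τ (t i) p) (h1 : ∀ i ∈ S, ∀ x, loc s (t i) (xo b x (d x)) ∉ A)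
    (h2 : ∀ i ∈ S, loc s (t i) u ∈ A) (h3 : ∀ i ∈ S, loc s (t i) (fl u) ∉ A) :
    (∑ i ∈ S, (Ext pos (fun m => Q m ∧ Rl s (t i) (PP b p) m)).card) * (n - 10 * K) ^ (R + 1) ≤
      2 * K * (Ext pos Q).card := by
  classical
  rcases S.eq_empty_or_nonempty with rfl | ⟨i₀, hi₀⟩
  · simp
  have hp := (h i₀ hi₀).tp
  have hP := PP_isTP hp (h i₀ hi₀).chn
  obtain ⟨kz, hkz⟩ : ∃ kz : End R T k → End R T k,
    kz = fun e => if fl e ∈ ZZ b d ∧ e.1 ≠ u.1 then fl e else e := ⟨_, rfl⟩
  have hk1 : ∀ e, fl e ∈ ZZ b d → e.1 ≠ u.1 → kz e = fl e := by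
    intro e a c; simp [hkz, a, c]
  have hk2 : ∀ e, kz e = e ∨ kz e = fl e := by
    intro e; simp only [hkz]; split_ifs <;> simp
  obtain ⟨D, hDZ, hDk, huD, hDc, hD⟩ := exists_transversal (ZZ b d) (PP b p) kz
    (fun x hx => ⟨PP_ZZ hp hx, hP.invol x⟩) (fun x _ => (ne_of_ty (hP.pos_eq x)).symm)
    (by
      intro x hx
      by_cases hc : fl x ∈ ZZ b d ∧ x.1 ≠ u.1
      · rw [hk1 x hc.1 hc.2, hk1 (fl x) (by simpa using hx) hc.2]
        exact ⟨hc.1, fl_fl x⟩
      · have : kz x = x := by simp only [hkz, if_neg hc]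
        rw [this, this]
        exact ⟨hx, rfl⟩)
    (by
      intro U hUZ hne a c
      by_contra hcon
      push Not at hcon
      obtain ⟨i, hi⟩ := full_acyc hp (h i₀ hi₀).ac U hne
        (fun e he => ((hk2 e).resolve_left (hcon e he)) ▸ a e he) c
      exact se_ZZ i (hUZ hi)) u
  have hDR : R + 1 ≤ D.card := by
    have hsub : insert u (insert (fl u) (univ.image (fun x => xo b x (d x)))) ⊆
        (ZZ b d).filter (fun x => kz x = x) := by
      intro e he
      simp only [mem_insert, mem_image, mem_univ, true_and] at he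
      rw [mem_filter]
      rcases he with rfl | rfl | ⟨x, rfl⟩
      · exact ⟨hu, by simp [hkz]⟩
      · exact ⟨hu', by simp [hkz, fl]⟩
      · exact ⟨by simp, by simp [hkz]⟩
    have := card_le_card hsub
    rw [card_insert_of_notMem, card_insert_of_notMem, card_image_of_injective, card_univ,
      Fintype.card_prod, Fintype.card_fin, Fintype.card_bool] at this
    · omega
    · intro x y e
      simp only [xo, Prod.mk.injEq, Sum.inr.injEq, Sum.inl.injEq] at e
      exact e.1.1
    · intro he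
      obtain ⟨x, -, e⟩ := mem_image.mp he
      rw [← fl_fl u, ← e] at hu
      simp at hu
    · intro he
      rcases mem_insert.mp he with e | he
      · exact fl_ne u e.symm
      · obtain ⟨x, -, e⟩ := mem_image.mp he
        rw [← e] at hu'
        simp at hu'
  have hDP : ∀ x ∈ D, PP b p x ∉ D := by
    intro x hx hx'
    obtain ⟨y, hy, -, hy'⟩ := hD {x, PP b p x} (by
        intro y hy
        simp only [mem_insert, mem_singleton] at hy
        rcases hy with rfl | rfl
        · exact hDZ hx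
        · exact hDZ hx') ⟨x, by simp⟩ (by
        intro y hy
        simp only [mem_insert, mem_singleton] at hy ⊢
        rcases hy with rfl | rfl
        · exact Or.inl (hDk _ hx)
        · exact Or.inr (hDk _ hx')) (by
        intro y hy
        simp only [mem_insert, mem_singleton] at hy ⊢
        rcases hy with rfl | rfl
        · exact Or.inr rfl
        · exact Or.inl (hP.invol _))
    simp only [mem_insert, mem_singleton] at hy
    rcases hy with rfl | rfl
    · exact hy' hx
    · exact hy' hx'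
  have hDA : ∀ i ∈ S, ∀ x ∈ D, loc s (t i) x ∉ A := by
    intro i hi x hx
    by_cases c1 : fl x ∈ ZZ b d
    · by_cases c2 : x.1 = u.1
      · have : x = fl u := by
          have hne : x ≠ u := fun e => huD (e ▸ hx)
          refine Prod.ext c2 (Bool.eq_not_iff.mpr fun e => hne (Prod.ext c2 e))
        rw [this]; exact h3 i hi
      · exact absurd ((hk1 x c1 c2).symm.trans (hDk x hx)) (fl_ne x)
    · obtain ⟨y, rfl⟩ := fl_ZZ (hDZ hx) c1
      exact h1 i hi y
  rw [sum_mul]
  refine le_trans (sum_le_sum (fun i hi => le_trans (Nat.mul_le_mul_left _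
    (Nat.pow_le_pow_right (by omega) hDR))
    (removal hn hs hK hQ hA (h i hi).sep (PP b p) D (hDA i hi) hDP))) ?_
  refine sum_card_le_mul S _ (Ext pos Q) _ ?_ ?_
  · intro i _ m hm
    rw [mem_Ext] at hm ⊢
    exact ⟨hm.1, hm.2.1⟩
  · intro m _
    refine le_trans (card_le_card_of_injOn (fun i => loc s (t i) u) ?_ ?_) hA
    · intro i hi
      exact h2 i (mem_filter.mp hi).1
    · intro i hi i' hi' huu
      simp only [coe_filter, Set.mem_ofPred_eq, mem_Ext] at hi hi'
      apply hinj hi.1 hi'.1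
      by_contra hcon
      obtain ⟨j, hj⟩ := Function.ne_iff.mp hcon
      have hedge : ∀ i ∈ S, (∀ e, e ∉ D → PP b p e ∉ D →
          m (loc s (t i) e) = loc s (t i) (PP b p e)) → ∀ x, ∀ l ≤ d x,
          m (loc s (t i) (ch b (ye b x l))) = loc s (t i) (ye b x l) := by
        intro i _ hm x l hl
        have a : (ye b x l : End R T k) ∉ ZZ b d := by simpa using hl
        have c : PP b p (ch b (ye b x l)) = ye b x l := by
          rw [PP_of_notMem hp (ch_notMem (ye_notMem b x l)), ch_ch]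
        have := hm (ch b (ye b x l)) (fun h => a (by simpa [ch_ch] using ch_ZZ (hDZ h)))
          (fun h => a (c ▸ hDZ h))
        rwa [c] at this
      have hU : ∀ e : End R T k, t i e.1 ≠ t i' e.1 → e ∈ ZZ b d ∧ kz e = fl e := by
        have hpre : ∀ x l, t i (Sum.inr (Sum.inl (x, l))) ≠ t i' (Sum.inr (Sum.inl (x, l))) →
            d x < l := by
          intro x l hne
          by_contra hc
          exact hne ((loc_eq_iff _ _ _ _).mp (chain_prefix (s := s) (t := t i) (t' := t i')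
            (fun r => by rw [(h i hi.1).hsp, (h i' hi'.1).hsp]) (b := b) (b' := b) (m := m) x (d x)
            (fun _ _ => rfl) (hedge i hi.1 hi.2.2.2 x) (hedge i' hi'.1 hi'.2.2.2 x) l
            (not_lt.mp hc)))
        have hZ : ∀ e : End R T k, t i e.1 ≠ t i' e.1 → e ∈ ZZ b d := by
          intro e
          induction e using End.cases4 b with
          | h1 x => intro hne; exact absurd (by rw [se, (h i hi.1).hsp, (h i' hi'.1).hsp]) hne
          | h2 x l => intro hne; simpa using hpre x l hne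
          | h3 x l => intro hne; simpa using (hpre x l hne).le
          | h4 g c => simp
        intro e he
        refine ⟨hZ e he, hk1 e (hZ (fl e) he) ?_⟩
        intro e'
        rw [e'] at he
        exact he ((loc_eq_iff _ _ _ _).mp huu)
      obtain ⟨x, hx, hx1, hx2⟩ := hD (univ.filter (fun e => t i e.1 ≠ t i' e.1) ∪
          D.filter (fun x => t i (PP b p x).1 ≠ t i' (PP b p x).1)) (by
          intro e he
          simp only [mem_union, mem_filter, mem_univ, true_and] at he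
          rcases he with he | he
          · exact (hU e he).1
          · exact hDZ he.1) ⟨(j, true), by simp [hj]⟩ (by
          intro e he
          simp only [mem_union, mem_filter, mem_univ, true_and] at he ⊢
          rcases he with he | he
          · rw [(hU e he).2]; exact Or.inl he
          · rw [hDk e he.1]; exact Or.inr he) (by
          intro e he
          simp only [mem_union, mem_filter, mem_univ, true_and] at he ⊢
          rcases he with he | he
          · by_cases hc : PP b p e ∈ D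
            · exact Or.inr ⟨hc, by rwa [hP.invol]⟩
            · left
              have heD : e ∉ D := fun h => fl_ne e ((hU e he).2.symm.trans (hDk e h))
              intro e'
              apply he
              rw [← loc_eq_iff s] at e' ⊢
              apply hi.2.1.inj
              rw [hi.2.2.2 e heD hc, hi'.2.2.2 e heD hc, e']
          · exact Or.inl he.2)
      simp only [mem_union, mem_filter, mem_univ, true_and] at hx
      rcases hx with hx | hx
      · exact fl_ne x ((hU x hx).2.symm.trans hx1)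
      · exact hx2 hx.1

end Pool.Agent.MP_755159_pr

end
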