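import Mathlib

section

/-! Typed pairings of a finite set, and a lower bound for the number of pairings that are
connected with respect to one involution and acyclic with respect to another. -/

set_option linter.unusedSectionVars false

namespace Pool.Agent.MP_755159_pr

open Finset

variable {D : Type} [Fintype D] [DecidableEq D]

/-- pairings of `X` joining type `q` with type `q + 2` -/
def IsTP (ty : D → Fin 4) (X : Finset D) (p : D → D) : Prop :=
  (∀ d, d ∉ X → p d = d) ∧ ∀ d ∈ X, p d ∈ X ∧ p (p d) = d ∧ ty (p d) = ty d + 2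

open Classical in
/-- the set of typed pairings -/
noncomputable def TP (ty : D → Fin 4) (X : Finset D) : Finset (D → D) := univ.filter (IsTP ty X)

lemma mem_TP {ty : D → Fin 4} {X : Finset D} {p : D → D} : p ∈ TP ty X ↔ IsTP ty X p := by
  simp only [TP, mem_filter, mem_univ, true_and]

/-- number of elements of a type -/
def cnt (ty : D → Fin 4) (X : Finset D) (q : Fin 4) : ℕ := (X.filter (fun d => ty d = q)).card

/-- add a pair -/
def ins (e e' : D) (p : D → D) : D → D := fun d => if d = e then e' else if d = e' then e else p d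

/-- remove two points -/
def rem (X : Finset D) (e e' : D) : Finset D := (X.erase e).erase e'

@[simp] lemma mem_rem {X : Finset D} {e e' x : D} : x ∈ rem X e e' ↔ x ∈ X ∧ x ≠ e ∧ x ≠ e' := by
  simp only [rem, mem_erase]; tauto

lemma card_rem {X : Finset D} {e e' : D} (he : e ∈ X) (he' : e' ∈ X) (h : e ≠ e') :
    (rem X e e').card + 2 = X.card := by
  have h1 : e' ∈ X.erase e := mem_erase.mpr ⟨h.symm, he'⟩
  have h2 := card_erase_add_one h1
  have h3 := card_erase_add_one he
  unfold rem; omega

lemma cnt_rem {ty : D → Fin 4} {X : Finset D} {e e' : D} (he : e ∈ X) (he' : e' ∈ X) (h : e ≠ e')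
    (q : Fin 4) : cnt ty (rem X e e') q + ((if ty e = q then 1 else 0) +
      (if ty e' = q then 1 else 0)) = cnt ty X q := by
  have h1 : e' ∈ X.erase e := mem_erase.mpr ⟨h.symm, he'⟩
  unfold cnt rem
  simp only [card_filter]
  rw [← add_sum_erase X _ he, ← add_sum_erase (X.erase e) _ h1]
  omega

lemma ne_of_ty {ty : D → Fin 4} {e e' : D} (h : ty e' = ty e + 2) : e ≠ e' := by
  rintro rfl
  revert h
  generalize ty e = q
  revert q; decide

lemma add_two_two (q : Fin 4) : q + 2 + 2 = q := by revert q; decide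

lemma IsTP.ins {ty : D → Fin 4} {X : Finset D} {e e' : D} (he : e ∈ X) (he' : e' ∈ X)
    (h : ty e' = ty e + 2) {p : D → D} (hp : IsTP ty (rem X e e') p) : IsTP ty X (ins e e' p) := by
  have hne := ne_of_ty h
  constructor
  · intro d hd
    have h1 : d ≠ e := fun h => hd (h ▸ he)
    have h2 : d ≠ e' := fun h => hd (h ▸ he')
    simp only [MP_755159_pr.ins, h1, h2, if_false]
    exact hp.1 d (by simp [hd])
  · intro d hd
    by_cases h1 : d = e
    · subst h1; simp [MP_755159_pr.ins, he', hne.symm, h]
    · by_cases h2 : d = e'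
      · subst h2; simp [MP_755159_pr.ins, he, h1, h, add_two_two]
      · obtain ⟨a, b, c⟩ := hp.2 d (by simp [hd, h1, h2])
        rw [mem_rem] at a
        simp [MP_755159_pr.ins, h1, h2, a, b, c]

theorem card_TP_le (ty : D → Fin 4) (N : ℕ) : ∀ X : Finset D, X.card = N →
    (TP ty X).card ≤ (cnt ty X 2).factorial * (cnt ty X 3).factorial := by
  induction N using Nat.strong_induction_on with
  | _ N ih =>
    intro X hX
    have key : ∀ e ∈ X, (TP ty X).card ≤ ∑ e' ∈ X.filter (fun d => ty d = ty e + 2),
        (cnt ty (rem X e e') 2).factorial * (cnt ty (rem X e e') 3).factorial := by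
      intro e he
      rw [card_eq_sum_card_fiberwise (f := fun p => p e)
        (t := X.filter (fun d => ty d = ty e + 2))]
      · apply sum_le_sum
        intro e' he'
        rw [mem_filter] at he'
        have hne := ne_of_ty he'.2
        refine le_trans ?_ (ih _ (by have := card_rem he he'.1 hne; omega) (rem X e e') rfl)
        apply card_le_card_of_injOn (fun p d => if d = e ∨ d = e' then d else p d)
        · intro p hp
          simp only [coe_filter, Set.mem_ofPred_eq, mem_TP] at hp
          obtain ⟨hp, hpe⟩ := hp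
          have hpe' : p e' = e := by rw [← hpe]; exact (hp.2 e he).2.1
          simp only [mem_coe, mem_TP]
          constructor
          · intro d hd
            by_cases h : d = e ∨ d = e'
            · simp [h]
            · simp only [h, if_false]
              apply hp.1; intro hdX; apply hd; rw [mem_rem]; tauto
          · intro d hd
            rw [mem_rem] at hd
            obtain ⟨a, b, c⟩ := hp.2 d hd.1
            have h1 : p d ≠ e := fun h => hd.2.2 (by rw [← b, h, hpe])
            have h2 : p d ≠ e' := fun h => hd.2.1 (by rw [← b, h, hpe'])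
            simp [hd.2.1, hd.2.2, h1, h2, a, b, c]
        · intro p hp p' hp' h
          simp only [coe_filter, Set.mem_ofPred_eq, mem_TP] at hp hp'
          funext d
          by_cases h1 : d = e
          · rw [h1, hp.2, hp'.2]
          · by_cases h2 : d = e'
            · rw [h2]
              have a : p e' = e := by rw [← hp.2]; exact (hp.1.2 e he).2.1
              have b : p' e' = e := by rw [← hp'.2]; exact (hp'.1.2 e he).2.1
              rw [a, b]
            · simpa [h1, h2] using congrFun h d
      · intro p hp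
        simp only [mem_coe, mem_TP] at hp
        simp only [coe_filter, Set.mem_ofPred_eq]
        exact ⟨(hp.2 e he).1, (hp.2 e he).2.2⟩
    by_cases h0 : ∃ e ∈ X, ty e = 0
    · obtain ⟨e, he, hty⟩ := h0
      refine (key e he).trans ?_
      rw [sum_congr rfl (g := fun _ => (cnt ty X 2 - 1).factorial * (cnt ty X 3).factorial)]
      · rw [sum_const, smul_eq_mul, ← mul_assoc]
        apply Nat.mul_le_mul_right
        have : (X.filter (fun d => ty d = ty e + 2)).card = cnt ty X 2 := by rw [hty]; rfl
        rw [this]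
        rcases Nat.eq_zero_or_pos (cnt ty X 2) with h | h
        · simp [h]
        · exact (Nat.mul_factorial_pred h.ne').le
      · intro e' he'
        rw [mem_filter] at he'
        have h2 := cnt_rem (ty := ty) he he'.1 (ne_of_ty he'.2) 2
        have h3 := cnt_rem (ty := ty) he he'.1 (ne_of_ty he'.2) 3
        rw [he'.2, hty] at h2 h3
        simp at h2 h3
        rw [← h2, h3]; simp
    · by_cases h1 : ∃ e ∈ X, ty e = 1
      · obtain ⟨e, he, hty⟩ := h1
        refine (key e he).trans ?_
        rw [sum_congr rfl (g := fun _ => (cnt ty X 2).factorial * (cnt ty X 3 - 1).factorial)]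
        · rw [sum_const, smul_eq_mul, mul_left_comm]
          apply Nat.mul_le_mul_left
          have : (X.filter (fun d => ty d = ty e + 2)).card = cnt ty X 3 := by rw [hty]; rfl
          rw [this]
          rcases Nat.eq_zero_or_pos (cnt ty X 3) with h | h
          · simp [h]
          · exact (Nat.mul_factorial_pred h.ne').le
        · intro e' he'
          rw [mem_filter] at he'
          have h2 := cnt_rem (ty := ty) he he'.1 (ne_of_ty he'.2) 2
          have h3 := cnt_rem (ty := ty) he he'.1 (ne_of_ty he'.2) 3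
          rw [he'.2, hty] at h2 h3
          simp at h2 h3
          rw [← h3, h2]; simp
      · refine le_trans ?_ (Nat.mul_pos (Nat.factorial_pos _) (Nat.factorial_pos _))
        rw [card_le_one]
        have hid : ∀ p ∈ TP ty X, p = id := by
          intro p hp
          rw [mem_TP] at hp
          funext d
          apply hp.1
          intro hd
          obtain ⟨a, -, c⟩ := hp.2 d hd
          have q : ∀ q : Fin 4, q = 0 ∨ q = 1 ∨ q + 2 = 0 ∨ q + 2 = 1 := by decide
          rcases q (ty d) with h | h | h | h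
          · exact h0 ⟨d, hd, h⟩
          · exact h1 ⟨d, hd, h⟩
          · exact h0 ⟨_, a, c.trans h⟩
          · exact h1 ⟨_, a, c.trans h⟩
        intro p hp p' hp'
        rw [hid p hp, hid p' hp']

/-- involutions of `X` -/
def Inv (X : Finset D) (t : D → D) : Prop := ∀ x ∈ X, t x ∈ X ∧ t (t x) = x

/-- contraction of an involution along a new pair -/
def ctr (t : D → D) (e e' : D) : D → D := fun x =>
  if t x = e then (if t e' = e' then x else t e')
  else if t x = e' then (if t e = e then x else t e) else t x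

lemma ctr_of_ne {t : D → D} {e e' x : D} (h1 : t x ≠ e) (h2 : t x ≠ e') : ctr t e e' x = t x := by
  simp [ctr, h1, h2]

lemma ctr_left {t : D → D} {e e' x : D} (h1 : t x = e) (h2 : t e' ≠ e') : ctr t e e' x = t e' := by
  simp [ctr, h1, h2]

lemma ctr_left' {t : D → D} {e e' x : D} (h1 : t x = e) (h2 : t e' = e') : ctr t e e' x = x := by
  simp [ctr, h1, h2]

lemma ctr_right {t : D → D} {e e' x : D} (hne : e ≠ e') (h1 : t x = e') (h2 : t e ≠ e) :
    ctr t e e' x = t e := by
  simp [ctr, h1, h2, hne.symm]

lemma Inv.ctr {X : Finset D} {t : D → D} (h : Inv X t) {e e' : D} (he : e ∈ X) (he' : e' ∈ X)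
    (hne : e ≠ e') (ht : t e ≠ e') : Inv (rem X e e') (ctr t e e') := by
  intro x hx
  rw [mem_rem] at hx
  obtain ⟨hx, hxe, hxe'⟩ := hx
  obtain ⟨a1, a2⟩ := h x hx
  obtain ⟨b1, b2⟩ := h e he
  obtain ⟨c1, c2⟩ := h e' he'
  simp only [MP_755159_pr.ctr, mem_rem]
  grind

lemma ctr_closed {X U : Finset D} {t : D → D} (h : Inv X t) {e e' : D} (he : e ∈ X) (he' : e' ∈ X)
    (ht : t e ≠ e') (hUX : U ⊆ X) (hU : ∀ x ∈ U, t x ∈ U) (hee : e ∈ U ↔ e' ∈ U) :
    ∀ x ∈ rem U e e', ctr t e e' x ∈ rem U e e' := by
  intro x hx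
  rw [mem_rem] at hx
  obtain ⟨hx, hxe, hxe'⟩ := hx
  obtain ⟨a1, a2⟩ := h x (hUX hx)
  obtain ⟨b1, b2⟩ := h e he
  obtain ⟨c1, c2⟩ := h e' he'
  have d1 := hU x hx
  have d2 := hU e
  have d3 := hU e'
  simp only [MP_755159_pr.ctr, mem_rem]
  grind

/-- connectedness of the union of two involutions -/
def Conn (X : Finset D) (s p : D → D) : Prop :=
  ∀ U ⊆ X, U.Nonempty → (∀ x ∈ U, s x ∈ U) → (∀ x ∈ U, p x ∈ U) → X ⊆ U

/-- every closed set contains a free end -/
def Acyc (X : Finset D) (k p : D → D) : Prop :=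
  ∀ U ⊆ X, U.Nonempty → (∀ x ∈ U, k x ∈ U) → (∀ x ∈ U, p x ∈ U) → ∃ x ∈ U, k x = x

open Classical in
/-- good pairings -/
noncomputable def GP (ty : D → Fin 4) (X : Finset D) (s k : D → D) : Finset (D → D) :=
  (TP ty X).filter (fun p => Conn X s p ∧ Acyc X k p)

lemma mem_GP {ty : D → Fin 4} {X : Finset D} {s k p : D → D} :
    p ∈ GP ty X s k ↔ IsTP ty X p ∧ Conn X s p ∧ Acyc X k p := by
  simp only [GP, mem_filter, mem_TP]

lemma ins_mem_GP {ty : D → Fin 4} {X : Finset D} {s k p : D → D} (hs : Inv X s)
    (hs' : ∀ x ∈ X, s x ≠ x) (hk : Inv X k) {e e' : D} (he : e ∈ X) (he' : e' ∈ X)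
    (h : ty e' = ty e + 2) (h1 : s e ≠ e') (h2 : k e ≠ e')
    (hp : p ∈ GP ty (rem X e e') (ctr s e e') (ctr k e e')) : ins e e' p ∈ GP ty X s k := by
  rw [mem_GP] at hp ⊢
  obtain ⟨hp, hc, ha⟩ := hp
  have hne := ne_of_ty h
  have hee : ∀ U : Finset D, (∀ x ∈ U, ins e e' p x ∈ U) → (e ∈ U ↔ e' ∈ U) := by
    intro U hU
    constructor
    · intro h; simpa [ins] using hU e h
    · intro h; simpa [ins, hne.symm] using hU e' h
  have hpc : ∀ U ⊆ X, (∀ x ∈ U, ins e e' p x ∈ U) → ∀ x ∈ rem U e e', p x ∈ rem U e e' := by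
    intro U hUX hU x hx
    rw [mem_rem] at hx
    have a := hU x hx.1
    simp only [ins, hx.2.1, hx.2.2, if_false] at a
    have b := (hp.2 x (mem_rem.mpr ⟨hUX hx.1, hx.2⟩)).1
    rw [mem_rem] at b ⊢
    exact ⟨a, b.2⟩
  have hsub : ∀ U ⊆ X, rem U e e' ⊆ rem X e e' := by
    intro U hUX x hx
    rw [mem_rem] at hx ⊢
    exact ⟨hUX hx.1, hx.2⟩
  refine ⟨hp.ins he he' h, ?_, ?_⟩
  · intro U hUX hne' hsU hpU
    have hiff := hee U hpU
    have hse : s e ∈ rem X e e' := mem_rem.mpr ⟨(hs e he).1, hs' e he, h1⟩
    have hU' : (rem U e e').Nonempty := by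
      obtain ⟨x, hx⟩ := hne'
      by_cases hxe : x = e ∨ x = e'
      · have heU : e ∈ U := by
          rcases hxe with rfl | rfl
          · exact hx
          · exact hiff.mpr hx
        exact ⟨s e, mem_rem.mpr ⟨hsU e heU, (mem_rem.mp hse).2⟩⟩
      · exact ⟨x, mem_rem.mpr ⟨hx, by tauto⟩⟩
    have hall := hc _ (hsub U hUX) hU' (ctr_closed hs he he' h1 hUX hsU hiff) (hpc U hUX hpU)
    have heU : e ∈ U := by
      have := hsU _ (mem_rem.mp (hall hse)).1
      rwa [(hs e he).2] at this
    intro x hx
    by_cases hxe : x = e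
    · exact hxe ▸ heU
    · by_cases hxe' : x = e'
      · exact hxe' ▸ hiff.mp heU
      · exact (mem_rem.mp (hall (mem_rem.mpr ⟨hx, hxe, hxe'⟩))).1
  · intro U hUX hne' hkU hpU
    have hiff := hee U hpU
    by_cases hU' : (rem U e e').Nonempty
    · obtain ⟨x, hx, hfix⟩ := ha _ (hsub U hUX) hU' (ctr_closed hk he he' h2 hUX hkU hiff)
        (hpc U hUX hpU)
      rw [mem_rem] at hx
      have a := hkU x hx.1
      obtain ⟨a1, a2⟩ := hk x (hUX hx.1)
      obtain ⟨b1, b2⟩ := hk e he
      obtain ⟨c1, c2⟩ := hk e' he'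
      simp only [ctr] at hfix
      by_cases q1 : k x = e
      · refine ⟨e', hiff.mp (q1 ▸ a), ?_⟩
        grind
      · by_cases q2 : k x = e'
        · refine ⟨e, hiff.mpr (q2 ▸ a), ?_⟩
          grind
        · refine ⟨x, hx.1, ?_⟩
          grind
    · obtain ⟨x, hx⟩ := hne'
      have heU : e ∈ U := by
        by_contra hcon
        apply hU'
        exact ⟨x, mem_rem.mpr ⟨hx, fun h => hcon (h ▸ hx), fun h => hcon (hiff.mpr (h ▸ hx))⟩⟩
      refine ⟨e, heU, ?_⟩
      by_contra hcon
      exact hU' ⟨k e, mem_rem.mpr ⟨hkU e heU, hcon, h2⟩⟩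

lemma GP_step {ty : D → Fin 4} {X : Finset D} {s k : D → D} (hs : Inv X s)
    (hs' : ∀ x ∈ X, s x ≠ x) (hk : Inv X k) {e : D} (he : e ∈ X) (Ch : Finset D) (N : ℕ)
    (hCh : ∀ e' ∈ Ch, e' ∈ X ∧ ty e' = ty e + 2 ∧ s e ≠ e' ∧ k e ≠ e' ∧
      N ≤ (GP ty (rem X e e') (ctr s e e') (ctr k e e')).card) :
    Ch.card * N ≤ (GP ty X s k).card := by
  calc Ch.card * N = ∑ _e' ∈ Ch, N := by rw [sum_const, smul_eq_mul]
    _ ≤ ∑ e' ∈ Ch, ((GP ty X s k).filter (fun p => p e = e')).card := by
        apply sum_le_sum
        intro e' he'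
        obtain ⟨a, b, c, d, f⟩ := hCh e' he'
        refine f.trans (card_le_card_of_injOn (ins e e') ?_ ?_)
        · intro p hp
          simp only [coe_filter, Set.mem_ofPred_eq]
          exact ⟨ins_mem_GP hs hs' hk he a b c d hp, by simp [ins]⟩
        · intro p hp p' hp' h
          simp only [mem_coe, mem_GP] at hp hp'
          funext x
          by_cases hx : x = e ∨ x = e'
          · rw [hp.1.1 x (by rw [mem_rem]; tauto), hp'.1.1 x (by rw [mem_rem]; tauto)]
          · push Not at hx
            simpa [ins, hx.1, hx.2] using congrFun h x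
    _ ≤ _ := by
        rw [← card_biUnion]
        · apply card_le_card
          intro p hp
          obtain ⟨e', -, h⟩ := mem_biUnion.mp hp
          exact (mem_filter.mp h).1
        · intro a _ b _ hab
          simp only [Function.onFun, disjoint_filter]
          intro p _ h1 h2
          exact hab (h1.symm.trans h2)

lemma ctr_fpf {X : Finset D} {s : D → D} (hs : Inv X s) (hs' : ∀ x ∈ X, s x ≠ x) {e e' : D}
    (he : e ∈ X) (he' : e' ∈ X) (hne : e ≠ e') : ∀ x ∈ rem X e e', ctr s e e' x ≠ x := by
  intro x hx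
  rw [mem_rem] at hx
  obtain ⟨a1, a2⟩ := hs x hx.1
  obtain ⟨b1, b2⟩ := hs e he
  obtain ⟨c1, c2⟩ := hs e' he'
  have d1 := hs' x hx.1
  have d2 := hs' e he
  have d3 := hs' e' he'
  simp only [ctr]
  grind

theorem odd_phase (ty : D → Fin 4) (E : ℕ) : ∀ (X : Finset D) (s k : D → D), Inv X s →
    (∀ x ∈ X, s x ≠ x) → Inv X k → cnt ty X 0 = 0 → cnt ty X 2 = 0 → cnt ty X 1 = E + 1 →
    cnt ty X 3 = E + 1 → ((∀ x ∈ X, k x = x) ∨ 4 ≤ (X.filter (fun x => k x = x)).card) →
    (E - 1).factorial ≤ (GP ty X s k).card := by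
  induction E with
  | zero =>
    intro X s k hs hs' hk h0 h2 h1 h3 hf
    obtain ⟨e, he⟩ := card_eq_one.mp h1
    obtain ⟨e', he'⟩ := card_eq_one.mp h3
    have a : e ∈ X ∧ ty e = 1 := mem_filter.mp (he ▸ mem_singleton_self e)
    have b : e' ∈ X ∧ ty e' = 3 := mem_filter.mp (he' ▸ mem_singleton_self e')
    have hX : ∀ x ∈ X, x = e ∨ x = e' := by
      intro x hx
      have q : ∀ q : Fin 4, q = 0 ∨ q = 1 ∨ q = 2 ∨ q = 3 := by decide
      rcases q (ty x) with h | h | h | h
      · exact absurd (card_eq_zero.mp h0) (ne_empty_of_mem (mem_filter.mpr ⟨hx, h⟩))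
      · left; rw [← mem_singleton, ← he]; exact mem_filter.mpr ⟨hx, h⟩
      · exact absurd (card_eq_zero.mp h2) (ne_empty_of_mem (mem_filter.mpr ⟨hx, h⟩))
      · right; rw [← mem_singleton, ← he']; exact mem_filter.mpr ⟨hx, h⟩
    have hty : ty e' = ty e + 2 := by rw [a.2, b.2]; rfl
    have hne := ne_of_ty hty
    have hfree : ∀ x ∈ X, k x = x := by
      rcases hf with hf | hf
      · exact hf
      · exfalso
        have : X.filter (fun x => k x = x) ⊆ {e, e'} := by
          intro x hx
          simpa using hX x (mem_filter.mp hx).1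
        have := (card_le_card this).trans card_le_two
        omega
    apply card_pos.mpr
    refine ⟨ins e e' id, mem_GP.mpr ⟨IsTP.ins a.1 b.1 hty ⟨fun _ _ => rfl, ?_⟩, ?_, ?_⟩⟩
    · intro d hd
      rw [mem_rem] at hd
      have := hX d hd.1
      tauto
    · intro U hUX ⟨x, hx⟩ _ hp y hy
      have := hp x hx
      rcases hX x (hUX hx) with rfl | rfl <;> rcases hX y hy with rfl | rfl
      · exact hx
      · simpa [ins] using this
      · simpa [ins, hne.symm] using this
      · exact hx
    · intro U hUX ⟨x, hx⟩ _ _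
      exact ⟨x, hx, hfree x (hUX hx)⟩
  | succ E ih =>
    intro X s k hs hs' hk h0 h2 h1 h3 hf
    have hodd : ∀ x ∈ X, ty x = 1 ∨ ty x = 3 := by
      intro x hx
      have q : ∀ q : Fin 4, q = 0 ∨ q = 1 ∨ q = 2 ∨ q = 3 := by decide
      rcases q (ty x) with h | h | h | h
      · exact absurd (card_eq_zero.mp h0) (ne_empty_of_mem (mem_filter.mpr ⟨hx, h⟩))
      · exact Or.inl h
      · exact absurd (card_eq_zero.mp h2) (ne_empty_of_mem (mem_filter.mpr ⟨hx, h⟩))
      · exact Or.inr h
    have hopp : ∀ e ∈ X, (X.filter (fun d => ty d = ty e + 2)).card = E + 2 := by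
      intro e he
      rcases hodd e he with h | h <;> rw [h]
      · exact h3
      · exact h1
    have hrec : ∀ e ∈ X, ∀ e' ∈ X, ty e' = ty e + 2 → s e ≠ e' → k e ≠ e' →
        ((∀ x ∈ rem X e e', ctr k e e' x = x) ∨
          4 ≤ ((rem X e e').filter (fun x => ctr k e e' x = x)).card) →
        (E - 1).factorial ≤ (GP ty (rem X e e') (ctr s e e') (ctr k e e')).card := by
      intro e he e' he' hty a b c
      have hne := ne_of_ty hty
      have c0 := cnt_rem (ty := ty) he he' hne 0
      have c1 := cnt_rem (ty := ty) he he' hne 1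
      have c2 := cnt_rem (ty := ty) he he' hne 2
      have c3 := cnt_rem (ty := ty) he he' hne 3
      apply ih _ _ _ (hs.ctr he he' hne a) (ctr_fpf hs hs' he he' hne) (hk.ctr he he' hne b)
        (by omega) (by omega) _ _ c
      · rw [hty] at c1; rcases hodd e he with h | h <;> rw [h] at c1 <;> simp at c1 <;> omega
      · rw [hty] at c3; rcases hodd e he with h | h <;> rw [h] at c3 <;> simp at c3 <;> omega
    by_cases hall : ∀ x ∈ X, k x = x
    · obtain ⟨e, he⟩ : (X.filter (fun d => ty d = 1)).Nonempty := card_pos.mp (by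
        have : cnt ty X 1 = (X.filter (fun d => ty d = 1)).card := rfl
        omega)
      have he := (mem_filter.mp he).1
      refine le_trans ?_ (GP_step hs hs' hk he
        ((X.filter (fun d => ty d = ty e + 2)).erase (s e)) (E - 1).factorial ?_)
      · have := pred_card_le_card_erase (s := X.filter (fun d => ty d = ty e + 2)) (a := s e)
        rw [hopp e he] at this
        refine le_trans ?_ (Nat.mul_le_mul_right _ this)
        rcases E with _ | E
        · simp
        · simp only [add_tsub_cancel_right, Nat.factorial_succ]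
          apply Nat.mul_le_mul_right; omega
      · intro e' he'
        rw [mem_erase, mem_filter] at he'
        have hne := ne_of_ty he'.2.2
        have b : k e ≠ e' := by rw [hall e he]; exact hne
        refine ⟨he'.2.1, he'.2.2, he'.1.symm, b, hrec e he e' he'.2.1 he'.2.2 he'.1.symm b ?_⟩
        left
        intro x hx
        rw [mem_rem] at hx
        simp [ctr, hall x hx.1, hx.2.1, hx.2.2]
    · have hf4 := hf.resolve_left hall
      push Not at hall
      obtain ⟨e, he, hke⟩ := hall
      have hE : 1 ≤ E := by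
        have hsub : insert e (X.filter (fun x => k x = x)) ⊆
            X.filter (fun d => ty d = 1) ∪ X.filter (fun d => ty d = 3) := by
          intro x hx
          have hxX : x ∈ X := by
            rcases mem_insert.mp hx with rfl | h
            · exact he
            · exact (mem_filter.mp h).1
          simpa [hxX] using hodd x hxX
        have a := (card_le_card hsub).trans (card_union_le _ _)
        rw [card_insert_of_notMem (by simp [hke])] at a
        have b1 : (X.filter (fun d => ty d = 1)).card = E + 2 := h1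
        have b3 : (X.filter (fun d => ty d = 3)).card = E + 2 := h3
        omega
      refine le_trans ?_ (GP_step hs hs' hk he
        (((X.filter (fun d => ty d = ty e + 2)).erase (s e)).erase (k e)) (E - 1).factorial ?_)
      · have a := pred_card_le_card_erase (s := X.filter (fun d => ty d = ty e + 2)) (a := s e)
        have b := pred_card_le_card_erase
          (s := (X.filter (fun d => ty d = ty e + 2)).erase (s e)) (a := k e)
        rw [hopp e he] at a
        refine le_trans ?_ (Nat.mul_le_mul_right _ (show E ≤ _ by omega))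
        simp only [add_tsub_cancel_right]
        exact (Nat.mul_factorial_pred (by omega)).ge
      · intro e' he'
        rw [mem_erase, mem_erase, mem_filter] at he'
        obtain ⟨b, a, he', hty⟩ := he'
        refine ⟨he', hty, a.symm, b.symm, hrec e he e' he' hty a.symm b.symm ?_⟩
        right
        refine hf4.trans (card_le_card_of_injOn (fun x => if x = e' then k e else x) ?_ ?_)
        · intro x hx
          simp only [coe_filter, Set.mem_ofPred_eq, mem_rem] at hx ⊢
          obtain ⟨b1, b2⟩ := hk e he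
          by_cases hxe : x = e'
          · rw [if_pos hxe]
            exact ⟨⟨b1, hke, b.symm⟩, ctr_left' b2 (hxe ▸ hx.2)⟩
          · rw [if_neg hxe]
            have n1 : x ≠ e := by rintro rfl; exact hke hx.2
            refine ⟨⟨hx.1, n1, hxe⟩, ?_⟩
            rw [ctr_of_ne (by rwa [hx.2]) (by rwa [hx.2]), hx.2]
        · intro x hx y hy h
          simp only [coe_filter, Set.mem_ofPred_eq] at hx hy
          obtain ⟨b1, b2⟩ := hk e he
          by_cases hxe : x = e' <;> by_cases hye : y = e'
          · rw [hxe, hye]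
          · simp only [hxe, hye, if_true, if_false] at h
            have : e = y := by rw [← b2, h, hy.2]
            exact absurd (h.trans this.symm) hke
          · simp only [hxe, hye, if_true, if_false] at h
            have : e = x := by rw [← b2, ← h, hx.2]
            exact absurd (h.symm.trans this.symm) hke
          · simpa only [hxe, hye, if_false] using h

/-- even types -/
def Ev (q : Fin 4) : Prop := q = 0 ∨ q = 2

instance : DecidablePred Ev := fun q => by unfold Ev; infer_instance

theorem even_phase (ty : D → Fin 4) (E1 E : ℕ) : ∀ (X : Finset D) (s k : D → D), Inv X s →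
    (∀ x ∈ X, s x ≠ x) → Inv X k → cnt ty X 0 = E → cnt ty X 2 = E → cnt ty X 1 = E1 + 1 →
    cnt ty X 3 = E1 + 1 → (E = 0 ∨ ∃ x ∈ X, Ev (ty x) ∧ ¬ Ev (ty (s x))) →
    (∀ x ∈ X, Ev (ty x) → k x = x ∨ ¬ Ev (ty (k x))) →
    4 ≤ (X.filter (fun x => k x = x ∧ ¬ Ev (ty x))).card →
    (E - 1).factorial * (E1 - 1).factorial ≤ (GP ty X s k).card := by
  induction E with
  | zero =>
    intro X s k hs hs' hk h0 h2 h1 h3 _ _ hf
    simp only [zero_tsub, Nat.factorial_zero, one_mul]
    refine odd_phase ty E1 X s k hs hs' hk h0 h2 h1 h3 (Or.inr (hf.trans (card_le_card ?_)))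
    intro x hx
    rw [mem_filter] at hx ⊢
    exact ⟨hx.1, hx.2.1⟩
  | succ E ih =>
    intro X s k hs hs' hk h0 h2 h1 h3 hm hkev hf
    obtain ⟨x0, hx0, hx0e, hx0o⟩ := hm.resolve_left (by omega)
    have hopp : ∀ e ∈ X, Ev (ty e) → (X.filter (fun d => ty d = ty e + 2)).card = E + 1 := by
      intro e he hev
      rcases hev with h | h <;> rw [h]
      · exact h2
      · exact h0
    have hev2 : ∀ q, Ev q → Ev (q + 2) := by decide
    have hrec : ∀ e ∈ X, Ev (ty e) → ∀ e' ∈ X, ty e' = ty e + 2 → s e ≠ e' →
        (E = 0 ∨ ∃ x ∈ rem X e e', Ev (ty x) ∧ ¬ Ev (ty (ctr s e e' x))) →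
        k e ≠ e' ∧ (E - 1).factorial * (E1 - 1).factorial ≤
          (GP ty (rem X e e') (ctr s e e') (ctr k e e')).card := by
      intro e he hev e' he' hty a c
      have hne := ne_of_ty hty
      have hev' : Ev (ty e') := hty ▸ hev2 _ hev
      have b : k e ≠ e' := by
        rcases hkev e he hev with h | h
        · rw [h]; exact hne
        · rintro rfl; exact h hev'
      have c0 := cnt_rem (ty := ty) he he' hne 0
      have c1 := cnt_rem (ty := ty) he he' hne 1
      have c2 := cnt_rem (ty := ty) he he' hne 2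
      have c3 := cnt_rem (ty := ty) he he' hne 3
      refine ⟨b, ih _ _ _ (hs.ctr he he' hne a) (ctr_fpf hs hs' he he' hne) (hk.ctr he he' hne b)
        ?_ ?_ ?_ ?_ c ?_ ?_⟩
      · rw [hty] at c0; rcases hev with h | h <;> rw [h] at c0 <;> simp at c0 <;> omega
      · rw [hty] at c2; rcases hev with h | h <;> rw [h] at c2 <;> simp at c2 <;> omega
      · rw [hty] at c1; rcases hev with h | h <;> rw [h] at c1 <;> simp at c1 <;> omega
      · rw [hty] at c3; rcases hev with h | h <;> rw [h] at c3 <;> simp at c3 <;> omega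
      · intro x hx hxe
        rw [mem_rem] at hx
        have := hkev x hx.1 hxe
        have n1 : k x ≠ e := by
          rcases this with h | h
          · rw [h]; exact hx.2.1
          · rintro h'; exact h (h' ▸ hev)
        have n2 : k x ≠ e' := by
          rcases this with h | h
          · rw [h]; exact hx.2.2
          · rintro h'; exact h (h' ▸ hev')
        rwa [ctr_of_ne n1 n2]
      · refine hf.trans (card_le_card ?_)
        intro x hx
        rw [mem_filter] at hx
        rw [mem_filter, mem_rem]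
        have n1 : x ≠ e := by rintro rfl; exact hx.2.2 hev
        have n2 : x ≠ e' := by rintro rfl; exact hx.2.2 hev'
        refine ⟨⟨hx.1, n1, n2⟩, ?_, hx.2.2⟩
        rw [ctr_of_ne (by rwa [hx.2.1]) (by rwa [hx.2.1]), hx.2.1]
    by_cases hcase : ∃ e ∈ X, Ev (ty e) ∧ Ev (ty (s e))
    · obtain ⟨e, he, hev, hsev⟩ := hcase
      have hE : 1 ≤ E := by
        have hsub : ({x0, e, s e} : Finset D) ⊆
            X.filter (fun d => ty d = 0) ∪ X.filter (fun d => ty d = 2) := by
          intro x hx
          simp only [mem_insert, mem_singleton] at hx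
          rw [← filter_or, mem_filter]
          rcases hx with rfl | rfl | rfl
          · exact ⟨hx0, hx0e⟩
          · exact ⟨he, hev⟩
          · exact ⟨(hs e he).1, hsev⟩
        have a := (card_le_card hsub).trans (card_union_le _ _)
        have n1 : x0 ≠ e := by rintro rfl; exact hx0o hsev
        have n2 : x0 ≠ s e := by rintro rfl; rw [(hs e he).2] at hx0o; exact hx0o hev
        rw [card_eq_three.mpr ⟨x0, e, s e, n1, n2, (hs' e he).symm, rfl⟩] at a
        have b0 : (X.filter (fun d => ty d = 0)).card = E + 1 := h0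
        have b2 : (X.filter (fun d => ty d = 2)).card = E + 1 := h2
        omega
      refine le_trans ?_ (GP_step hs hs' hk he
        ((X.filter (fun d => ty d = ty e + 2)).erase (s e))
          ((E - 1).factorial * (E1 - 1).factorial) ?_)
      · have a := pred_card_le_card_erase (s := X.filter (fun d => ty d = ty e + 2)) (a := s e)
        rw [hopp e he hev] at a
        refine le_trans ?_ (Nat.mul_le_mul_right _ a)
        simp only [add_tsub_cancel_right]
        rw [← mul_assoc, Nat.mul_factorial_pred (by omega)]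
      · intro e' he'
        rw [mem_erase, mem_filter] at he'
        obtain ⟨a, he', hty⟩ := he'
        have hev' : Ev (ty e') := hty ▸ hev2 _ hev
        have := hrec e he hev e' he' hty a.symm (Or.inr ?_)
        · exact ⟨he', hty, a.symm, this⟩
        · obtain ⟨b1, b2⟩ := hs e he
          have d1 := hs' e he
          have d2 := hs' e' he'
          by_cases hx : x0 = e'
          · refine ⟨s e, mem_rem.mpr ⟨b1, d1, a.symm⟩, hsev, ?_⟩
            rw [ctr_left b2 d2, ← hx]; exact hx0o
          · refine ⟨x0, mem_rem.mpr ⟨hx0, ?_, hx⟩, hx0e, ?_⟩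
            · rintro rfl; exact hx0o hsev
            · rwa [ctr_of_ne (show s x0 ≠ e from fun h => hx0o (by rw [h]; exact hev))
                (show s x0 ≠ e' from fun h => hx0o (by rw [h]; exact hev'))]
    · push Not at hcase
      refine le_trans ?_ (GP_step hs hs' hk hx0 (X.filter (fun d => ty d = ty x0 + 2))
          ((E - 1).factorial * (E1 - 1).factorial) ?_)
      · rw [hopp x0 hx0 hx0e, ← mul_assoc]
        apply Nat.mul_le_mul_right
        rcases E with _ | E
        · simp
        · simp only [add_tsub_cancel_right, Nat.factorial_succ]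
          apply Nat.mul_le_mul_right; omega
      · intro e' he'
        rw [mem_filter] at he'
        obtain ⟨he', hty⟩ := he'
        have hev' : Ev (ty e') := hty ▸ hev2 _ hx0e
        have a : s x0 ≠ e' := by rintro rfl; exact hx0o hev'
        have := hrec x0 hx0 hx0e e' he' hty a ?_
        · exact ⟨he', hty, a, this⟩
        · rcases Nat.eq_zero_or_pos E with h | h
          · exact Or.inl h
          · right
            have c0 := cnt_rem (ty := ty) hx0 he' (ne_of_ty hty) 0
            have hpos : 0 < cnt ty (rem X x0 e') 0 := by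
              rw [hty] at c0
              rcases hx0e with h | h <;> rw [h] at c0 <;> simp at c0 <;> omega
            obtain ⟨x, hx⟩ := card_pos.mp hpos
            rw [mem_filter] at hx
            have hxe : Ev (ty x) := Or.inl hx.2
            refine ⟨x, hx.1, hxe, ?_⟩
            have := hcase x (mem_rem.mp hx.1).1 hxe
            rwa [ctr_of_ne (show s x ≠ x0 from fun h => this (by rw [h]; exact hx0e))
              (show s x ≠ e' from fun h => this (by rw [h]; exact hev'))]

end Pool.Agent.MP_755159_pr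

end

section

/-! The end-to-end involution of a union of two involutions, transversals, and Hamiltonicity of a
connected 2-factor described by darts. -/

set_option linter.unusedSectionVars false

namespace Pool.Agent.MP_755159_pr

open Finset

variable {D : Type} [Fintype D] [DecidableEq D]

theorem exists_sigma (η : D → D) (N : ℕ) : ∀ (X : Finset D) (ν : D → D), X.card = N → Inv X ν →
    (∀ x ∈ X, ν x ≠ x) → Inv X η → ∃ σ : D → D,
      (∀ x ∈ X, η x = x → σ x ∈ X ∧ η (σ x) = σ x ∧ σ (σ x) = x ∧ σ x ≠ x) ∧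
      (∀ U ⊆ X, (∀ x ∈ U, ν x ∈ U) → (∀ x ∈ U, η x ∈ U) → ∀ x ∈ U, η x = x → σ x ∈ U) ∧
      (∀ x ∈ X, η x = x → ∃ U ⊆ X, (∀ x ∈ U, ν x ∈ U) ∧ (∀ x ∈ U, η x ∈ U) ∧ x ∈ U ∧
        ∀ y ∈ U, η y = y → y = x ∨ y = σ x) := by
  induction N using Nat.strong_induction_on with
  | _ N ih =>
    intro X ν hN hν hν' hη
    by_cases hall : ∀ x ∈ X, η x = x
    · refine ⟨ν, ?_, ?_, ?_⟩
      · intro x hx _
        exact ⟨(hν x hx).1, hall _ (hν x hx).1, (hν x hx).2, hν' x hx⟩
      · intro U _ h1 _ x hx _
        exact h1 x hx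
      · intro x hx _
        refine ⟨{x, ν x}, ?_, ?_, ?_, by simp, ?_⟩
        · intro y hy
          simp only [mem_insert, mem_singleton] at hy
          rcases hy with rfl | rfl
          · exact hx
          · exact (hν x hx).1
        · intro y hy
          simp only [mem_insert, mem_singleton] at hy ⊢
          rcases hy with rfl | rfl
          · exact Or.inr rfl
          · exact Or.inl (hν x hx).2
        · intro y hy
          simp only [mem_insert, mem_singleton] at hy ⊢
          rcases hy with rfl | rfl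
          · exact Or.inl (hall _ hx)
          · exact Or.inr (hall _ (hν x hx).1)
        · intro y hy _
          simpa using hy
    · push Not at hall
      obtain ⟨e, he, hee⟩ := hall
      obtain ⟨e', he'e⟩ : ∃ e', e' = η e := ⟨_, rfl⟩
      have he' : e' ∈ X := he'e ▸ (hη e he).1
      have hne : e ≠ e' := by rw [he'e]; exact hee.symm
      have hee' : η e' = e := by rw [he'e]; exact (hη e he).2
      have hcard := card_rem he he' hne
      have hη' : Inv (rem X e e') η := by
        intro x hx
        rw [mem_rem] at hx ⊢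
        obtain ⟨a, b⟩ := hη x hx.1
        refine ⟨⟨a, fun h => hx.2.2 ?_, fun h => hx.2.1 ?_⟩, b⟩
        · rw [← b, h, he'e]
        · rw [← b, h, hee']
      have hfix : ∀ x ∈ X, η x = x → x ∈ rem X e e' := by
        intro x hx h
        refine mem_rem.mpr ⟨hx, ?_, ?_⟩
        · rintro rfl; exact hee h
        · rintro rfl; exact hne (hee'.symm.trans h)
      have hsub : rem X e e' ⊆ X := fun x hx => (mem_rem.mp hx).1
      have hsub' : ∀ U ⊆ X, rem U e e' ⊆ rem X e e' := by
        intro U hUX x hx
        rw [mem_rem] at hx ⊢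
        exact ⟨hUX hx.1, hx.2⟩
      have hηU : ∀ U ⊆ X, (∀ x ∈ U, η x ∈ U) → ∀ x ∈ rem U e e', η x ∈ rem U e e' := by
        intro U hUX h x hx
        have := mem_rem.mp (hη' x (hsub' U hUX hx)).1
        exact mem_rem.mpr ⟨h x (mem_rem.mp hx).1, this.2⟩
      by_cases hcase : ν e = e'
      · have hνe' : ν e' = e := by rw [← hcase]; exact (hν e he).2
        have hν1 : Inv (rem X e e') ν := by
          intro x hx
          rw [mem_rem] at hx ⊢
          obtain ⟨a, b⟩ := hν x hx.1
          refine ⟨⟨a, fun h => hx.2.2 ?_, fun h => hx.2.1 ?_⟩, b⟩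
          · rw [← b, h, hcase]
          · rw [← b, h, hνe']
        obtain ⟨σ, h1, h2, h3⟩ := ih _ (by omega) (rem X e e') ν rfl hν1
          (fun x hx => hν' x (hsub hx)) hη'
        refine ⟨σ, ?_, ?_, ?_⟩
        · intro x hx h
          obtain ⟨a, b⟩ := h1 x (hfix x hx h) h
          exact ⟨hsub a, b⟩
        · intro U hUX a b x hx h
          have := h2 _ (hsub' U hUX) ?_ (hηU U hUX b) x
            (mem_rem.mpr ⟨hx, (mem_rem.mp (hfix x (hUX hx) h)).2⟩) h
          · exact (mem_rem.mp this).1
          · intro y hy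
            have := mem_rem.mp (hν1 y (hsub' U hUX hy)).1
            exact mem_rem.mpr ⟨a y (mem_rem.mp hy).1, this.2⟩
        · intro x hx h
          obtain ⟨U, a, b⟩ := h3 x (hfix x hx h) h
          exact ⟨U, a.trans hsub, b⟩
      · obtain ⟨σ, h1, h2, h3⟩ := ih _ (by omega) (rem X e e') (ctr ν e e') rfl
          (hν.ctr he he' hne hcase) (ctr_fpf hν hν' he he' hne) hη'
        refine ⟨σ, ?_, ?_, ?_⟩
        · intro x hx h
          obtain ⟨a, b⟩ := h1 x (hfix x hx h) h
          exact ⟨hsub a, b⟩
        · intro U hUX a b x hx h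
          have hiff : e ∈ U ↔ e' ∈ U := ⟨fun h => he'e ▸ b e h, fun h => hee' ▸ b e' h⟩
          have := h2 _ (hsub' U hUX) (ctr_closed hν he he' hcase hUX a hiff) (hηU U hUX b) x
            (mem_rem.mpr ⟨hx, (mem_rem.mp (hfix x (hUX hx) h)).2⟩) h
          exact (mem_rem.mp this).1
        · intro x hx h
          obtain ⟨U, a, b, c, d, f⟩ := h3 x (hfix x hx h) h
          obtain ⟨b1, b2⟩ := hν e he
          obtain ⟨c1, c2⟩ := hν e' he'
          have n1 := hν' e he
          have n2 := hν' e' he'
          by_cases hU : ν e ∈ U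
          · have hU' : ν e' ∈ U := by
              have := b _ hU
              rwa [ctr_left b2 n2] at this
            refine ⟨insert e (insert e' U), ?_, ?_, ?_, by simp [d], ?_⟩
            · intro y hy
              simp only [mem_insert] at hy
              rcases hy with rfl | rfl | hy
              · exact he
              · exact he'
              · exact hsub (a hy)
            · intro y hy
              simp only [mem_insert] at hy ⊢
              rcases hy with rfl | rfl | hy
              · exact Or.inr (Or.inr hU)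
              · exact Or.inr (Or.inr hU')
              · by_cases q1 : ν y = e
                · exact Or.inl q1
                · by_cases q2 : ν y = e'
                  · exact Or.inr (Or.inl q2)
                  · right; right
                    have := b y hy
                    rwa [ctr_of_ne q1 q2] at this
            · intro y hy
              simp only [mem_insert] at hy ⊢
              rcases hy with rfl | rfl | hy
              · exact Or.inr (Or.inl he'e.symm)
              · exact Or.inl hee'
              · exact Or.inr (Or.inr (c y hy))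
            · intro y hy hy'
              simp only [mem_insert] at hy
              rcases hy with rfl | rfl | hy
              · exact absurd hy' hee
              · exact absurd (hee'.symm.trans hy') hne
              · exact f y hy hy'
          · refine ⟨U, a.trans hsub, ?_, c, d, f⟩
            intro y hy
            have hy2 := (hν y (hsub (a hy))).2
            have q1 : ν y ≠ e := by
              intro q
              apply hU
              rw [← q, hy2]; exact hy
            have q2 : ν y ≠ e' := by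
              intro q
              apply hU
              have := b y hy
              rwa [ctr_right hne q n1] at this
            have := b y hy
            rwa [ctr_of_ne q1 q2] at this

theorem exists_transversal (Z : Finset D) (P k : D → D) (hP : Inv Z P) (hP' : ∀ x ∈ Z, P x ≠ x)
    (hk : Inv Z k) (hac : Acyc Z k P) (u : D) : ∃ T ⊆ Z, (∀ x ∈ T, k x = x) ∧ u ∉ T ∧
      (Z.filter (fun x => k x = x)).card ≤ 2 * T.card ∧
      ∀ U ⊆ Z, U.Nonempty → (∀ x ∈ U, k x ∈ U) → (∀ x ∈ U, P x ∈ U) →
        ∃ x ∈ U, k x = x ∧ x ∉ T := by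
  obtain ⟨σ, h1, h2, -⟩ := exists_sigma k _ Z P rfl hP hP' hk
  obtain ⟨f, hf⟩ : ∃ f : D → ℕ, Function.Injective f :=
    ⟨fun d => (Fintype.equivFin D d : ℕ),
      fun a b h => (Fintype.equivFin D).injective (Fin.ext h)⟩
  have key : ∀ r : ℕ → ℕ → Prop, [DecidableRel r] → (∀ a b, a ≠ b → r a b ∨ r b a) →
      (∀ a b, r a b → ¬ r b a) → ¬ r (f u) (f (σ u)) → ∃ T ⊆ Z, (∀ x ∈ T, k x = x) ∧ u ∉ T ∧
      (Z.filter (fun x => k x = x)).card ≤ 2 * T.card ∧
      ∀ U ⊆ Z, U.Nonempty → (∀ x ∈ U, k x ∈ U) → (∀ x ∈ U, P x ∈ U) →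
        ∃ x ∈ U, k x = x ∧ x ∉ T := by
    intro r _ htot hasym hu
    refine ⟨Z.filter (fun x => k x = x ∧ r (f x) (f (σ x))), filter_subset _ _, ?_, ?_, ?_, ?_⟩
    · intro x hx; exact (mem_filter.mp hx).2.1
    · intro h; exact hu (mem_filter.mp h).2.2
    · have : Z.filter (fun x => k x = x) ⊆ Z.filter (fun x => k x = x ∧ r (f x) (f (σ x))) ∪
          (Z.filter (fun x => k x = x ∧ r (f x) (f (σ x)))).image σ := by
        intro x hx
        rw [mem_filter] at hx
        obtain ⟨a, b, c, d⟩ := h1 x hx.1 hx.2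
        rw [mem_union]
        rcases htot (f x) (f (σ x)) (fun h => d (hf h).symm) with h | h
        · exact Or.inl (mem_filter.mpr ⟨hx.1, hx.2, h⟩)
        · exact Or.inr (mem_image.mpr ⟨σ x, mem_filter.mpr ⟨a, b, by rwa [c]⟩, c⟩)
      have a := (card_le_card this).trans (card_union_le _ _)
      have b := card_image_le (s := Z.filter (fun x => k x = x ∧ r (f x) (f (σ x)))) (f := σ)
      omega
    · intro U hUZ hne a b
      obtain ⟨x, hx, hkx⟩ := hac U hUZ hne a b
      by_cases hr : r (f x) (f (σ x))
      · obtain ⟨c, d, e, -⟩ := h1 x (hUZ hx) hkx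
        refine ⟨σ x, h2 U hUZ b a x hx hkx, d, fun h => ?_⟩
        have := (mem_filter.mp h).2.2
        rw [e] at this
        exact hasym _ _ hr this
      · exact ⟨x, hx, hkx, fun h => hr (mem_filter.mp h).2.2⟩
  by_cases hu : f u < f (σ u)
  · exact key (fun a b => b < a) (fun a b h => by omega) (fun a b h => by omega) (by omega)
  · exact key (fun a b => a < b) (fun a b h => by omega) (fun a b h => by omega) hu

theorem ham_of_darts {V : Type} [Fintype V] [DecidableEq V] [Nonempty V] (G : SimpleGraph V)
    (η : V × Bool → V × Bool) (hη : ∀ d, η (η d) = d) (hadj : ∀ d, G.Adj d.1 (η d).1)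
    (hne : ∀ v, (η (v, true)).1 ≠ (η (v, false)).1)
    (hconn : ∀ U : Finset (V × Bool), U.Nonempty → (∀ d ∈ U, (d.1, !d.2) ∈ U) →
      (∀ d ∈ U, η d ∈ U) → ∀ d, d ∈ U) : G.IsHamiltonian := by
  classical
  let H : SimpleGraph V :=
    { Adj := fun u v => ∃ c, (η (u, c)).1 = v
      symm := ⟨by
        rintro u v ⟨c, rfl⟩
        exact ⟨(η (u, c)).2, by simp [hη]⟩⟩
      loopless := ⟨by
        rintro u ⟨c, h⟩
        exact (hadj (u, c)).ne h.symm⟩ }
  have hle : H ≤ G := by
    rintro u v ⟨c, rfl⟩
    exact hadj (u, c)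
  have hcyc : H.IsCycles := by
    intro v _
    rw [Set.ncard_eq_two]
    refine ⟨_, _, hne v, ?_⟩
    ext w
    simp only [SimpleGraph.mem_neighborSet, H, Bool.exists_bool, Set.mem_insert_iff,
      Set.mem_singleton_iff]
    tauto
  apply SimpleGraph.IsHamiltonian.mono hle
  intro _
  obtain ⟨v⟩ := ‹Nonempty V›
  obtain ⟨p, hp, hv⟩ := hcyc.exists_cycle_toSubgraph_verts_eq_connectedComponentSupp
    (c := H.connectedComponentMk v) (v := v) (by simp) ⟨_, ⟨true, rfl⟩⟩
  have hall : ∀ w, H.Reachable v w := by
    intro w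
    have := hconn (univ.filter (fun d => H.Reachable v d.1)) ⟨(v, true), by simp⟩
      (by intro d hd; simpa using hd) ?_ (w, true)
    · simpa using this
    · intro d hd
      simp only [mem_filter, mem_univ, true_and] at hd ⊢
      exact hd.trans (SimpleGraph.Adj.reachable ⟨d.2, rfl⟩)
  refine ⟨v, p, hp, hp.isPath_tail.isHamiltonian_of_mem ?_⟩
  intro w
  have hw : w ∈ p.support := by
    rw [← SimpleGraph.Walk.mem_verts_toSubgraph, hv]
    simp only [SimpleGraph.ConnectedComponent.mem_supp_iff, SimpleGraph.ConnectedComponent.eq]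
    exact (hall w).symm
  rw [SimpleGraph.Walk.support_tail_of_not_nil _ hp.not_nil]
  rw [← SimpleGraph.Walk.cons_tail_support, List.mem_cons] at hw
  rcases hw with rfl | hw
  · exact SimpleGraph.Walk.end_mem_tail_support hp.not_nil
  · exact hw

end Pool.Agent.MP_755159_pr

end

section

/-! Counting typed perfect matchings that extend prescribed pairs; abstract second moment and
resampling lemmas. -/

set_option linter.unusedSectionVars false

namespace Pool.Agent.MP_755159_pr

open Finset

variable {V : Type} [Fintype V] [DecidableEq V]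

open Classical in
/-- typed perfect matchings with a property -/
noncomputable def Ext (pos : V → Fin 4) (P : (V → V) → Prop) : Finset (V → V) :=
  (TP pos univ).filter P

lemma mem_Ext {pos : V → Fin 4} {P : (V → V) → Prop} {m : V → V} :
    m ∈ Ext pos P ↔ IsTP pos univ m ∧ P m := by
  simp only [Ext, mem_filter, mem_TP]

lemma IsTP.invol {pos : V → Fin 4} {m : V → V} (h : IsTP pos univ m) (v : V) : m (m v) = v :=
  (h.2 v (mem_univ v)).2.1

lemma IsTP.pos_eq {pos : V → Fin 4} {m : V → V} (h : IsTP pos univ m) (v : V) :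
    pos (m v) = pos v + 2 := (h.2 v (mem_univ v)).2.2

lemma IsTP.inj {pos : V → Fin 4} {m : V → V} (h : IsTP pos univ m) {v w : V} (e : m v = m w) :
    v = w := by rw [← h.invol v, e, h.invol]

/-- a property supported on `A` -/
def Loc (pos : V → Fin 4) (A : Finset V) (P : (V → V) → Prop) : Prop :=
  (∀ m, IsTP pos univ m → P m → ∀ a ∈ A, m a ∈ A) ∧
  ∀ m m', P m → (∀ a ∈ A, m' a = m a) → P m'

lemma Ext_swap {pos : V → Fin 4} {A : Finset V} {P : (V → V) → Prop} (h : Loc pos A P) {u v v' : V}
    (hv : v ∉ A) (hv' : v' ∉ A) (h1 : pos v = pos u + 2) (h2 : pos v' = pos u + 2) :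
    (Ext pos (fun m => P m ∧ m u = v)).card ≤ (Ext pos (fun m => P m ∧ m u = v')).card := by
  have hp : ∀ x, pos (Equiv.swap v v' x) = pos x := by
    intro x
    rw [Equiv.swap_apply_def]
    split_ifs with a b
    · rw [a, h1, h2]
    · rw [b, h1, h2]
    · rfl
  apply card_le_card_of_injOn (fun m x => Equiv.swap v v' (m (Equiv.swap v v' x)))
  · intro m hm
    simp only [mem_coe, mem_Ext] at hm ⊢
    obtain ⟨hm, hP, huv⟩ := hm
    refine ⟨⟨by simp, fun d _ => ⟨mem_univ _, by simp [hm.invol], by rw [hp, hm.pos_eq, hp]⟩⟩,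
      h.2 m _ hP ?_, ?_⟩
    · intro a ha
      have hma := h.1 m hm hP a ha
      have n1 : a ≠ v := by rintro rfl; exact hv ha
      have n2 : a ≠ v' := by rintro rfl; exact hv' ha
      have n3 : m a ≠ v := by rintro rfl; exact hv hma
      have n4 : m a ≠ v' := by rintro rfl; exact hv' hma
      rw [Equiv.swap_apply_of_ne_of_ne n1 n2, Equiv.swap_apply_of_ne_of_ne n3 n4]
    · rw [Equiv.swap_apply_of_ne_of_ne (x := u) (ne_of_ty h1) (ne_of_ty h2), huv,
        Equiv.swap_apply_left]
  · intro m _ m' _ e
    funext x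
    have := congrFun e (Equiv.swap v v' x)
    simpa using this

lemma Ext_up {pos : V → Fin 4} {n : ℕ} (hn : ∀ q, cnt pos univ q = n) {A : Finset V}
    {P : (V → V) → Prop} (h : Loc pos A P) {u : V} (hu : u ∉ A) (v : V) :
    (Ext pos (fun m => P m ∧ m u = v)).card * (n - A.card) ≤ (Ext pos P).card := by
  rcases (Ext pos (fun m => P m ∧ m u = v)).eq_empty_or_nonempty with h0 | ⟨m, hm⟩
  · simp [h0]
  · obtain ⟨hm, hP, huv⟩ := mem_Ext.mp hm
    have h1 : pos v = pos u + 2 := by rw [← huv, hm.pos_eq]
    have hv : v ∉ A := by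
      intro hv
      have := h.1 m hm hP v hv
      rw [← huv, hm.invol] at this
      exact hu this
    obtain ⟨F, hF⟩ : ∃ F, F = univ.filter (fun d => pos d = pos u + 2) \ A := ⟨_, rfl⟩
    have hc : n - A.card ≤ F.card := by
      rw [hF, ← hn (pos u + 2)]
      exact le_card_sdiff _ _
    calc _ ≤ (Ext pos (fun m => P m ∧ m u = v)).card * F.card := Nat.mul_le_mul_left _ hc
      _ = ∑ _v' ∈ F, (Ext pos (fun m => P m ∧ m u = v)).card := by
          rw [sum_const, smul_eq_mul, mul_comm]
      _ ≤ ∑ v' ∈ F, ((Ext pos P).filter (fun m => m u = v')).card := by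
          apply sum_le_sum
          intro v' hv'
          rw [hF, mem_sdiff, mem_filter] at hv'
          refine (Ext_swap h hv hv'.2 h1 hv'.1.2).trans (card_le_card ?_)
          intro m hm
          rw [mem_filter, mem_Ext]
          have := mem_Ext.mp hm
          tauto
      _ ≤ _ := by
          rw [← card_biUnion]
          · apply card_le_card
            intro p hp
            obtain ⟨e', -, h⟩ := mem_biUnion.mp hp
            exact (mem_filter.mp h).1
          · intro a _ b _ hab
            simp only [Function.onFun, disjoint_filter]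
            intro p _ h1 h2
            exact hab (h1.symm.trans h2)

lemma Ext_down {pos : V → Fin 4} {n : ℕ} (hn : ∀ q, cnt pos univ q = n) {A : Finset V}
    {P : (V → V) → Prop} (h : Loc pos A P) {u v : V} (hu : u ∉ A) (hv : v ∉ A)
    (h1 : pos v = pos u + 2) :
    (Ext pos P).card ≤ n * (Ext pos (fun m => P m ∧ m u = v)).card := by
  obtain ⟨F, hF⟩ : ∃ F, F = univ.filter (fun d => pos d = pos u + 2) \ A := ⟨_, rfl⟩
  have hc : F.card ≤ n := by
    rw [hF, ← hn (pos u + 2)]
    exact card_le_card sdiff_subset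
  calc _ ≤ (F.biUnion (fun v' => Ext pos (fun m => P m ∧ m u = v'))).card := by
          apply card_le_card
          intro m hm
          obtain ⟨hm, hP⟩ := mem_Ext.mp hm
          refine mem_biUnion.mpr ⟨m u, ?_, mem_Ext.mpr ⟨hm, hP, rfl⟩⟩
          rw [hF, mem_sdiff, mem_filter]
          refine ⟨⟨mem_univ _, hm.pos_eq u⟩, fun hv => hu ?_⟩
          have := h.1 m hm hP _ hv
          rwa [hm.invol] at this
    _ ≤ ∑ v' ∈ F, (Ext pos (fun m => P m ∧ m u = v')).card := card_biUnion_le
    _ ≤ ∑ _v' ∈ F, (Ext pos (fun m => P m ∧ m u = v)).card := by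
          apply sum_le_sum
          intro v' hv'
          rw [hF, mem_sdiff, mem_filter] at hv'
          exact Ext_swap h hv'.2 hv hv'.1.2 h1
    _ ≤ _ := by
          rw [sum_const, smul_eq_mul]
          exact Nat.mul_le_mul_right _ hc

lemma Loc.add {pos : V → Fin 4} {A : Finset V} {P : (V → V) → Prop} (h : Loc pos A P)
    {ι : Type} [DecidableEq ι] (S : Finset ι) (u v : ι → V) :
    Loc pos (A ∪ (S.image u ∪ S.image v)) (fun m => P m ∧ ∀ x ∈ S, m (u x) = v x) := by
  constructor
  · intro m hm hP a ha
    simp only [mem_union, mem_image] at ha ⊢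
    rcases ha with ha | ⟨x, hx, rfl⟩ | ⟨x, hx, rfl⟩
    · exact Or.inl (h.1 m hm hP.1 a ha)
    · exact Or.inr (Or.inr ⟨x, hx, (hP.2 x hx).symm⟩)
    · exact Or.inr (Or.inl ⟨x, hx, by rw [← hP.2 x hx, hm.invol]⟩)
  · intro m m' hP hmm
    refine ⟨h.2 m m' hP.1 (fun a ha => hmm a (mem_union_left _ ha)), fun x hx => ?_⟩
    rw [hmm _ (mem_union_right _ (mem_union_left _ (mem_image_of_mem _ hx))), hP.2 x hx]

lemma Ext_congr {pos : V → Fin 4} {P Q : (V → V) → Prop} (h : ∀ m, IsTP pos univ m → P m → Q m) :
    (Ext pos P).card ≤ (Ext pos Q).card := by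
  apply card_le_card
  intro m hm
  rw [mem_Ext] at hm ⊢
  exact ⟨hm.1, h m hm.1 hm.2⟩

theorem Ext_up_iter {pos : V → Fin 4} {n : ℕ} (hn : ∀ q, cnt pos univ q = n) {A : Finset V}
    {P : (V → V) → Prop} (h : Loc pos A P) {ι : Type} [DecidableEq ι] (u v : ι → V) (N : ℕ)
    (S : Finset ι) (hu : ∀ x ∈ S, u x ∉ A)
    (huv : ∀ x ∈ S, ∀ y ∈ S, x ≠ y → u x ≠ u y ∧ u x ≠ v y) (hN : A.card + 2 * S.card ≤ N) :
    (Ext pos (fun m => P m ∧ ∀ x ∈ S, m (u x) = v x)).card * (n - N) ^ S.card ≤
      (Ext pos P).card := by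
  induction S using Finset.induction_on with
  | empty => simp
  | insert x S hx ih =>
    rw [card_insert_of_notMem hx] at hN ⊢
    refine le_trans ?_ (ih (fun y hy => hu y (mem_insert_of_mem hy))
      (fun y hy z hz => huv y (mem_insert_of_mem hy) z (mem_insert_of_mem hz)) (by omega))
    rw [pow_succ', ← mul_assoc]
    apply Nat.mul_le_mul_right
    refine le_trans ?_ (Ext_up hn (h.add S u v) (u := u x) ?_ (v x))
    · apply Nat.mul_le_mul
      · apply Ext_congr
        intro m _ hm
        exact ⟨⟨hm.1, fun y hy => hm.2 y (mem_insert_of_mem hy)⟩, hm.2 x (mem_insert_self _ _)⟩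
      · have a := card_union_le A (S.image u ∪ S.image v)
        have b := card_union_le (S.image u) (S.image v)
        have c := card_image_le (s := S) (f := u)
        have d := card_image_le (s := S) (f := v)
        omega
    · simp only [mem_union, mem_image, not_or, not_exists, not_and]
      refine ⟨hu x (mem_insert_self _ _), fun y hy => ?_, fun y hy => ?_⟩
      · exact (huv x (mem_insert_self _ _) y (mem_insert_of_mem hy) (fun e => hx (e ▸ hy))).1.symm
      · exact (huv x (mem_insert_self _ _) y (mem_insert_of_mem hy) (fun e => hx (e ▸ hy))).2.symm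

theorem Ext_down_iter {pos : V → Fin 4} {n : ℕ} (hn : ∀ q, cnt pos univ q = n)
    {ι : Type} [DecidableEq ι] (u v : ι → V) (S : Finset ι)
    (hp : ∀ x ∈ S, pos (v x) = pos (u x) + 2)
    (huv : ∀ x ∈ S, ∀ y ∈ S, x ≠ y → u x ≠ u y ∧ u x ≠ v y ∧ v x ≠ v y) :
    (TP pos univ).card ≤ n ^ S.card * (Ext pos (fun m => ∀ x ∈ S, m (u x) = v x)).card := by
  induction S using Finset.induction_on with
  | empty =>
    simp only [card_empty, pow_zero, one_mul]
    apply card_le_card
    intro m hm
    exact mem_Ext.mpr ⟨mem_TP.mp hm, by simp⟩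
  | insert x S hx ih =>
    rw [card_insert_of_notMem hx]
    refine le_trans (ih (fun y hy => hp y (mem_insert_of_mem hy))
      (fun y hy z hz => huv y (mem_insert_of_mem hy) z (mem_insert_of_mem hz))) ?_
    rw [pow_succ, mul_assoc]
    apply Nat.mul_le_mul_left
    have h0 : Loc pos ∅ (fun _ => True) := ⟨by simp, by simp⟩
    refine le_trans (Ext_congr (fun m _ hm => ⟨trivial, hm⟩))
      (le_trans (Ext_down hn (h0.add S u v) (u := u x) (v := v x) ?_ ?_
        (hp x (mem_insert_self _ _))) ?_)
    · simp only [mem_union, mem_image, not_or, not_exists, not_and]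
      refine ⟨by simp, fun y hy => ?_, fun y hy => ?_⟩
      · exact (huv x (mem_insert_self _ _) y (mem_insert_of_mem hy) (fun e => hx (e ▸ hy))).1.symm
      · exact (huv x (mem_insert_self _ _) y (mem_insert_of_mem hy)
          (fun e => hx (e ▸ hy))).2.1.symm
    · simp only [mem_union, mem_image, not_or, not_exists, not_and]
      refine ⟨by simp, fun y hy => ?_, fun y hy => ?_⟩
      · exact (huv y (mem_insert_of_mem hy) x (mem_insert_self _ _) (fun e => hx (e ▸ hy))).2.1
      · exact (huv y (mem_insert_of_mem hy) x (mem_insert_self _ _) (fun e => hx (e ▸ hy))).2.2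
    · apply Nat.mul_le_mul_left
      apply Ext_congr
      intro m _ hm y hy
      rcases mem_insert.mp hy with rfl | hy
      · exact hm.2
      · exact hm.1.2 y hy

/-- double counting -/
lemma sum_card_le_mul {ι α : Type} [DecidableEq α] (S : Finset ι) (F : ι → Finset α)
    (B : Finset α) (g : ℕ) (hF : ∀ i ∈ S, F i ⊆ B)
    (hg : ∀ m ∈ B, (S.filter (fun i => m ∈ F i)).card ≤ g) :
    ∑ i ∈ S, (F i).card ≤ g * B.card := by
  calc ∑ i ∈ S, (F i).card = ∑ i ∈ S, ∑ m ∈ B, if m ∈ F i then 1 else 0 := by
        apply sum_congr rfl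
        intro i hi
        rw [← card_filter, filter_mem_eq_inter, inter_eq_right.mpr (hF i hi)]
    _ = ∑ m ∈ B, (S.filter (fun i => m ∈ F i)).card := by
        rw [sum_comm]
        apply sum_congr rfl
        intro m _
        rw [card_filter]
    _ ≤ ∑ _m ∈ B, g := sum_le_sum hg
    _ = _ := by rw [sum_const, smul_eq_mul, mul_comm]

/-- weighted second moment inequality -/
theorem second_moment {ι α : Type} [DecidableEq α] (S : Finset ι) (w : ι → ℝ)
    (hw : ∀ i ∈ S, 0 ≤ w i) (F : ι → Finset α) (H : Finset α) (hF : ∀ i ∈ S, F i ⊆ H) (Bd : ℝ)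
    (hBd : 0 ≤ Bd)
    (h2 : ∀ i ∈ S, ∑ j ∈ S, w j * ((F i ∩ F j).card : ℝ) ≤ Bd * (F i).card) :
    ∑ i ∈ S, w i * ((F i).card : ℝ) ≤ Bd * H.card := by
  obtain ⟨W, hW⟩ : ∃ W : α → ℝ, W = fun m => ∑ i ∈ S, w i * (if m ∈ F i then 1 else 0) := ⟨_, rfl⟩
  have e1 : ∑ m ∈ H, W m = ∑ i ∈ S, w i * ((F i).card : ℝ) := by
    rw [hW, sum_comm]
    apply sum_congr rfl
    intro i hi
    rw [← mul_sum, sum_boole, filter_mem_eq_inter, inter_eq_right.mpr (hF i hi)]
  have e2 : ∑ m ∈ H, W m ^ 2 = ∑ i ∈ S, w i * ∑ j ∈ S, w j * ((F i ∩ F j).card : ℝ) := by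
    have : ∀ m, W m ^ 2 = ∑ i ∈ S, ∑ j ∈ S, w i * (w j * (if m ∈ F i ∩ F j then 1 else 0)) := by
      intro m
      rw [hW, sq, sum_mul_sum]
      apply sum_congr rfl
      intro i _
      apply sum_congr rfl
      intro j _
      by_cases a : m ∈ F i <;> by_cases b : m ∈ F j <;> simp [a, b]
    simp only [this]
    rw [sum_comm]
    apply sum_congr rfl
    intro i hi
    rw [sum_comm, mul_sum]
    apply sum_congr rfl
    intro j _
    rw [← mul_sum, ← mul_sum, sum_boole, filter_mem_eq_inter,
      inter_eq_right.mpr (inter_subset_left.trans (hF i hi))]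
  have e3 : ∑ m ∈ H, W m ^ 2 ≤ Bd * ∑ m ∈ H, W m := by
    rw [e2, e1, mul_sum]
    apply sum_le_sum
    intro i hi
    rw [mul_left_comm]
    exact mul_le_mul_of_nonneg_left (h2 i hi) (hw i hi)
  have e4 := sq_sum_le_card_mul_sum_sq (s := H) (f := W)
  rw [← e1]
  rcases le_or_gt (∑ m ∈ H, W m) 0 with h | h
  · exact h.trans (by positivity)
  · have : (∑ m ∈ H, W m) * (∑ m ∈ H, W m) ≤ (Bd * H.card) * ∑ m ∈ H, W m := by
      have := mul_le_mul_of_nonneg_left e3 (Nat.cast_nonneg (α := ℝ) H.card)
      nlinarith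
    exact le_of_mul_le_mul_right this h

/-- resampling a coordinate -/
theorem resample {Ω α : Type} [DecidableEq Ω] [DecidableEq α] (O : Finset Ω) (A : Finset α)
    (g : Ω → α) (upd : Ω → α → Ω) (hO : ∀ ω ∈ O, ∀ x ∈ A, upd ω x ∈ O) (hA : ∀ ω ∈ O, g ω ∈ A)
    (h1 : ∀ ω x, upd (upd ω x) (g ω) = ω) (h2 : ∀ ω x, g (upd ω x) = x) (Bad : Finset Ω)
    (hB : Bad ⊆ O) (c : ℕ) (hc : ∀ ω ∈ O, (A.filter (fun x => upd ω x ∈ Bad)).card ≤ c) :
    Bad.card * A.card ≤ O.card * c := by
  calc Bad.card * A.card = (Bad ×ˢ A).card := (card_product _ _).symm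
    _ ≤ (O.sigma (fun ω => A.filter (fun x => upd ω x ∈ Bad))).card := by
        apply card_le_card_of_injOn (fun p => ⟨upd p.1 p.2, g p.1⟩)
        · intro p hp
          simp only [coe_product, Set.mem_prod, mem_coe] at hp
          simp only [mem_coe, mem_sigma, mem_filter, h1]
          exact ⟨hO _ (hB hp.1) _ hp.2, hA _ (hB hp.1), hp.1⟩
        · intro p _ q _ e
          simp only [Sigma.mk.injEq, heq_eq_eq] at e
          have a : p.1 = q.1 := by rw [← h1 p.1 p.2, e.1, e.2, h1]
          have b : p.2 = q.2 := by rw [← h2 p.1 p.2, e.1, h2]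
          exact Prod.ext a b
    _ = ∑ ω ∈ O, (A.filter (fun x => upd ω x ∈ Bad)).card := card_sigma _ _
    _ ≤ ∑ _ω ∈ O, c := sum_le_sum hc
    _ = _ := by rw [sum_const, smul_eq_mul]

/-- resampling a coordinate of a product set -/
theorem resample_pi {ι α : Type} [Fintype ι] [DecidableEq ι] [DecidableEq α] (A : ι → Finset α)
    (i : ι) (Bad : Finset (ι → α)) (hB : Bad ⊆ Fintype.piFinset A) (c : ℕ)
    (hc : ∀ f ∈ Fintype.piFinset A,
      ((A i).filter (fun x => Function.update f i x ∈ Bad)).card ≤ c) :
    Bad.card * (A i).card ≤ (Fintype.piFinset A).card * c := by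
  refine resample _ (A i) (fun f => f i) (fun f x => Function.update f i x) ?_ ?_ ?_ ?_ Bad hB c hc
  · intro f hf x hx
    rw [Fintype.mem_piFinset] at hf ⊢
    intro j
    by_cases h : j = i
    · subst h; simpa using hx
    · simpa [h] using hf j
  · intro f hf
    exact Fintype.mem_piFinset.mp hf i
  · intro f x; simp
  · intro f x; simp

end Pool.Agent.MP_755159_pr

end

section

/-! The combinatorial skeleton: special cuts, chains of cuts, generic cuts and their ends. -/

set_option linter.unusedSectionVars false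

namespace Pool.Agent.MP_755159_pr

open Finset

/-- chain labels -/
abbrev Chn (R : ℕ) := Fin R × Bool
/-- cuts -/
abbrev Cut (R T k : ℕ) := Fin R ⊕ (Chn R × Fin (T + 1)) ⊕ Fin k
/-- ends of cuts -/
abbrev End (R T k : ℕ) := Cut R T k × Bool
/-- bits -/
abbrev Bits (R T : ℕ) := Chn R → Fin (T + 1) → Bool

variable {R T k : ℕ}

/-- special ends -/
def se (i : Chn R) : End R T k := (Sum.inl i.1, i.2)
/-- incoming chain ends -/
def ye (b : Bits R T) (i : Chn R) (t : Fin (T + 1)) : End R T k := (Sum.inr (Sum.inl (i, t)), b i t)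
/-- outgoing chain ends -/
def xo (b : Bits R T) (i : Chn R) (t : Fin (T + 1)) : End R T k :=
  (Sum.inr (Sum.inl (i, t)), !b i t)
/-- generic ends -/
def gn (g : Fin k) (c : Bool) : End R T k := (Sum.inr (Sum.inr g), c)
/-- the other end -/
def fl (e : End R T k) : End R T k := (e.1, !e.2)

/-- the chain pairing -/
def ch (b : Bits R T) : End R T k → End R T k
  | (Sum.inl r, c) => ye b (r, c) 0
  | (Sum.inr (Sum.inl (i, t)), c) =>
      if c = b i t then Fin.cases (motive := fun _ => End R T k) (se i)
        (fun t' => xo b i t'.castSucc) t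
      else Fin.lastCases (motive := fun _ => End R T k) (xo b i (Fin.last T))
        (fun t' => ye b i t'.succ) t
  | (Sum.inr (Sum.inr g), c) => gn g c

@[simp] lemma ch_se (b : Bits R T) (i : Chn R) : ch b (se i : End R T k) = ye b i 0 := rfl
@[simp] lemma ch_ye_zero (b : Bits R T) (i : Chn R) : ch b (ye b i 0 : End R T k) = se i := by
  simp [ch, ye]
@[simp] lemma ch_ye_succ (b : Bits R T) (i : Chn R) (t : Fin T) :
    ch b (ye b i t.succ : End R T k) = xo b i t.castSucc := by
  simp [ch, ye]
@[simp] lemma ch_xo_castSucc (b : Bits R T) (i : Chn R) (t : Fin T) :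
    ch b (xo b i t.castSucc : End R T k) = ye b i t.succ := by
  simp [ch, xo]
@[simp] lemma ch_xo_last (b : Bits R T) (i : Chn R) :
    ch b (xo b i (Fin.last T) : End R T k) = xo b i (Fin.last T) := by
  simp [ch, xo]
@[simp] lemma ch_gn (b : Bits R T) (g : Fin k) (c : Bool) :
    ch b (gn g c : End R T k) = gn g c := rfl

@[simp] lemma fl_ye (b : Bits R T) (i : Chn R) (t : Fin (T + 1)) :
    fl (ye b i t : End R T k) = xo b i t := rfl
@[simp] lemma fl_xo (b : Bits R T) (i : Chn R) (t : Fin (T + 1)) :
    fl (xo b i t : End R T k) = ye b i t := by simp [fl, xo, ye]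
@[simp] lemma fl_gn (g : Fin k) (c : Bool) : fl (gn g c : End R T k) = gn g (!c) := rfl
@[simp] lemma fl_fl (e : End R T k) : fl (fl e) = e := by simp [fl]
lemma fl_ne (e : End R T k) : fl e ≠ e := by
  intro h
  have := congrArg Prod.snd h
  simp [fl] at this

lemma End.cases4 (b : Bits R T) (P : End R T k → Prop) (h1 : ∀ i, P (se i))
    (h2 : ∀ i t, P (ye b i t)) (h3 : ∀ i t, P (xo b i t)) (h4 : ∀ g c, P (gn g c)) : ∀ e, P e := by
  rintro ⟨r | ⟨i, t⟩ | g, c⟩
  · exact h1 (r, c)
  · by_cases h : c = b i t
    · subst h; exact h2 i t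
    · have : c = !b i t := Bool.eq_not_iff.mpr h
      subst this; exact h3 i t
  · exact h4 g c

lemma End.cases6 (b : Bits R T) (P : End R T k → Prop) (h1 : ∀ i, P (se i))
    (h2 : ∀ i, P (ye b i 0)) (h2' : ∀ i (t : Fin T), P (ye b i t.succ))
    (h3 : ∀ i (t : Fin T), P (xo b i t.castSucc)) (h3' : ∀ i, P (xo b i (Fin.last T)))
    (h4 : ∀ g c, P (gn g c)) : ∀ e, P e :=
  End.cases4 b P h1 (fun i t => Fin.cases (h2 i) (h2' i) t)
    (fun i t => Fin.lastCases (h3' i) (h3 i) t) h4

lemma ch_ch (b : Bits R T) (e : End R T k) : ch b (ch b e) = e := by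
  induction e using End.cases6 b <;> simp

/-- the free ends -/
def XX (b : Bits R T) : Finset (End R T k) := univ.filter (fun e => ch b e = e)

lemma mem_XX {b : Bits R T} {e : End R T k} : e ∈ XX b ↔ ch b e = e := by simp [XX]

lemma xo_last_mem (b : Bits R T) (i : Chn R) : (xo b i (Fin.last T) : End R T k) ∈ XX b := by
  simp [mem_XX]

lemma gn_mem (b : Bits R T) (g : Fin k) (c : Bool) : (gn g c : End R T k) ∈ XX b := by
  simp [mem_XX]

lemma se_notMem (b : Bits R T) (i : Chn R) : (se i : End R T k) ∉ XX b := by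
  rw [mem_XX, ch_se]; simp [se, ye]

lemma ye_notMem (b : Bits R T) (i : Chn R) (t : Fin (T + 1)) : (ye b i t : End R T k) ∉ XX b := by
  rw [mem_XX]
  induction t using Fin.cases with
  | zero => rw [ch_ye_zero]; simp [se, ye]
  | succ t => rw [ch_ye_succ]; simp [xo, ye, Fin.ext_iff]

lemma xo_castSucc_notMem (b : Bits R T) (i : Chn R) (t : Fin T) :
    (xo b i t.castSucc : End R T k) ∉ XX b := by
  rw [mem_XX, ch_xo_castSucc]; simp [xo, ye, Fin.ext_iff]

lemma mem_XX_cases {b : Bits R T} {e : End R T k} (h : e ∈ XX b) :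
    (∃ i, e = xo b i (Fin.last T)) ∨ ∃ g c, e = gn g c := by
  induction e using End.cases6 b with
  | h1 i => exact absurd h (se_notMem b i)
  | h2 i => exact absurd h (ye_notMem b i _)
  | h2' i t => exact absurd h (ye_notMem b i _)
  | h3 i t => exact absurd h (xo_castSucc_notMem b i _)
  | h3' i => exact Or.inl ⟨i, rfl⟩
  | h4 g c => exact Or.inr ⟨g, c, rfl⟩

/-- flips generic ends only -/
def kap : End R T k → End R T k
  | (Sum.inr (Sum.inr g), c) => gn g (!c)
  | e => e

@[simp] lemma kap_gn (g : Fin k) (c : Bool) : kap (gn g c : End R T k) = gn g (!c) := rfl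
@[simp] lemma kap_xo (b : Bits R T) (i : Chn R) (t : Fin (T + 1)) :
    kap (xo b i t : End R T k) = xo b i t := rfl

lemma kap_inv (b : Bits R T) : Inv (XX b : Finset (End R T k)) kap := by
  intro x hx
  rcases mem_XX_cases hx with ⟨i, rfl⟩ | ⟨g, c, rfl⟩
  · simp [xo_last_mem]
  · simp [gn_mem]

/-- the full pairing -/
def PP (b : Bits R T) (p : End R T k → End R T k) (e : End R T k) : End R T k := p (ch b e)

lemma PP_of_mem {b : Bits R T} (p : End R T k → End R T k) {e : End R T k} (h : e ∈ XX b) :
    PP b p e = p e := by rw [PP, mem_XX.mp h]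

lemma ch_notMem {b : Bits R T} {e : End R T k} (h : e ∉ XX b) : ch b e ∉ XX b := by
  rw [mem_XX] at h ⊢
  rw [ch_ch]; exact fun e => h e.symm

lemma PP_of_notMem {b : Bits R T} {ty : End R T k → Fin 4} {p : End R T k → End R T k}
    (hp : IsTP ty (XX b) p) {e : End R T k} (h : e ∉ XX b) : PP b p e = ch b e :=
  hp.1 _ (ch_notMem h)

lemma PP_isTP {b : Bits R T} {ty : End R T k → Fin 4} {p : End R T k → End R T k}
    (hp : IsTP ty (XX b) p) (hty : ∀ e, e ∉ XX b → ty (ch b e) = ty e + 2) :
    IsTP ty univ (PP b p) := by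
  refine ⟨by simp, fun e _ => ⟨mem_univ _, ?_⟩⟩
  by_cases h : e ∈ XX b
  · obtain ⟨a1, a2, a3⟩ := hp.2 e h
    rw [PP_of_mem p h, PP_of_mem p a1]
    exact ⟨a2, a3⟩
  · rw [PP_of_notMem hp h, PP_of_notMem hp (ch_notMem h), ch_ch]
    exact ⟨rfl, hty e h⟩

/-- every closed set reaches a special end -/
lemma full_acyc {b : Bits R T} {ty : End R T k → Fin 4} {p : End R T k → End R T k}
    (hp : IsTP ty (XX b) p) (ha : Acyc (XX b) kap p) (U : Finset (End R T k)) (hne : U.Nonempty)
    (h1 : ∀ e ∈ U, fl e ∈ U) (h2 : ∀ e ∈ U, PP b p e ∈ U) : ∃ i, se i ∈ U := by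
  by_contra hcon
  push Not at hcon
  have hye : ∀ i t, ye b i t ∉ U := by
    intro i t
    induction t using Fin.induction with
    | zero =>
      intro h
      have := h2 _ h
      rw [PP_of_notMem hp (ye_notMem b i _), ch_ye_zero] at this
      exact hcon i this
    | succ t ih =>
      intro h
      have := h1 _ (h2 _ h)
      rw [PP_of_notMem hp (ye_notMem b i _), ch_ye_succ, fl_xo] at this
      exact ih this
  have hxo : ∀ i t, xo b i t ∉ U := fun i t h => hye i t (by simpa using h1 _ h)
  have hgn : ∀ e ∈ U, ∃ g c, e = gn g c := by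
    intro e
    induction e using End.cases4 b with
    | h1 i => exact fun h => absurd h (hcon i)
    | h2 i t => exact fun h => absurd h (hye i t)
    | h3 i t => exact fun h => absurd h (hxo i t)
    | h4 g c => exact fun _ => ⟨g, c, rfl⟩
  have hUX : U ⊆ XX b := by
    intro e he
    obtain ⟨g, c, rfl⟩ := hgn e he
    exact gn_mem b g c
  obtain ⟨x, hx, hk⟩ := ha U hUX hne (by
      intro e he
      obtain ⟨g, c, rfl⟩ := hgn e he
      simpa using h1 _ he)
    (fun e he => PP_of_mem p (hUX he) ▸ h2 e he)
  obtain ⟨g, c, rfl⟩ := hgn x hx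
  rw [kap_gn] at hk
  simp [gn] at hk

/-- offset of an end -/
def dl4 (c : Bool) : Fin 4 := if c then 1 else 0

/-- type of an end -/
def tyE (τ : Cut R T k → Fin 4) (e : End R T k) : Fin 4 := τ e.1 + dl4 e.2

/-- admissible type assignments -/
structure Typed (b : Bits R T) (τ : Cut R T k → Fin 4) (E : ℕ) (r₀ : Fin R) (g₀ : Fin k) :
    Prop where
  sp : ∀ r, τ (Sum.inl r) = 0
  chn : ∀ e, e ∉ XX b → tyE τ (ch b e) = tyE τ e + 2
  count : ∀ q, cnt (tyE τ) (XX b) q = E
  odd : ∀ r, ¬ Ev (tyE τ (xo b (r, true) (Fin.last T)))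
  face : Ev (tyE τ (gn g₀ (b (r₀, true) (Fin.last T))))

lemma exists_gen_types (k E : ℕ) (l : Fin 4 → ℕ) (h02 : l 0 + l 2 + k = 2 * E)
    (h13 : l 1 + l 3 + k = 2 * E) (hl : ∀ q, l q < E) (g₀ : Fin k) (hg : g₀.val = 0) (c : Bool) :
    ∃ τ : Fin k → Fin 4, (∀ q, l q + (univ.filter
      (fun x : Fin k × Bool => τ x.1 + dl4 x.2 = q)).card = E) ∧ Ev (τ g₀ + dl4 c) := by
  have hc : ∀ x ≤ k, ∑ g : Fin k, (if g.val < x then 1 else 0) = x := by
    intro x hx
    rw [← card_filter, Fin.card_filter_val_lt]; omega
  have hc' : ∀ x ≤ k, ∑ g : Fin k, (if g.val < x then 0 else 1) + x = k := by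
    intro x hx
    have : ∑ g : Fin k, (if g.val < x then 0 else 1) + ∑ g : Fin k, (if g.val < x then 1 else 0)
        = k := by
      rw [← sum_add_distrib, sum_congr rfl (g := fun _ => 1)]
      · simp
      · intro g _; split_ifs <;> rfl
    rwa [hc x hx] at this
  have l0 := hl 0
  have l1 := hl 1
  have l2 := hl 2
  have l3 := hl 3
  have a0 := hc (E - l 0) (by omega)
  have a0' := hc' (E - l 0) (by omega)
  have a1 := hc (E - l 1) (by omega)
  have a1' := hc' (E - l 1) (by omega)
  have a3 := hc (E - l 3) (by omega)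
  have a3' := hc' (E - l 3) (by omega)
  have q4 : ∀ q : Fin 4, q = 0 ∨ q = 1 ∨ q = 2 ∨ q = 3 := by decide
  cases c
  · refine ⟨fun g => if g.val < E - l 0 then (if g.val < E - l 1 then 0 else 3)
      else (if g.val < E - l 1 then 1 else 2), fun q => ?_, ?_⟩
    · rw [card_filter, Fintype.sum_prod_type]
      simp only [Fintype.sum_bool]
      rcases q4 q with rfl | rfl | rfl | rfl
      · rw [sum_congr rfl (g := fun g : Fin k => if g.val < E - l 0 then 1 else 0)]
        · omega
        · intro g _; by_cases u : g.val < E - l 0 <;> by_cases v : g.val < E - l 1 <;>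
            simp only [u, v, if_true, if_false] <;> decide
      · rw [sum_congr rfl (g := fun g : Fin k => if g.val < E - l 1 then 1 else 0)]
        · omega
        · intro g _; by_cases u : g.val < E - l 0 <;> by_cases v : g.val < E - l 1 <;>
            simp only [u, v, if_true, if_false] <;> decide
      · rw [sum_congr rfl (g := fun g : Fin k => if g.val < E - l 0 then 0 else 1)]
        · omega
        · intro g _; by_cases u : g.val < E - l 0 <;> by_cases v : g.val < E - l 1 <;>
            simp only [u, v, if_true, if_false] <;> decide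
      · rw [sum_congr rfl (g := fun g : Fin k => if g.val < E - l 1 then 0 else 1)]
        · omega
        · intro g _; by_cases u : g.val < E - l 0 <;> by_cases v : g.val < E - l 1 <;>
            simp only [u, v, if_true, if_false] <;> decide
    · simp only [hg, show 0 < E - l 0 by omega, show 0 < E - l 1 by omega, if_true]
      decide
  · refine ⟨fun g => if g.val < E - l 0 then (if g.val < E - l 3 then 3 else 0)
      else (if g.val < E - l 3 then 2 else 1), fun q => ?_, ?_⟩
    · rw [card_filter, Fintype.sum_prod_type]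
      simp only [Fintype.sum_bool]
      rcases q4 q with rfl | rfl | rfl | rfl
      · rw [sum_congr rfl (g := fun g : Fin k => if g.val < E - l 0 then 1 else 0)]
        · omega
        · intro g _; by_cases u : g.val < E - l 0 <;> by_cases v : g.val < E - l 3 <;>
            simp only [u, v, if_true, if_false] <;> decide
      · rw [sum_congr rfl (g := fun g : Fin k => if g.val < E - l 3 then 0 else 1)]
        · omega
        · intro g _; by_cases u : g.val < E - l 0 <;> by_cases v : g.val < E - l 3 <;>
            simp only [u, v, if_true, if_false] <;> decide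
      · rw [sum_congr rfl (g := fun g : Fin k => if g.val < E - l 0 then 0 else 1)]
        · omega
        · intro g _; by_cases u : g.val < E - l 0 <;> by_cases v : g.val < E - l 3 <;>
            simp only [u, v, if_true, if_false] <;> decide
      · rw [sum_congr rfl (g := fun g : Fin k => if g.val < E - l 3 then 1 else 0)]
        · omega
        · intro g _; by_cases u : g.val < E - l 0 <;> by_cases v : g.val < E - l 3 <;>
            simp only [u, v, if_true, if_false] <;> decide
    · simp only [hg, show 0 < E - l 0 by omega, show 0 < E - l 3 by omega, if_true]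
      decide

/-- types along a chain -/
def xt (b : Bits R T) (i : Chn R) : ℕ → Fin 4
  | 0 => dl4 i.2
  | t + 1 => xt b i t + (if (if h : t < T + 1 then b i ⟨t, h⟩ else false) then 1 else 3)

lemma xt_par (b : Bits R T) (i : Chn R) (t : ℕ) : Ev (xt b i t) ↔ (i.2 = false ↔ Even t) := by
  induction t with
  | zero => obtain ⟨r, c⟩ := i; cases c <;> simp [xt, dl4, Ev]
  | succ t ih =>
    have h : ∀ (q : Fin 4) (c : Bool), Ev (q + if c then 1 else 3) ↔ ¬ Ev q := by decide
    rw [xt, h, ih, Nat.even_add_one]; tauto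

theorem exists_typed (b : Bits R T) (E : ℕ) (hT : Even (T + 1)) (hE : R + k = 2 * E) (hR : R < E)
    (r₀ : Fin R) (g₀ : Fin k) (hg : g₀.val = 0) :
    ∃ τ : Cut R T k → Fin 4, Typed b τ E r₀ g₀ := by
  obtain ⟨l, hl⟩ : ∃ l : Fin 4 → ℕ,
      l = fun q => (univ.filter (fun i : Chn R => xt b i (T + 1) = q)).card := ⟨_, rfl⟩
  have hpar : ∀ c : Bool, (univ.filter (fun i : Chn R => i.2 = c)).card = R := by
    intro c
    rw [card_filter, Fintype.sum_prod_type]
    cases c <;> simp
  have h02 : l 0 + l 2 = R := by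
    refine Eq.trans ?_ (hpar false)
    rw [hl, ← card_union_of_disjoint (by
      rw [disjoint_filter]; intro i _ h; rw [h]; decide), ← filter_or]
    congr 1
    apply filter_congr
    intro i _
    have := xt_par b i (T + 1)
    rw [Ev] at this
    tauto
  have h13 : l 1 + l 3 = R := by
    refine Eq.trans ?_ (hpar true)
    rw [hl, ← card_union_of_disjoint (by
      rw [disjoint_filter]; intro i _ h; rw [h]; decide), ← filter_or]
    congr 1
    apply filter_congr
    intro i _
    have := xt_par b i (T + 1)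
    have q : ∀ q : Fin 4, q = 1 ∨ q = 3 ↔ ¬ Ev q := by decide
    rw [q, this]
    simp [hT]
  have hlt : ∀ q, l q < E := by
    intro q
    have q4 : ∀ q : Fin 4, q = 0 ∨ q = 1 ∨ q = 2 ∨ q = 3 := by decide
    rcases q4 q with rfl | rfl | rfl | rfl <;> omega
  obtain ⟨τg, hτ, hface⟩ := exists_gen_types k E l (by omega) (by omega) hlt g₀ hg
    (b (r₀, true) (Fin.last T))
  obtain ⟨τ, hτd⟩ : ∃ τ : Cut R T k → Fin 4, τ = Sum.elim (fun _ => 0) (Sum.elim
    (fun x => xt b x.1 x.2.val + 2 - dl4 (b x.1 x.2)) τg) := ⟨_, rfl⟩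
  have hse : ∀ i, tyE τ (se i) = xt b i 0 := by
    intro i; simp [hτd, tyE, se, xt]
  have hye : ∀ i t, tyE τ (ye b i t) = xt b i t.val + 2 := by
    intro i t; simp [hτd, tyE, ye]
  have hxo : ∀ i t, tyE τ (xo b i t) = xt b i (t.val + 1) := by
    intro i t
    have h : ∀ (q : Fin 4) (c : Bool), q + 2 - dl4 c + dl4 (!c) = q + if c then 1 else 3 := by
      decide
    simp only [hτd, tyE, xo, Sum.elim_inr, Sum.elim_inl, xt, t.isLt, dif_pos, h]
  have hgn : ∀ g c, tyE τ (gn g c) = τg g + dl4 c := by
    intro g c; simp [hτd, tyE, gn]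
  refine ⟨τ, by simp [hτd], ?_, ?_, ?_, by rw [hgn]; exact hface⟩
  · intro e
    induction e using End.cases6 b with
    | h1 i => intro _; rw [ch_se, hye, hse]; rfl
    | h2 i => intro _; rw [ch_ye_zero, hye, hse, add_two_two]; rfl
    | h2' i t => intro _; rw [ch_ye_succ, hye, hxo, add_two_two]; rfl
    | h3 i t => intro _; rw [ch_xo_castSucc, hye, hxo]; rfl
    | h3' i => intro h; exact absurd (xo_last_mem b i) h
    | h4 g c => intro h; exact absurd (gn_mem b g c) h
  · intro q
    rw [← hτ q, hl, cnt]
    have : (XX b).filter (fun d => tyE τ d = q) =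
        (univ.filter (fun i : Chn R => xt b i (T + 1) = q)).image (fun i => xo b i (Fin.last T)) ∪
        (univ.filter (fun x : Fin k × Bool => τg x.1 + dl4 x.2 = q)).image
          (fun x => gn x.1 x.2) := by
      ext e
      simp only [mem_filter, mem_union, mem_image, mem_univ, true_and]
      constructor
      · rintro ⟨h, h'⟩
        rcases mem_XX_cases h with ⟨i, rfl⟩ | ⟨g, c, rfl⟩
        · exact Or.inl ⟨i, by rwa [hxo] at h', rfl⟩
        · exact Or.inr ⟨(g, c), by rwa [hgn] at h', rfl⟩
      · rintro (⟨i, h, rfl⟩ | ⟨x, h, rfl⟩)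
        · exact ⟨xo_last_mem b i, by rwa [hxo]⟩
        · exact ⟨gn_mem b _ _, by rwa [hgn]⟩
    rw [this, card_union_of_disjoint, card_image_of_injective, card_image_of_injective]
    · intro x y h
      simp only [gn, Prod.mk.injEq, Sum.inr.injEq] at h
      exact Prod.ext h.1 h.2
    · intro x y h
      simp only [xo, Prod.mk.injEq, Sum.inr.injEq, Sum.inl.injEq] at h
      exact h.1.1
    · rw [disjoint_left]
      intro e h1 h2
      obtain ⟨i, -, rfl⟩ := mem_image.mp h1
      obtain ⟨x, -, h⟩ := mem_image.mp h2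
      simp [gn, xo] at h
  · intro r
    rw [hxo, xt_par]
    simp [hT]

end Pool.Agent.MP_755159_pr

end
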